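import Mathlib

/-!
Every preordered monoid embeds, with the order reflected, into one in which the
elements of the image have iterated left and right adjoints.
-/

namespace Pool.Agent.Helper273.GF

structure PMon where
  X : Type
  mul : X → X → X
  one : X
  le : X → X → Prop
  assoc : ∀ a b c, mul (mul a b) c = mul a (mul b c)
  one_mul : ∀ a, mul one a = a
  mul_one : ∀ a, mul a one = a
  refl : ∀ a, le a a
  trans : ∀ a b c, le a b → le b c → le a c
  mono : ∀ a b c d, le a b → le c d → le (mul a c) (mul b d)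

def LS (P : PMon) : Type := {A : P.X → Prop // ∀ a b, P.le a b → A b → A a}

def MF (P : PMon) : Type :=
  {f : LS P → LS P // ∀ A B : LS P, (∀ x, A.1 x → B.1 x) → ∀ x, (f A).1 x → (f B).1 x}

def PMon.ext (P : PMon) : PMon where
  X := MF P
  mul f g := ⟨fun A => g.1 (f.1 A), fun A B h => g.2 _ _ (f.2 A B h)⟩
  one := ⟨fun A => A, fun _ _ h => h⟩
  le f g := ∀ A x, (g.1 A).1 x → (f.1 A).1 x
  assoc _ _ _ := rfl
  one_mul _ := rfl
  mul_one _ := rfl
  refl _ _ _ h := h
  trans _ _ _ h1 h2 A x h := h1 A x (h2 A x h)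
  mono a b c d h1 h2 A x h := h2 (a.1 A) x (d.2 _ _ (h1 A) x h) 

def PMon.R (P : PMon) (a : P.X) : P.ext.X :=
  ⟨fun A => ⟨fun y => A.1 (P.mul a y), fun _ _ h => A.2 _ _ (P.mono _ _ _ _ (P.refl a) h)⟩,
    fun _ _ h _ hx => h _ hx⟩

def PMon.Lm (P : PMon) (a : P.X) : P.ext.X :=
  ⟨fun A => ⟨fun z => ∃ y, A.1 y ∧ P.le z (P.mul a y),
      fun _ _ h hb => hb.elim fun y hy => ⟨y, hy.1, P.trans _ _ _ h hy.2⟩⟩,
    fun _ _ h _ hx => hx.elim fun y hy => ⟨y, h y hy.1, hy.2⟩⟩

def PMon.Qm (P : PMon) (a : P.X) : P.ext.X :=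
  ⟨fun A => ⟨fun z => ∀ y, P.le (P.mul a y) z → A.1 y,
      fun _ _ h hb y hy => hb y (P.trans _ _ _ hy h)⟩,
    fun _ _ h _ hx y hy => h y (hx y hy)⟩

theorem PMon.R_mul (P : PMon) (a b : P.X) :
    P.R (P.mul a b) = P.ext.mul (P.R a) (P.R b) := by
  apply Subtype.ext
  funext A
  apply Subtype.ext
  funext y
  show A.1 (P.mul (P.mul a b) y) = A.1 (P.mul a (P.mul b y))
  rw [P.assoc]

theorem PMon.R_one (P : PMon) : P.R P.one = P.ext.one := by
  apply Subtype.ext
  funext A
  apply Subtype.ext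
  funext y
  show A.1 (P.mul P.one y) = A.1 y
  rw [P.one_mul]

theorem PMon.R_le (P : PMon) (a b : P.X) : P.ext.le (P.R a) (P.R b) ↔ P.le a b := by
  constructor
  · intro h
    have := h ⟨fun x => P.le x b, fun x y hxy hy => P.trans _ _ _ hxy hy⟩ P.one
      (by show P.le (P.mul b P.one) b; rw [P.mul_one]; exact P.refl b)
    have h2 : P.le (P.mul a P.one) b := this
    rwa [P.mul_one] at h2
  · intro h A x hx
    exact A.2 _ _ (P.mono _ _ _ _ h (P.refl x)) hx

theorem PMon.LR_le (P : PMon) (a : P.X) : P.ext.le (P.ext.mul (P.Lm a) (P.R a)) P.ext.one :=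
  fun _ x hx => ⟨x, hx, P.refl _⟩

theorem PMon.RL_ge (P : PMon) (a : P.X) : P.ext.le P.ext.one (P.ext.mul (P.R a) (P.Lm a)) :=
  fun A x hx => by
    obtain ⟨y, hy, hxy⟩ := hx
    exact A.2 _ _ hxy hy

theorem PMon.RQ_le (P : PMon) (a : P.X) : P.ext.le (P.ext.mul (P.R a) (P.Qm a)) P.ext.one :=
  fun A _ hx y hy => A.2 _ _ hy hx

theorem PMon.QR_ge (P : PMon) (a : P.X) : P.ext.le P.ext.one (P.ext.mul (P.Qm a) (P.R a)) :=
  fun _ x hx => hx x (P.refl _)

theorem exists_model (P0 : PMon) (N : ℕ) : ∃ (P : PMon) (t : P0.X → ℤ → P.X),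
    (∀ a b, t (P0.mul a b) 0 = P.mul (t a 0) (t b 0)) ∧ t P0.one 0 = P.one ∧
    (∀ a b, P.le (t a 0) (t b 0) ↔ P0.le a b) ∧
    (∀ a (k : ℤ), -(N : ℤ) ≤ k → k < N →
      P.le (P.mul (t a k) (t a (k+1))) P.one ∧ P.le P.one (P.mul (t a (k+1)) (t a k))) := by
  induction N with
  | zero =>
    refine ⟨P0, fun a _ => a, fun _ _ => rfl, rfl, fun _ _ => Iff.rfl, ?_⟩
    intro a k h1 h2
    simp at h1
    simp at h2
    omega
  | succ N ih =>
    obtain ⟨P, t, h1, h2, h3, h4⟩ := ih
    refine ⟨P.ext, fun a k => if k = N + 1 then P.Qm (t a N) else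
      if k = -(N+1) then P.Lm (t a (-N)) else P.R (t a k), ?_, ?_, ?_, ?_⟩
    · intro a b
      have e1 : ¬ ((0:ℤ) = N + 1) := by omega
      have e2 : ¬ ((0:ℤ) = -(N + 1)) := by omega
      simp only [e1, e2, if_false]
      rw [h1, P.R_mul]
    · have e1 : ¬ ((0:ℤ) = N + 1) := by omega
      have e2 : ¬ ((0:ℤ) = -(N + 1)) := by omega
      simp only [e1, e2, if_false]
      rw [h2, P.R_one]
    · intro a b
      have e1 : ¬ ((0:ℤ) = N + 1) := by omega
      have e2 : ¬ ((0:ℤ) = -(N + 1)) := by omega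
      simp only [e1, e2, if_false]
      rw [P.R_le, h3]
    · intro a k hk1 hk2
      push_cast at hk1 hk2
      by_cases c1 : k = N
      · subst c1
        have e1 : ¬ ((N:ℤ) = N + 1) := by omega
        have e2 : ¬ ((N:ℤ) = -(N + 1)) := by omega
        simp only [e1, e2, if_false, if_true]
        exact ⟨P.RQ_le _, P.QR_ge _⟩
      · by_cases c2 : k = -(N+1)
        · subst c2
          have e1 : ¬ (-((N:ℤ) + 1) = N + 1) := by omega
          have e3 : -((N:ℤ) + 1) + 1 = -N := by ring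
          have e4 : ¬ (-(N:ℤ) = N + 1) := by omega
          have e5 : ¬ (-(N:ℤ) = -(N + 1)) := by omega
          simp only [e1, e3, e4, e5, if_false, if_true]
          exact ⟨P.LR_le _, P.RL_ge _⟩
        · have e1 : ¬ (k = N + 1) := by omega
          have e3 : ¬ (k + 1 = N + 1) := by omega
          have e4 : ¬ (k + 1 = -(N + 1)) := by omega
          have h5 := h4 a k (by omega) (by omega)
          simp only [e1, c2, e3, e4, if_false]
          rw [← P.R_mul, ← P.R_mul, ← P.R_one, P.R_le, P.R_le]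
          exact h5

/-- Formal words: symbols with an adjoint degree. -/
abbrev FW := List (ℕ × ℤ)

def emb (u : List ℕ) : FW := u.map fun s => (s, 0)

structure LeAx (Le : FW → FW → Prop) : Prop where
  refl : ∀ a, Le a a
  trans : ∀ a b c, Le a b → Le b c → Le a c
  app : ∀ a b c d, Le a b → Le c d → Le (a ++ c) (b ++ d)
  con : ∀ s k, Le [(s, k), (s, k+1)] []
  exp : ∀ s k, Le [] [(s, k+1), (s, k)]

theorem exists_Le (Der : List ℕ → List ℕ → Prop) (hr : ∀ a, Der a a)
    (ht : ∀ a b c, Der a b → Der b c → Der a c)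
    (ha : ∀ a b c d, Der a b → Der c d → Der (a ++ c) (b ++ d)) :
    ∃ Le : FW → FW → Prop, LeAx Le ∧ ∀ u v, Le (emb u) (emb v) ↔ Der u v := by
  let P0 : PMon :=
    { X := List ℕ, mul := fun a b => a ++ b, one := [], le := Der,
      assoc := fun a b c => List.append_assoc a b c
      one_mul := fun a => List.nil_append a
      mul_one := fun a => List.append_nil a
      refl := hr, trans := ht, mono := ha }
  choose P t h1 h2 h3 h4 using exists_model P0
  let ev : (N : ℕ) → FW → (P N).X := fun N c =>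
    c.foldr (fun x acc => (P N).mul (t N [x.1] x.2) acc) (P N).one
  have ev_nil : ∀ N, ev N [] = (P N).one := fun _ => rfl
  have ev_cons : ∀ N x c, ev N (x :: c) = (P N).mul (t N [x.1] x.2) (ev N c) :=
    fun _ _ _ => rfl
  have ev_app : ∀ N a b, ev N (a ++ b) = (P N).mul (ev N a) (ev N b) := by
    intro N a b
    induction a with
    | nil => rw [List.nil_append, ev_nil, (P N).one_mul]
    | cons x a ih => rw [List.cons_append, ev_cons, ih, ev_cons, (P N).assoc]
  have ev_emb : ∀ N u, ev N (emb u) = t N u 0 := by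
    intro N u
    induction u with
    | nil => exact (h2 N).symm
    | cons s u ih =>
      have : emb (s :: u) = (s, 0) :: emb u := rfl
      rw [this, ev_cons, ih]
      exact (h1 N [s] u).symm
  refine ⟨fun c c' => ∃ N0, ∀ N, N0 ≤ N → (P N).le (ev N c) (ev N c'), ?_, ?_⟩
  · constructor
    · exact fun a => ⟨0, fun N _ => (P N).refl _⟩
    · rintro a b c ⟨n1, g1⟩ ⟨n2, g2⟩
      exact ⟨max n1 n2, fun N hN => (P N).trans _ _ _ (g1 N (le_trans (le_max_left _ _) hN))
        (g2 N (le_trans (le_max_right _ _) hN))⟩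
    · rintro a b c d ⟨n1, g1⟩ ⟨n2, g2⟩
      refine ⟨max n1 n2, fun N hN => ?_⟩
      rw [ev_app, ev_app]
      exact (P N).mono _ _ _ _ (g1 N (le_trans (le_max_left _ _) hN))
        (g2 N (le_trans (le_max_right _ _) hN))
    · intro s k
      refine ⟨k.natAbs + 1, fun N hN => ?_⟩
      rw [ev_cons, ev_cons, ev_nil, (P N).mul_one]
      exact (h4 N [s] k (by omega) (by omega)).1
    · intro s k
      refine ⟨k.natAbs + 1, fun N hN => ?_⟩
      rw [ev_cons, ev_cons, ev_nil, (P N).mul_one]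
      exact (h4 N [s] k (by omega) (by omega)).2
  · intro u v
    constructor
    · rintro ⟨N, g⟩
      have := g N le_rfl
      rw [ev_emb, ev_emb, h3] at this
      exact this
    · intro h
      refine ⟨0, fun N _ => ?_⟩
      rw [ev_emb, ev_emb, h3]
      exact h

end Pool.Agent.Helper273.GF
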