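import Pool.Agent.Helper273.GF.Adj

set_option linter.unusedVariables false
set_option linter.unusedSectionVars false

/-!
Adjoints of formal words, and the inequalities used for shortcuts.
-/

namespace Pool.Agent.Helper273.GF

def adjP (c : FW) : FW := (c.reverse).map fun x => (x.1, x.2 + 1)
def adjM (c : FW) : FW := (c.reverse).map fun x => (x.1, x.2 - 1)

@[simp] theorem adjP_length (c : FW) : (adjP c).length = c.length := by simp [adjP]
@[simp] theorem adjM_length (c : FW) : (adjM c).length = c.length := by simp [adjM]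

theorem mem_adjP {c : FW} {x} (h : x ∈ adjP c) : ∃ y ∈ c, x.1 = y.1 ∧ x.2 = y.2 + 1 := by
  unfold adjP at h
  rw [List.mem_map] at h
  obtain ⟨y, hy, rfl⟩ := h
  exact ⟨y, List.mem_reverse.1 hy, rfl, rfl⟩

theorem mem_adjM {c : FW} {x} (h : x ∈ adjM c) : ∃ y ∈ c, x.1 = y.1 ∧ x.2 = y.2 - 1 := by
  unfold adjM at h
  rw [List.mem_map] at h
  obtain ⟨y, hy, rfl⟩ := h
  exact ⟨y, List.mem_reverse.1 hy, rfl, rfl⟩

section
variable {M : Type*} [Monoid M] [Preorder M] [MulLeftMono M] [MulRightMono M]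

theorem om_anti {a b c a1 c1 : M} (h : a ≤ b * c) (h1 : 1 ≤ a1 * a) (h2 : c * c1 ≤ 1) :
    c1 ≤ a1 * b :=
  calc c1 = 1 * c1 := (one_mul _).symm
    _ ≤ (a1 * a) * c1 := by gcongr
    _ ≤ (a1 * (b * c)) * c1 := by gcongr
    _ = a1 * b * (c * c1) := by simp only [mul_assoc]
    _ ≤ a1 * b * 1 := by gcongr
    _ = a1 * b := mul_one _

theorem om_antiM {a b c am bm : M} (h : a ≤ b * c) (h1 : 1 ≤ a * am) (h2 : bm * b ≤ 1) :
    bm ≤ c * am :=
  calc bm = bm * 1 := (mul_one _).symm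
    _ ≤ bm * (a * am) := by gcongr
    _ ≤ bm * ((b * c) * am) := by gcongr
    _ = (bm * b) * (c * am) := by simp only [mul_assoc]
    _ ≤ 1 * (c * am) := by gcongr
    _ = c * am := one_mul _

/-- LL: low is below high. -/
theorem om_ll {xq xy yq yp pq e e1 yp1 : M} (h1 : xq ≤ xy * yq) (h2 : yq ≤ yp * pq)
    (h3 : pq ≤ e) (h4 : e * e1 ≤ 1) (h5 : yp * yp1 ≤ 1) : xq * e1 * yp1 ≤ xy :=
  calc xq * e1 * yp1 ≤ (xy * yq) * e1 * yp1 := by gcongr
    _ ≤ (xy * (yp * pq)) * e1 * yp1 := by gcongr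
    _ ≤ (xy * (yp * e)) * e1 * yp1 := by gcongr
    _ = xy * (yp * (e * e1) * yp1) := by simp only [mul_assoc]
    _ ≤ xy * (yp * 1 * yp1) := by gcongr
    _ = xy * (yp * yp1) := by rw [mul_one]
    _ ≤ xy * 1 := by gcongr
    _ = xy := mul_one _

/-- RR: low is below high. -/
theorem om_rr {qx py xy pq e em qxm qy : M} (h1 : py ≤ pq * qy) (h2 : qy ≤ qx * xy)
    (h3 : pq ≤ e) (h4 : em * e ≤ 1) (h5 : qxm * qx ≤ 1) : qxm * em * py ≤ xy :=
  calc qxm * em * py ≤ qxm * em * (pq * qy) := by gcongr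
    _ ≤ qxm * em * (pq * (qx * xy)) := by gcongr
    _ ≤ qxm * em * (e * (qx * xy)) := by gcongr
    _ = qxm * (em * e) * qx * xy := by simp only [mul_assoc]
    _ ≤ qxm * 1 * qx * xy := by gcongr
    _ = (qxm * qx) * xy := by rw [mul_one]
    _ ≤ 1 * xy := by gcongr
    _ = xy := one_mul _

/-- LR: low is below high. -/
theorem om_lr {xy xp py pq qy e : M} (h1 : xy ≤ xp * py) (h2 : py ≤ pq * qy) (h3 : pq ≤ e) :
    xy ≤ xp * e * qy :=
  calc xy ≤ xp * py := h1
    _ ≤ xp * (pq * qy) := by gcongr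
    _ ≤ xp * (e * qy) := by gcongr
    _ = xp * e * qy := by simp only [mul_assoc]

theorem om_lll_lohi {xq e1 yp1 zp1 zy : M} (h : yp1 ≤ zp1 * zy) :
    xq * e1 * yp1 ≤ (xq * e1 * zp1) * zy :=
  calc xq * e1 * yp1 ≤ xq * e1 * (zp1 * zy) := by gcongr
    _ = (xq * e1 * zp1) * zy := by simp only [mul_assoc]

theorem om_lll_hilo {xq e1 yp1 xz zq : M} (h : xq ≤ xz * zq) :
    xq * e1 * yp1 ≤ xz * (zq * e1 * yp1) :=
  calc xq * e1 * yp1 ≤ (xz * zq) * e1 * yp1 := by gcongr
    _ = xz * (zq * e1 * yp1) := by simp only [mul_assoc]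

theorem om_llr_hihi {xp xz zp e qy : M} (h : xp ≤ xz * zp) :
    xp * e * qy ≤ xz * (zp * e * qy) :=
  calc xp * e * qy ≤ (xz * zp) * e * qy := by gcongr
    _ = xz * (zp * e * qy) := by simp only [mul_assoc]

theorem om_llr_lohi {xy xq qy e1 zp1 zp e : M} (h : xy ≤ xq * qy) (h1 : 1 ≤ zp1 * zp)
    (h2 : 1 ≤ e1 * e) : xy ≤ (xq * e1 * zp1) * (zp * e * qy) :=
  calc xy ≤ xq * qy := h
    _ = xq * 1 * qy := by rw [mul_one]
    _ ≤ xq * (e1 * e) * qy := by gcongr
    _ = xq * e1 * 1 * e * qy := by simp only [mul_assoc, one_mul]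
    _ ≤ xq * e1 * (zp1 * zp) * e * qy := by gcongr
    _ = (xq * e1 * zp1) * (zp * e * qy) := by simp only [mul_assoc]

theorem om_lrr_hihi {xp e qy qz zy : M} (h : qy ≤ qz * zy) :
    xp * e * qy ≤ (xp * e * qz) * zy :=
  calc xp * e * qy ≤ xp * e * (qz * zy) := by gcongr
    _ = (xp * e * qz) * zy := by simp only [mul_assoc]

theorem om_lrr_hilo {xy xp py e em qz qzm : M} (h : xy ≤ xp * py) (h1 : 1 ≤ qz * qzm)
    (h2 : 1 ≤ e * em) : xy ≤ (xp * e * qz) * (qzm * em * py) :=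
  calc xy ≤ xp * py := h
    _ = xp * 1 * py := by rw [mul_one]
    _ ≤ xp * (e * em) * py := by gcongr
    _ = xp * e * 1 * em * py := by simp only [mul_assoc, one_mul]
    _ ≤ xp * e * (qz * qzm) * em * py := by gcongr
    _ = (xp * e * qz) * (qzm * em * py) := by simp only [mul_assoc]

theorem om_rrr_lohi {qxm em py pz zy : M} (h : py ≤ pz * zy) :
    qxm * em * py ≤ (qxm * em * pz) * zy :=
  calc qxm * em * py ≤ qxm * em * (pz * zy) := by gcongr
    _ = (qxm * em * pz) * zy := by simp only [mul_assoc]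

theorem om_rrr_hilo {qxm em py xz qzm : M} (h : qxm ≤ xz * qzm) :
    qxm * em * py ≤ xz * (qzm * em * py) :=
  calc qxm * em * py ≤ (xz * qzm) * em * py := by gcongr
    _ = xz * (qzm * em * py) := by simp only [mul_assoc]

end

/-- Formal words as an ordered monoid. -/
def WD (_Le : FW → FW → Prop) : Type := FreeMonoid (ℕ × ℤ)

instance (Le : FW → FW → Prop) : Monoid (WD Le) :=
  inferInstanceAs (Monoid (FreeMonoid (ℕ × ℤ)))

class LeC (Le : FW → FW → Prop) : Prop where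
  ax : LeAx Le

def toWD (Le : FW → FW → Prop) (c : FW) : WD Le := c
def ofWD {Le : FW → FW → Prop} (c : WD Le) : FW := c

instance (Le : FW → FW → Prop) [LeC Le] : Preorder (WD Le) where
  le a b := Le (ofWD a) (ofWD b)
  le_refl a := (LeC.ax (Le := Le)).refl _
  le_trans a b c h1 h2 := (LeC.ax (Le := Le)).trans _ _ _ h1 h2

instance (Le : FW → FW → Prop) [LeC Le] : MulLeftMono (WD Le) where
  elim _ _ _ h := (LeC.ax (Le := Le)).app _ _ _ _ ((LeC.ax (Le := Le)).refl _) h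

instance (Le : FW → FW → Prop) [LeC Le] : MulRightMono (WD Le) where
  elim _ _ _ h := (LeC.ax (Le := Le)).app _ _ _ _ h ((LeC.ax (Le := Le)).refl _)

section
variable {Le : FW → FW → Prop} [LeC Le]

theorem wd_le {a b : FW} : toWD Le a ≤ toWD Le b ↔ Le a b := Iff.rfl

theorem wd_mul (a b : FW) : toWD Le (a ++ b) = toWD Le a * toWD Le b := rfl

theorem wd_one : toWD Le [] = 1 := rfl

theorem adjP_cons (x : ℕ × ℤ) (c : FW) : adjP (x :: c) = adjP c ++ [(x.1, x.2 + 1)] := by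
  simp [adjP]

theorem adjM_cons (x : ℕ × ℤ) (c : FW) : adjM (x :: c) = adjM c ++ [(x.1, x.2 - 1)] := by
  simp [adjM]

theorem cons_eq_app (x : ℕ × ℤ) (c : FW) : x :: c = [x] ++ c := rfl

theorem conP (c : FW) : toWD Le c * toWD Le (adjP c) ≤ 1 := by
  induction c with
  | nil => exact le_refl _
  | cons x c ih =>
    rw [adjP_cons, cons_eq_app x c, wd_mul, wd_mul]
    calc toWD Le [x] * toWD Le c * (toWD Le (adjP c) * toWD Le [(x.1, x.2 + 1)])
        = toWD Le [x] * (toWD Le c * toWD Le (adjP c)) * toWD Le [(x.1, x.2 + 1)] := by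
          simp only [mul_assoc]
      _ ≤ toWD Le [x] * 1 * toWD Le [(x.1, x.2 + 1)] := by gcongr
      _ = toWD Le [x] * toWD Le [(x.1, x.2 + 1)] := by rw [mul_one]
      _ ≤ 1 := (LeC.ax (Le := Le)).con x.1 x.2

theorem expP (c : FW) : 1 ≤ toWD Le (adjP c) * toWD Le c := by
  induction c with
  | nil => exact le_refl _
  | cons x c ih =>
    rw [adjP_cons, cons_eq_app x c, wd_mul, wd_mul]
    calc (1 : WD Le) ≤ toWD Le (adjP c) * toWD Le c := ih
      _ = toWD Le (adjP c) * 1 * toWD Le c := by rw [mul_one]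
      _ ≤ toWD Le (adjP c) * (toWD Le [(x.1, x.2 + 1)] * toWD Le [x]) * toWD Le c := by
          have : (1 : WD Le) ≤ toWD Le [(x.1, x.2 + 1)] * toWD Le [x] :=
            (LeC.ax (Le := Le)).exp x.1 x.2
          gcongr
      _ = _ := by simp only [mul_assoc]

theorem conM (c : FW) : toWD Le (adjM c) * toWD Le c ≤ 1 := by
  induction c with
  | nil => exact le_refl _
  | cons x c ih =>
    rw [adjM_cons, cons_eq_app x c, wd_mul, wd_mul]
    have h1 : toWD Le [(x.1, x.2 - 1)] * toWD Le [x] ≤ 1 := by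
      have := (LeC.ax (Le := Le)).con x.1 (x.2 - 1)
      rw [sub_add_cancel] at this
      exact this
    calc toWD Le (adjM c) * toWD Le [(x.1, x.2 - 1)] * (toWD Le [x] * toWD Le c)
        = toWD Le (adjM c) * (toWD Le [(x.1, x.2 - 1)] * toWD Le [x]) * toWD Le c := by
          simp only [mul_assoc]
      _ ≤ toWD Le (adjM c) * 1 * toWD Le c := by gcongr
      _ = toWD Le (adjM c) * toWD Le c := by rw [mul_one]
      _ ≤ 1 := ih

theorem expM (c : FW) : 1 ≤ toWD Le c * toWD Le (adjM c) := by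
  induction c with
  | nil => exact le_refl _
  | cons x c ih =>
    rw [adjM_cons, cons_eq_app x c, wd_mul, wd_mul]
    have h1 : 1 ≤ toWD Le [x] * toWD Le [(x.1, x.2 - 1)] := by
      have := (LeC.ax (Le := Le)).exp x.1 (x.2 - 1)
      rw [sub_add_cancel] at this
      exact this
    calc (1 : WD Le) ≤ toWD Le [x] * toWD Le [(x.1, x.2 - 1)] := h1
      _ = toWD Le [x] * 1 * toWD Le [(x.1, x.2 - 1)] := by rw [mul_one]
      _ ≤ toWD Le [x] * (toWD Le c * toWD Le (adjM c)) * toWD Le [(x.1, x.2 - 1)] := by gcongr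
      _ = _ := by simp only [mul_assoc]

end

end Pool.Agent.Helper273.GF
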