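import Pool.Agent.Helper273.GF.Reach

/-!
If all words have triangulated gap metrics of bounded width, the language is context-free.
-/

set_option linter.unusedVariables false
set_option linter.unusedSectionVars false

namespace Pool.Agent.Helper273.GF

theorem finite_lists {α : Type*} (s : Set α) (hs : s.Finite) (n : ℕ) :
    {l : List α | l.length ≤ n ∧ ∀ x ∈ l, x ∈ s}.Finite := by
  induction n with
  | zero =>
    refine (Set.finite_singleton []).subset ?_
    rintro l ⟨h1, _⟩
    exact List.length_eq_zero_iff.1 (Nat.le_zero.1 h1)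
  | succ n ih =>
    refine ((Set.finite_singleton []).union (Set.Finite.image2 (fun a l => a :: l) hs ih)).subset ?_
    rintro l ⟨h1, h2⟩
    cases l with
    | nil => exact Or.inl rfl
    | cons a l =>
      refine Or.inr ⟨a, h2 a (by simp), l, ⟨?_, fun x hx => h2 x (by simp [hx])⟩, rfl⟩
      simpa using h1

inductive Good (d : ℕ → ℕ → ℕ) (K : ℕ) : ℕ → ℕ → Prop
  | unit {i : ℕ} : d i (i+1) ≤ K → Good d K i (i+1)
  | join {i l j : ℕ} : i < l → l < j → d i j ≤ K → Good d K i l → Good d K l j → Good d K i j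

theorem Good.lt {d : ℕ → ℕ → ℕ} {K i j : ℕ} (h : Good d K i j) : i < j := by
  induction h with
  | unit _ => omega
  | join h1 h2 _ _ _ _ _ => omega

theorem Good.le {d : ℕ → ℕ → ℕ} {K i j : ℕ} (h : Good d K i j) : d i j ≤ K := by
  cases h with
  | unit h => exact h
  | join _ _ h _ _ => exact h

def seg (y : List ℕ) (i j : ℕ) : List ℕ := (y.drop i).take (j - i)

theorem seg_join (y : List ℕ) {i l j : ℕ} (h1 : i ≤ l) (h2 : l ≤ j) :
    seg y i j = seg y i l ++ seg y l j := by
  unfold seg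
  rw [show j - i = (l - i) + (j - l) by omega, List.take_add, List.drop_drop]
  rw [show i + (l - i) = l by omega]

theorem seg_unit (y : List ℕ) {i : ℕ} (h : i < y.length) : seg y i (i+1) = [y.getD i 0] := by
  unfold seg
  rw [show i + 1 - i = 1 by omega]
  rw [List.drop_eq_getElem_cons h, List.take_succ_cons, List.take_zero,
    List.getD_eq_getElem _ _ h]

theorem cf_of_good (G : Grammar) (Le : FW → FW → Prop) [LeC Le]
    (hLe : ∀ u v, Le (emb u) (emb v) ↔ Der G u v) (K : ℕ) (hK : 1 ≤ K)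
    (hy : ∀ y ∈ G.lang, y ≠ [] → ∃ d c, NS Le (· ∈ G.V) [(G.S, 0)] y d c ∧
      Good d K 0 y.length) :
    ∃ G' : Grammar, G'.IsCF ∧ SameLang G.lang G'.lang := by
  classical
  have ax := LeC.ax (Le := Le)
  let M : ℕ := G.T.sup id + 1
  have hM : ∀ a ∈ G.T, a < M := fun a ha => Nat.lt_succ_of_le (Finset.le_sup (f := id) ha)
  let enc : FW → ℕ := fun c => M + Encodable.encode c
  have enc_ge : ∀ c, M ≤ enc c := fun c => Nat.le_add_right _ _
  have hfin : {c : FW | c.length ≤ K ∧ ∀ x ∈ c, x ∈ (G.V : Set ℕ) ×ˢ (Set.Icc (-(K:ℤ)) K)}.Finite :=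
    finite_lists _ ((G.V.finite_toSet).prod (Set.finite_Icc _ _)) K
  let Nf : Finset FW := hfin.toFinset
  have memN : ∀ c : FW, c ∈ Nf ↔ c.length ≤ K ∧ ∀ x ∈ c, x.1 ∈ G.V ∧ x.2.natAbs ≤ K := by
    intro c
    rw [Set.Finite.mem_toFinset]
    constructor
    · rintro ⟨h1, h2⟩
      refine ⟨h1, fun x hx => ?_⟩
      obtain ⟨h3, h4, h5⟩ := h2 x hx
      exact ⟨h3, by omega⟩
    · rintro ⟨h1, h2⟩
      refine ⟨h1, fun x hx => ?_⟩
      obtain ⟨h3, h4⟩ := h2 x hx
      exact ⟨h3, by constructor <;> omega⟩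
  have SV : G.S ∈ G.V := (Finset.mem_sdiff.1 G.S_mem).1
  have hSN : [(G.S, (0:ℤ))] ∈ Nf := by
    rw [memN]
    refine ⟨hK, fun x hx => ?_⟩
    rw [List.mem_singleton] at hx
    subst hx
    exact ⟨SV, by simp⟩
  let P1 : Finset (List ℕ × List ℕ) := ((Nf ×ˢ Nf ×ˢ Nf).filter
    (fun t => Le t.1 (t.2.1 ++ t.2.2))).image (fun t => ([enc t.1], [enc t.2.1, enc t.2.2]))
  let P2 : Finset (List ℕ × List ℕ) := ((Nf ×ˢ G.T).filter
    (fun t => Le t.1 [(t.2, 0)])).image (fun t => ([enc t.1], [t.2]))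
  let P3 : Finset (List ℕ × List ℕ) := ((Nf ×ˢ Nf).filter
    (fun t => Le t.1 t.2)).image (fun t => ([enc t.1], [enc t.2]))
  have mem1 : ∀ r, r ∈ P1 ↔ ∃ c ∈ Nf, ∃ c1 ∈ Nf, ∃ c2 ∈ Nf, Le c (c1 ++ c2) ∧
      r = ([enc c], [enc c1, enc c2]) := by
    intro r
    simp only [P1, Finset.mem_image, Finset.mem_filter, Finset.mem_product, Prod.exists]
    constructor
    · rintro ⟨c, c1, c2, ⟨⟨h1, h2, h3⟩, h4⟩, h5⟩
      exact ⟨c, h1, c1, h2, c2, h3, h4, h5.symm⟩
    · rintro ⟨c, h1, c1, h2, c2, h3, h4, h5⟩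
      exact ⟨c, c1, c2, ⟨⟨h1, h2, h3⟩, h4⟩, h5.symm⟩
  have mem2 : ∀ r, r ∈ P2 ↔ ∃ c ∈ Nf, ∃ a ∈ G.T, Le c [(a, 0)] ∧ r = ([enc c], [a]) := by
    intro r
    simp only [P2, Finset.mem_image, Finset.mem_filter, Finset.mem_product, Prod.exists]
    constructor
    · rintro ⟨c, a, ⟨⟨h1, h2⟩, h4⟩, h5⟩
      exact ⟨c, h1, a, h2, h4, h5.symm⟩
    · rintro ⟨c, h1, a, h2, h4, h5⟩
      exact ⟨c, a, ⟨⟨h1, h2⟩, h4⟩, h5.symm⟩
  have mem3 : ∀ r, r ∈ P3 ↔ ∃ c ∈ Nf, ∃ c1 ∈ Nf, Le c c1 ∧ r = ([enc c], [enc c1]) := by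
    intro r
    simp only [P3, Finset.mem_image, Finset.mem_filter, Finset.mem_product, Prod.exists]
    constructor
    · rintro ⟨c, a, ⟨⟨h1, h2⟩, h4⟩, h5⟩
      exact ⟨c, h1, a, h2, h4, h5.symm⟩
    · rintro ⟨c, h1, a, h2, h4, h5⟩
      exact ⟨c, a, ⟨⟨h1, h2⟩, h4⟩, h5.symm⟩
  have encV : ∀ c ∈ Nf, enc c ∈ (G.T ∪ Nf.image enc) \ G.T := by
    intro c hc
    rw [Finset.mem_sdiff]
    refine ⟨Finset.mem_union_right _ (Finset.mem_image_of_mem _ hc), fun h => ?_⟩
    have := hM _ h
    have := enc_ge c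
    omega
  have encV' : ∀ c ∈ Nf, enc c ∈ G.T ∪ Nf.image enc := fun c hc =>
    (Finset.mem_sdiff.1 (encV c hc)).1
  have lhsP : ∀ r ∈ P1 ∪ P2 ∪ P3, ∃ c ∈ Nf, r.1 = [enc c] := by
    intro r hr
    rw [Finset.mem_union, Finset.mem_union, mem1, mem2, mem3] at hr
    rcases hr with (⟨c, h, _, _, _, _, _, rfl⟩ | ⟨c, h, _, _, _, rfl⟩) | ⟨c, h, _, _, _, rfl⟩
    all_goals exact ⟨c, h, rfl⟩
  let G' : Grammar :=
    { V := G.T ∪ Nf.image enc
      T := G.T
      P := P1 ∪ P2 ∪ P3
      S := enc [(G.S, 0)]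
      T_sub := Finset.subset_union_left
      S_mem := encV _ hSN
      P_lhs := by
        intro r hr x hx
        obtain ⟨c, h1, h2⟩ := lhsP r hr
        rw [h2, List.mem_singleton] at hx
        rw [hx]
        exact encV' c h1
      P_rhs := by
        intro r hr x hx
        rw [Finset.mem_union, Finset.mem_union, mem1, mem2, mem3] at hr
        rcases hr with (⟨c, _, c1, h1, c2, h2, _, rfl⟩ | ⟨c, _, a, h1, _, rfl⟩) |
          ⟨c, _, c1, h1, _, rfl⟩
        · simp only [List.mem_cons, List.not_mem_nil, or_false] at hx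
          rcases hx with rfl | rfl
          · exact encV' c1 h1
          · exact encV' c2 h2
        · simp only [List.mem_cons, List.not_mem_nil, or_false] at hx
          subst hx
          exact Finset.mem_union_left _ h1
        · simp only [List.mem_cons, List.not_mem_nil, or_false] at hx
          subst hx
          exact encV' c1 h1
      P_nt := by
        intro r hr
        obtain ⟨c, h1, h2⟩ := lhsP r hr
        exact ⟨enc c, by rw [h2]; simp, encV c h1⟩ }
  have hP : G'.P = P1 ∪ P2 ∪ P3 := rfl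
  refine ⟨G', ?_, ?_⟩
  · intro r hr
    obtain ⟨c, h1, h2⟩ := lhsP r hr
    exact ⟨enc c, encV c h1, h2⟩
  -- decoding
  let dec : ℕ → FW := fun x => if x < M then [(x, 0)] else (Encodable.decode (x - M)).getD []
  have dec_enc : ∀ c, dec (enc c) = c := by
    intro c
    show (if enc c < M then [(enc c, (0:ℤ))] else (Encodable.decode (enc c - M)).getD []) = c
    rw [if_neg (by have := enc_ge c; omega)]
    show (Encodable.decode (M + Encodable.encode c - M)).getD [] = c
    rw [Nat.add_sub_cancel_left, Encodable.encodek]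
    rfl
  have dec_T : ∀ a ∈ G.T, dec a = [(a, 0)] := by
    intro a ha
    show (if a < M then [(a, (0:ℤ))] else (Encodable.decode (a - M)).getD []) = _
    rw [if_pos (hM a ha)]
  have dec_emb : ∀ w : List ℕ, (∀ a ∈ w, a ∈ G.T) → w.flatMap dec = emb w := by
    intro w
    induction w with
    | nil => intro _; rfl
    | cons a w ih =>
      intro h
      rw [List.flatMap_cons, dec_T a (h a (by simp)), ih (fun x hx => h x (by simp [hx]))]
      rfl
  have stepLe : ∀ u v, G'.Step u v → Le (u.flatMap dec) (v.flatMap dec) := by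
    rintro u v ⟨r, hr, x, y, rfl, rfl⟩
    simp only [List.flatMap_append]
    refine ax.app _ _ _ _ (ax.app _ _ _ _ (ax.refl _) ?_) (ax.refl _)
    rw [hP, Finset.mem_union, Finset.mem_union, mem1, mem2, mem3] at hr
    rcases hr with (⟨c, _, c1, h1, c2, h2, h, rfl⟩ | ⟨c, _, a, h1, h, rfl⟩) |
      ⟨c, _, c1, h1, h, rfl⟩
    · simpa [dec_enc] using h
    · simpa [dec_enc, dec_T a h1] using h
    · simpa [dec_enc] using h
  have derLe : ∀ u v, Der G' u v → Le (u.flatMap dec) (v.flatMap dec) := by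
    intro u v h
    induction h with
    | refl => exact ax.refl _
    | tail _ h2 ih => exact ax.trans _ _ _ ih (stepLe _ _ h2)
  intro w hw
  constructor
  · intro hmem
    obtain ⟨d, c, hns, hgood⟩ := hy w hmem hw
    have hl : ∀ i j, i ≤ j → j ≤ w.length → d i j ≤ K → c i j ∈ Nf := by
      intro i j h1 h2 h3
      rw [memN]
      have := hns.wd.len i j h1 h2
      refine ⟨by omega, fun x hx => ?_⟩
      obtain ⟨h4, h5⟩ := hns.wd.deg i j h1 h2 x hx
      exact ⟨h4, by omega⟩
    have main : ∀ i j, Good d K i j → j ≤ w.length → Der G' [enc (c i j)] (seg w i j) := by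
      intro i j hg
      induction hg with
      | @unit i h =>
        intro hi
        have e1 : w.getD i 0 ∈ G.T := by
          rw [List.getD_eq_getElem _ _ hi]
          exact hmem.1 _ (List.getElem_mem _)
        rw [seg_unit w hi]
        refine Der.rule (G := G') (r := ([enc (c i (i+1))], [w.getD i 0])) ?_
        rw [hP, Finset.mem_union, Finset.mem_union, mem2]
        exact Or.inl (Or.inr ⟨c i (i+1), hl i (i+1) (by omega) hi h, _, e1, hns.wd.edg i hi, rfl⟩)
      | @join i l j h1 h2 h3 g1 g2 ih1 ih2 =>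
        intro hj
        rw [seg_join w h1.le h2.le]
        have r1 : Der G' [enc (c i j)] [enc (c i l), enc (c l j)] := by
          refine Der.rule (G := G') (r := ([enc (c i j)], [enc (c i l), enc (c l j)])) ?_
          rw [hP, Finset.mem_union, Finset.mem_union, mem1]
          exact Or.inl (Or.inl ⟨c i j, hl i j (by omega) hj h3, c i l,
            hl i l (by omega) (by omega) g1.le, c l j, hl l j (by omega) hj g2.le,
            hns.wd.tri i l j h1.le h2.le hj, rfl⟩)
        exact r1.trans ((ih1 (by omega)).app (ih2 hj))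
    refine ⟨hmem.1, ?_⟩
    have h1 := main 0 w.length hgood le_rfl
    have h2 : seg w 0 w.length = w := by unfold seg; simp
    rw [h2] at h1
    have h3 : Der G' [enc [(G.S, 0)]] [enc (c 0 w.length)] := by
      refine Der.rule (G := G') (r := ([enc [(G.S, 0)]], [enc (c 0 w.length)])) ?_
      rw [hP, Finset.mem_union, Finset.mem_union, mem3]
      exact Or.inr ⟨_, hSN, _, hl 0 w.length (by omega) le_rfl hgood.le, hns.wd.rt, rfl⟩
    exact h3.trans h1
  · rintro ⟨h1, h2⟩
    refine ⟨h1, ?_⟩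
    have h3 := derLe _ _ h2
    rw [dec_emb w h1] at h3
    have h4 : ([G'.S] : List ℕ).flatMap dec = emb [G.S] := by
      show ([enc [(G.S, 0)]] : List ℕ).flatMap dec = emb [G.S]
      simp [dec_enc, emb]
    rw [h4, hLe] at h3
    exact h3

end Pool.Agent.Helper273.GF
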