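import Pool.Agent.Helper273.GF.Met

/-!
The effect of one rewriting step on gap metrics and gap words.
-/

set_option linter.unusedVariables false
set_option linter.unusedSectionVars false

namespace Pool.Agent.Helper273.GF

theorem Kal.pull {n : ℕ} {d : ℕ → ℕ → ℕ} (h : Kal n d) (n' : ℕ) (σ : ℕ → ℕ)
    (hm : ∀ i j, i ≤ j → j ≤ n' → σ i ≤ σ j) (hn : ∀ i, i ≤ n' → σ i ≤ n) :
    Kal n' (fun i j => d (σ i) (σ j)) where
  diag i := h.diag _
  symm i j := h.symm _ _
  k1 a b c e h1 h2 h3 h4 := h.k1 _ _ _ _ (hm _ _ h1 (by omega)) (hm _ _ h2 (by omega))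
    (hm _ _ h3 h4) (hn _ h4)
  k2 a b c e h1 h2 h3 h4 := h.k2 _ _ _ _ (hm _ _ h1 (by omega)) (hm _ _ h2 (by omega))
    (hm _ _ h3 h4) (hn _ h4)

theorem Wd.pull {Le : FW → FW → Prop} {Sy : ℕ → Prop} {n : ℕ} {d : ℕ → ℕ → ℕ}
    {c : ℕ → ℕ → FW} {edge : ℕ → FW} {root : FW} (w : Wd Le Sy n d c edge root)
    (n' : ℕ) (σ : ℕ → ℕ) (edge' : ℕ → FW)
    (hm : ∀ i j, i ≤ j → j ≤ n' → σ i ≤ σ j) (hn : ∀ i, i ≤ n' → σ i ≤ n)
    (he : ∀ i, i < n' → Le (c (σ i) (σ (i+1))) (edge' i))
    (hr : Le root (c (σ 0) (σ n'))) :
    Wd Le Sy n' (fun i j => d (σ i) (σ j)) (fun i j => c (σ i) (σ j)) edge' root where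
  len i j h1 h2 := w.len _ _ (hm _ _ h1 h2) (hn _ h2)
  deg i j h1 h2 := w.deg _ _ (hm _ _ h1 h2) (hn _ h2)
  tri i l j h1 h2 h3 := w.tri _ _ _ (hm _ _ h1 (by omega)) (hm _ _ h2 h3) (hn _ h3)
  edg := he
  rt := hr

def pendS (p : ℕ) : ℕ → ℕ := fun i => if i ≤ p then i else i - 1

def pendD (d : ℕ → ℕ → ℕ) (p : ℕ) : ℕ → ℕ → ℕ := fun i j =>
  d (pendS p i) (pendS p j) + (if (i = p + 1) ↔ (j = p + 1) then 0 else 1)

def pendC (c : ℕ → ℕ → FW) (p s : ℕ) : ℕ → ℕ → FW := fun i j =>
  if i = p + 1 ∧ j = p + 1 then [] else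
  if j = p + 1 then c i p ++ [(s, 0)] else
  if i = p + 1 then (s, -1) :: c p (j - 1) else c (pendS p i) (pendS p j)

theorem pendS_mono (p : ℕ) {i j : ℕ} (h : i ≤ j) : pendS p i ≤ pendS p j := by
  unfold pendS; split_ifs <;> omega

theorem Kal.pend {n : ℕ} {d : ℕ → ℕ → ℕ} (h : Kal n d) (p : ℕ) (hp : p + 1 ≤ n) :
    Kal (n + 1) (pendD d p) where
  diag i := by
    unfold pendD
    rw [h.diag, if_pos Iff.rfl]
  symm i j := by
    unfold pendD
    rw [h.symm (pendS p i)]
    congr 1
    by_cases h1 : i = p + 1 <;> by_cases h2 : j = p + 1 <;> simp [h1, h2]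
  k1 a b c e h1 h2 h3 h4 := by
    have hn : pendS p e ≤ n := by unfold pendS; split_ifs <;> omega
    have k := h.k1 _ _ _ _ (pendS_mono p h1) (pendS_mono p h2) (pendS_mono p h3) hn
    unfold pendD
    by_cases c1 : a = p + 1 <;> by_cases c2 : b = p + 1 <;> by_cases c3 : c = p + 1 <;>
      by_cases c4 : e = p + 1 <;> simp only [c1, c2, c3, c4, iff_true, iff_false,
        not_true, if_true, if_false, iff_self] <;> first | omega | (simp only [c1, c2, c3, c4] at k; omega)
  k2 a b c e h1 h2 h3 h4 := by
    have hn : pendS p e ≤ n := by unfold pendS; split_ifs <;> omega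
    have k := h.k2 _ _ _ _ (pendS_mono p h1) (pendS_mono p h2) (pendS_mono p h3) hn
    unfold pendD
    by_cases c1 : a = p + 1 <;> by_cases c2 : b = p + 1 <;> by_cases c3 : c = p + 1 <;>
      by_cases c4 : e = p + 1 <;> simp only [c1, c2, c3, c4, iff_true, iff_false,
        not_true, if_true, if_false, iff_self] <;> first | omega | (simp only [c1, c2, c3, c4] at k; omega)

section
variable {Le : FW → FW → Prop} [LeC Le] {Sy : ℕ → Prop} {n : ℕ} {d : ℕ → ℕ → ℕ}
  {c : ℕ → ℕ → FW} {edge : ℕ → FW} {root : FW}

theorem Wd.nil (h : Kal n d) (w : Wd Le Sy n d c edge root) {i : ℕ} (hi : i ≤ n) :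
    c i i = [] := by
  have := w.len i i le_rfl hi
  rw [h.diag] at this
  exact List.length_eq_zero_iff.1 this

theorem Wd.pend (h : Kal n d) (w : Wd Le Sy n d c edge root) (p s : ℕ) (hp : p + 1 ≤ n)
    (hpos : ∀ i j, i < j → j ≤ n → 1 ≤ d i j) (hS : Sy s) (E : FW)
    (he : Le (c p (p+1)) ((s, 0) :: E)) :
    Wd Le Sy (n+1) (pendD d p) (pendC c p s)
      (fun i => if i < p then edge i else if i = p then [(s, 0)] else if i = p + 1 then E
        else edge (i - 1)) root := by
  have hdg := h.diag
  have hnil : ∀ i, i ≤ n → c i i = [] := fun i hi => w.nil h hi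
  have s1 : ∀ i, i ≤ p → pendS p i = i := fun i hi => by unfold pendS; rw [if_pos hi]
  have s2 : ∀ i, p + 1 ≤ i → pendS p i = i - 1 := fun i hi => by
    unfold pendS; rw [if_neg (by omega)]
  have sn : ∀ i, i ≤ n + 1 → pendS p i ≤ n := fun i hi => by
    unfold pendS; split_ifs <;> omega
  have cmm : pendC c p s (p+1) (p+1) = [] := by unfold pendC; rw [if_pos ⟨rfl, rfl⟩]
  have cxm : ∀ i, i ≤ p → pendC c p s i (p+1) = c i p ++ [(s, 0)] := fun i hi => by
    unfold pendC; rw [if_neg (by omega), if_pos rfl]
  have cmx : ∀ j, p + 2 ≤ j → pendC c p s (p+1) j = (s, -1) :: c p (j-1) := fun j hj => by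
    unfold pendC; rw [if_neg (by omega), if_neg (by omega), if_pos rfl]
  have cxx : ∀ i j, i ≠ p + 1 → j ≠ p + 1 → pendC c p s i j = c (pendS p i) (pendS p j) :=
    fun i j hi hj => by
      unfold pendC; rw [if_neg (by omega), if_neg hj, if_neg hi]
  refine ⟨?_, ?_, ?_, ?_, ?_⟩
  · intro i j hij hj
    by_cases c1 : i = p + 1
    · subst c1
      by_cases c2 : j = p + 1
      · subst c2
        rw [cmm]; unfold pendD; rw [hdg]; simp
      · rw [cmx j (by omega)]
        unfold pendD
        rw [s2 _ le_rfl, s2 j (by omega), List.length_cons, w.len p (j-1) (by omega) (by omega)]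
        simp [c2]
    · by_cases c2 : j = p + 1
      · subst c2
        rw [cxm i (by omega)]
        unfold pendD
        rw [s2 _ le_rfl, s1 i (by omega), List.length_append, w.len i p (by omega) (by omega)]
        simp [c1]
      · rw [cxx i j c1 c2, w.len _ _ (pendS_mono p hij) (sn j hj)]
        unfold pendD
        simp [c1, c2]
  · intro i j hij hj x hx
    by_cases c1 : i = p + 1
    · subst c1
      by_cases c2 : j = p + 1
      · subst c2
        rw [cmm] at hx
        exact absurd hx List.not_mem_nil
      · rw [cmx j (by omega)] at hx ⊢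
        have l1 := w.len p (j-1) (by omega) (by omega)
        have q1 := hpos p (j-1) (by omega) (by omega)
        rw [List.length_cons]
        rcases List.mem_cons.1 hx with rfl | hx
        · refine ⟨hS, ?_⟩
          show Int.natAbs (-1) < _
          have : Int.natAbs (-1) = 1 := rfl
          omega
        · have := w.deg p (j-1) (by omega) (by omega) x hx
          exact ⟨this.1, by omega⟩
    · by_cases c2 : j = p + 1
      · subst c2
        rw [cxm i (by omega)] at hx ⊢
        rw [List.length_append]
        rcases List.mem_append.1 hx with hx | hx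
        · have := w.deg i p (by omega) (by omega) x hx
          exact ⟨this.1, by omega⟩
        · rw [List.mem_singleton] at hx
          subst hx
          refine ⟨hS, ?_⟩
          show Int.natAbs 0 < _
          simp
      · rw [cxx i j c1 c2] at hx ⊢
        exact w.deg _ _ (pendS_mono p hij) (sn j hj) x hx
  · intro x z y hxz hzy hy
    show toWD Le (pendC c p s x y) ≤ toWD Le (pendC c p s x z) * toWD Le (pendC c p s z y)
    by_cases c1 : z = p + 1
    · subst c1
      by_cases c2 : x = p + 1
      · subst c2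
        rw [cmm, wd_one, one_mul]
      · by_cases c3 : y = p + 1
        · subst c3
          rw [cmm, wd_one, mul_one]
        · rw [cxm x (by omega), cmx y (by omega), cxx x y c2 c3, s1 x (by omega), s2 y (by omega)]
          have e1 : (1 : WD Le) ≤ toWD Le [(s, 0)] * toWD Le [(s, -1)] := by
            have := (LeC.ax (Le := Le)).exp s (-1)
            rw [show (-1 : ℤ) + 1 = 0 by norm_num] at this
            exact this
          have e2 := w.tri' (show x ≤ p by omega) (show p ≤ y - 1 by omega)
            (show y - 1 ≤ n by omega)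
          rw [wd_mul, cons_eq_app (s, -1), wd_mul]
          calc toWD Le (c x (y-1)) ≤ toWD Le (c x p) * toWD Le (c p (y-1)) := e2
            _ = toWD Le (c x p) * 1 * toWD Le (c p (y-1)) := by rw [mul_one]
            _ ≤ toWD Le (c x p) * (toWD Le [(s, 0)] * toWD Le [(s, -1)]) * toWD Le (c p (y-1)) := by
                gcongr
            _ = _ := by simp only [mul_assoc]
    · by_cases c2 : x = p + 1
      · subst c2
        rw [cmx y (by omega), cmx z (by omega), cxx z y c1 (by omega), s2 z (by omega),
          s2 y (by omega), cons_eq_app (s, -1) (c p (y-1)), cons_eq_app (s, -1) (c p (z-1)),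
          wd_mul, wd_mul, mul_assoc]
        have e2 := w.tri' (show p ≤ z - 1 by omega) (show z - 1 ≤ y - 1 by omega)
            (show y - 1 ≤ n by omega)
        gcongr
      · by_cases c3 : y = p + 1
        · subst c3
          rw [cxm x (by omega), cxm z (by omega), cxx x z c2 c1, s1 x (by omega),
            s1 z (by omega), wd_mul, wd_mul, ← mul_assoc]
          have e2 := w.tri' hxz (show z ≤ p by omega) (show p ≤ n by omega)
          gcongr
        · rw [cxx x y c2 c3, cxx x z c2 c1, cxx z y c1 c3]
          exact w.tri' (pendS_mono p hxz) (pendS_mono p hzy) (sn y hy)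
  · intro i hi
    show toWD Le (pendC c p s i (i+1)) ≤ toWD Le (if i < p then edge i else
      if i = p then [(s, 0)] else if i = p + 1 then E else edge (i - 1))
    rcases lt_trichotomy i p with g | g | g
    · rw [if_pos g, cxx i (i+1) (by omega) (by omega), s1 i (by omega), s1 (i+1) (by omega)]
      exact w.edg i (by omega)
    · subst g
      rw [if_neg (by omega), if_pos rfl, cxm i le_rfl, hnil i (by omega), List.nil_append]
    · rw [if_neg (by omega), if_neg (by omega)]
      by_cases g2 : i = p + 1
      · subst g2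
        rw [if_pos rfl, cmx (p+1+1) (by omega)]
        show toWD Le ((s, -1) :: c p (p+1)) ≤ toWD Le E
        have e1 : toWD Le [(s, -1)] * toWD Le [(s, 0)] ≤ 1 := by
          have := (LeC.ax (Le := Le)).con s (-1)
          rw [show (-1 : ℤ) + 1 = 0 by norm_num] at this
          exact this
        have e2 : toWD Le (c p (p+1)) ≤ toWD Le [(s, 0)] * toWD Le E := he
        rw [cons_eq_app (s, -1), wd_mul]
        calc toWD Le [(s, -1)] * toWD Le (c p (p+1))
            ≤ toWD Le [(s, -1)] * (toWD Le [(s, 0)] * toWD Le E) := by gcongr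
          _ = (toWD Le [(s, -1)] * toWD Le [(s, 0)]) * toWD Le E := by rw [mul_assoc]
          _ ≤ 1 * toWD Le E := by gcongr
          _ = toWD Le E := one_mul _
      · rw [if_neg g2, cxx i (i+1) (by omega) (by omega), s2 i (by omega), s2 (i+1) (by omega)]
        have := w.edg (i-1) (by omega)
        rw [show i - 1 + 1 = i by omega] at this
        rw [show i + 1 - 1 = i by omega]
        exact this
  · rw [cxx 0 (n+1) (by omega) (by omega), s1 0 (by omega), s2 (n+1) (by omega)]
    exact w.rt

end

/-- Integer heights on gaps that do not increase distances. -/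
def Lip (n : ℕ) (d : ℕ → ℕ → ℕ) (H : ℕ → ℕ) : Prop :=
  ∀ i j, i ≤ n → j ≤ n → H i ≤ H j + d i j

/-- Heights can be transferred back, keeping the `p+1` leftmost and `r+1` rightmost gaps. -/
def Transfer (p r n : ℕ) (d : ℕ → ℕ → ℕ) (n' : ℕ) (d' : ℕ → ℕ → ℕ) : Prop :=
  ∀ H', Lip n' d' H' → ∃ H, Lip n d H ∧ (∀ i, i ≤ p → H i = H' i) ∧
    (∀ k, k ≤ r → H (n - k) = H' (n' - k))

theorem Transfer.comp {p r n n1 n2 : ℕ} {d d1 d2 : ℕ → ℕ → ℕ} (h1 : Transfer p r n d n1 d1)
    (h2 : Transfer p r n1 d1 n2 d2) : Transfer p r n d n2 d2 := by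
  intro H2 hH2
  obtain ⟨H1, a1, a2, a3⟩ := h2 H2 hH2
  obtain ⟨H, b1, b2, b3⟩ := h1 H1 a1
  exact ⟨H, b1, fun i hi => (b2 i hi).trans (a2 i hi), fun k hk => (b3 k hk).trans (a3 k hk)⟩

theorem Transfer.weak {p p' r r' n n1 : ℕ} {d d1 : ℕ → ℕ → ℕ} (h1 : Transfer p r n d n1 d1)
    (hp : p' ≤ p) (hr : r' ≤ r) : Transfer p' r' n d n1 d1 := by
  intro H1 hH1
  obtain ⟨H, b1, b2, b3⟩ := h1 H1 hH1
  exact ⟨H, b1, fun i hi => b2 i (by omega), fun k hk => b3 k (by omega)⟩

/-- McShane extension. -/
theorem transfer_pull {n : ℕ} {d : ℕ → ℕ → ℕ} (h : Kal n d) (p r a : ℕ) (ha : 1 ≤ a)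
    (hn : n = p + a + r) :
    Transfer p r n d (p + 1 + r)
      (fun i j => d (if i ≤ p then i else i + (a - 1)) (if j ≤ p then j else j + (a - 1))) := by
  intro H' hH'
  set σ : ℕ → ℕ := fun i => if i ≤ p then i else i + (a - 1) with hσ
  have hσn : ∀ i, i ≤ p + 1 + r → σ i ≤ n := by
    intro i hi
    show (if i ≤ p then i else i + (a - 1)) ≤ n
    split_ifs <;> omega
  have hne : (Finset.range (p + 1 + r + 1)).Nonempty := ⟨0, by simp⟩
  let H : ℕ → ℕ := fun z => (Finset.range (p + 1 + r + 1)).inf' hne (fun i => H' i + d (σ i) z)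
  have hle : ∀ z i, i ≤ p + 1 + r → H z ≤ H' i + d (σ i) z := by
    intro z i hi
    exact Finset.inf'_le _ (by simp; omega)
  have hex : ∀ z, ∃ i, i ≤ p + 1 + r ∧ H z = H' i + d (σ i) z := by
    intro z
    obtain ⟨i, hi, he⟩ := Finset.exists_mem_eq_inf' hne (fun i => H' i + d (σ i) z)
    exact ⟨i, by simp at hi; omega, he⟩
  have heq : ∀ j, j ≤ p + 1 + r → H (σ j) = H' j := by
    intro j hj
    apply le_antisymm
    · have := hle (σ j) j hj
      rw [h.diag] at this
      exact this
    · obtain ⟨i, hi, he⟩ := hex (σ j)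
      rw [he]
      have h1 : H' j ≤ H' i + d (σ j) (σ i) := hH' j i hj hi
      rw [h.symm] at h1
      exact h1
  refine ⟨H, ?_, ?_, ?_⟩
  · intro x y hx hy
    obtain ⟨i, hi, he⟩ := hex y
    have h1 := hle x i hi
    have h2 := h.tri (σ i) x y (hσn i hi) hx hy
    have h3 := h.symm x y
    omega
  · intro i hi
    have := heq i (by omega)
    rw [hσ] at this
    simp only [if_pos hi] at this
    exact this
  · intro k hk
    have := heq (p + 1 + r - k) (by omega)
    rw [hσ] at this
    simp only [if_neg (show ¬ (p + 1 + r - k ≤ p) by omega)] at this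
    rw [← this]
    congr 1
    omega

theorem transfer_pend {n : ℕ} {d : ℕ → ℕ → ℕ} (p r : ℕ) (hn : n = p + 1 + r) :
    Transfer p r n d (n + 1) (pendD d p) := by
  intro H' hH'
  refine ⟨fun i => H' (if i ≤ p then i else i + 1), ?_, ?_, ?_⟩
  · intro x y hx hy
    have h1 := hH' (if x ≤ p then x else x + 1) (if y ≤ p then y else y + 1)
      (by split_ifs <;> omega) (by split_ifs <;> omega)
    have h2 : pendD d p (if x ≤ p then x else x + 1) (if y ≤ p then y else y + 1) = d x y := by
      have hS : ∀ x, pendS p (if x ≤ p then x else x + 1) = x := by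
        intro x
        unfold pendS
        by_cases h : x ≤ p
        · simp [h]
        · simp only [if_neg h]
          rw [if_neg (by omega)]
          omega
      unfold pendD
      have e1 : ¬ ((if x ≤ p then x else x + 1) = p + 1) := by split_ifs <;> omega
      have e2 : ¬ ((if y ≤ p then y else y + 1) = p + 1) := by split_ifs <;> omega
      rw [hS, hS, if_pos (iff_of_false e1 e2), Nat.add_zero]
    rw [h2] at h1
    exact h1
  · intro i hi
    simp only [if_pos hi]
  · intro k hk
    simp only [if_neg (show ¬ (n - k ≤ p) by omega)]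
    congr 1
    omega

theorem transfer_merge {n : ℕ} {d : ℕ → ℕ → ℕ} (h : Kal n d) (p r : ℕ) (hn : n = p + 1 + r) :
    Transfer p r n d (p + r) (fun i j => shortD d p 0 (if i ≤ p then i else i + 1)
      (if j ≤ p then j else j + 1)) := by
  intro H' hH'
  refine ⟨fun i => H' (if i ≤ p then i else i - 1), ?_, ?_, ?_⟩
  · intro x y hx hy
    have h1 := hH' (if x ≤ p then x else x - 1) (if y ≤ p then y else y - 1)
      (by split_ifs <;> omega) (by split_ifs <;> omega)
    refine le_trans h1 (Nat.add_le_add_left ?_ _)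
    have key : ∀ x, (if (if x ≤ p then x else x - 1) ≤ p then (if x ≤ p then x else x - 1)
        else (if x ≤ p then x else x - 1) + 1) = if x = p + 1 then p else x := by
      intro x; split_ifs <;> omega
    simp only [key]
    by_cases c1 : x = p + 1
    · by_cases c2 : y = p + 1
      · rw [if_pos c1, if_pos c2, c1, c2]
        have := shortD_le d p 0 p p
        rw [h.diag] at this
        rw [h.diag]
        exact this
      · rw [if_pos c1, if_neg c2, c1]
        have := shortD_le1 d p 0 p y
        rw [h.diag] at this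
        omega
    · by_cases c2 : y = p + 1
      · rw [if_neg c1, if_pos c2, c2]
        have := shortD_le2 d p 0 x p
        rw [h.diag] at this
        omega
      · rw [if_neg c1, if_neg c2]
        exact shortD_le d p 0 x y
  · intro i hi
    simp only [if_pos hi]
  · intro k hk
    simp only [if_neg (show ¬ (n - k ≤ p) by omega)]
    congr 1
    omega

def edgeW (w : List ℕ) : ℕ → FW := fun i => [(w.getD i 0, 0)]

def blockEdge (u : List ℕ) (b : FW) (v : List ℕ) : ℕ → FW := fun i =>
  if i < u.length then [(u.getD i 0, 0)] else if i = u.length then b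
  else [(v.getD (i - u.length - 1) 0, 0)]

structure NS (Le : FW → FW → Prop) (Sy : ℕ → Prop) (root : FW) (w : List ℕ)
    (d : ℕ → ℕ → ℕ) (c : ℕ → ℕ → FW) : Prop where
  kal : Kal w.length d
  wd : Wd Le Sy w.length d c (edgeW w) root
  pos : ∀ i j, i < j → j ≤ w.length → 1 ≤ d i j
  uni : ∀ i, i < w.length → d i (i+1) ≤ 1
  out : d 0 w.length ≤ 1

structure BS (Le : FW → FW → Prop) (Sy : ℕ → Prop) (root : FW) (u : List ℕ) (b : FW)
    (v : List ℕ) (d : ℕ → ℕ → ℕ) (c : ℕ → ℕ → FW) : Prop where
  kal : Kal (u.length + 1 + v.length) d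
  wd : Wd Le Sy (u.length + 1 + v.length) d c (blockEdge u b v) root
  pos : ∀ i j, i < j → j ≤ u.length + 1 + v.length → 1 ≤ d i j
  uni : ∀ i, i < u.length + 1 + v.length → i ≠ u.length → d i (i+1) ≤ 1
  out : d 0 (u.length + 1 + v.length) ≤ 1

section
variable {Le : FW → FW → Prop} [LeC Le] {Sy : ℕ → Prop} {root : FW}

theorem Wd.congr {n : ℕ} {d : ℕ → ℕ → ℕ} {c : ℕ → ℕ → FW} {edge edge' : ℕ → FW}
    (w : Wd Le Sy n d c edge root) (h : ∀ i, i < n → edge i = edge' i) :
    Wd Le Sy n d c edge' root where
  len := w.len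
  deg := w.deg
  tri := w.tri
  edg i hi := by rw [← h i hi]; exact w.edg i hi
  rt := w.rt

theorem merge_step {u v : List ℕ} {d : ℕ → ℕ → ℕ} {c : ℕ → ℕ → FW}
    (h : BS Le Sy root u [] v d c) : ∃ d' c', NS Le Sy root (u ++ v) d' c' ∧
      Transfer u.length v.length (u.length + 1 + v.length) d (u.length + v.length) d' := by
  set p := u.length with hpdef
  set r := v.length with hrdef
  have hlen : (u ++ v).length = p + r := List.length_append
  have hp : p + 1 ≤ p + 1 + r := by omega
  have he0 : Le (c p (p+1)) [] := by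
    have := h.wd.edg p (by omega)
    unfold blockEdge at this
    rw [if_neg (by omega), if_pos hpdef] at this
    exact this
  have K1 := h.kal.short p 0 hp
  have W1 := h.wd.short h.kal p [] hp h.pos he0 (by simp) (by simp)
  set d1 := shortD d p 0 with hd1
  set c1 := shortC d c p [] with hc1
  have hl0 : shortD d p ([] : FW).length = d1 := rfl
  rw [hl0] at W1
  have z1 : d1 p (p+1) = 0 := by
    have := shortD_le1 d p 0 p (p+1)
    rw [h.kal.diag, h.kal.diag] at this
    have h0 : d1 p (p+1) ≤ 0 + 0 + 0 := this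
    omega
  let σ : ℕ → ℕ := fun i => if i ≤ p then i else i + 1
  have s1 : ∀ i, i ≤ p → σ i = i := fun i hi => if_pos hi
  have s2 : ∀ i, p < i → σ i = i + 1 := fun i hi => if_neg (by omega)
  have sm : ∀ i j, i ≤ j → j ≤ p + r → σ i ≤ σ j := by
    intro i j hij _
    show (if i ≤ p then i else i + 1) ≤ (if j ≤ p then j else j + 1)
    split_ifs <;> omega
  have sn : ∀ i, i ≤ p + r → σ i ≤ p + 1 + r := by
    intro i hi
    show (if i ≤ p then i else i + 1) ≤ _
    split_ifs <;> omega
  have T1 := fun x y z hx hy hz => K1.tri x y z hx hy hz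
  refine ⟨fun i j => d1 (σ i) (σ j), fun i j => c1 (σ i) (σ j), ⟨?_, ?_, ?_, ?_, ?_⟩,
    transfer_merge h.kal p r rfl⟩
  · rw [hlen]; exact K1.pull _ σ sm sn
  · rw [hlen]
    refine W1.pull _ σ _ sm sn ?_ ?_
    · intro i hi
      show toWD Le (c1 (σ i) (σ (i+1))) ≤ toWD Le (edgeW (u ++ v) i)
      rcases lt_trichotomy i p with g | g | g
      · rw [s1 i (by omega), s1 (i+1) (by omega)]
        have h1 : toWD Le (c1 i (i+1)) ≤ toWD Le (if i = p then [] else blockEdge u [] v i) :=
          W1.edg i (by omega)
        refine le_trans h1 (le_of_eq ?_)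
        rw [if_neg (by omega)]
        unfold blockEdge edgeW
        rw [if_pos g, List.getD_append _ _ _ _ g]
      · rw [g, s1 p le_rfl, s2 (p+1) (by omega)]
        have t := W1.tri' (show p ≤ p + 1 by omega) (show p + 1 ≤ p + 1 + 1 by omega)
          (show p + 1 + 1 ≤ p + 1 + r by omega)
        have h1 : toWD Le (c1 p (p+1)) ≤ toWD Le (if p = p then [] else blockEdge u [] v p) :=
          W1.edg p (by omega)
        rw [if_pos rfl] at h1
        have h2 : toWD Le (c1 (p+1) (p+1+1)) ≤ toWD Le (if p+1 = p then [] else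
          blockEdge u [] v (p+1)) := W1.edg (p+1) (by omega)
        rw [if_neg (by omega)] at h2
        have e : blockEdge u [] v (p+1) = edgeW (u ++ v) p := by
          unfold blockEdge edgeW
          rw [if_neg (by omega), if_neg (by omega), List.getD_append_right _ _ _ _ (by omega)]
          congr 3
          omega
        rw [e] at h2
        calc toWD Le (c1 p (p+1+1)) ≤ toWD Le (c1 p (p+1)) * toWD Le (c1 (p+1) (p+1+1)) := t
          _ ≤ toWD Le [] * toWD Le (edgeW (u ++ v) p) := by gcongr
          _ = toWD Le (edgeW (u ++ v) p) := by rw [wd_one, one_mul]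
      · rw [s2 i g, s2 (i+1) (by omega)]
        have h2 : toWD Le (c1 (i+1) (i+1+1)) ≤ toWD Le (if i+1 = p then [] else
          blockEdge u [] v (i+1)) := W1.edg (i+1) (by omega)
        rw [if_neg (by omega)] at h2
        refine le_trans h2 (le_of_eq ?_)
        unfold blockEdge edgeW
        rw [if_neg (by omega), if_neg (by omega), List.getD_append_right _ _ _ _ (by omega)]
        congr 4
        omega
    · show toWD Le root ≤ toWD Le (c1 (σ 0) (σ (p + r)))
      have h0 : toWD Le root ≤ toWD Le (c1 0 (p + 1 + r)) := W1.rt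
      rw [s1 0 (by omega)]
      by_cases g : r = 0
      · rw [s1 (p + r) (by omega)]
        have t := W1.tri' (show 0 ≤ p by omega) (show p ≤ p + 1 by omega)
          (show p + 1 ≤ p + 1 + r by omega)
        have h1 : toWD Le (c1 p (p+1)) ≤ toWD Le (if p = p then [] else blockEdge u [] v p) :=
          W1.edg p (by omega)
        rw [if_pos rfl] at h1
        rw [g, Nat.add_zero] at h0 ⊢
        calc toWD Le root ≤ toWD Le (c1 0 (p+1)) := h0
          _ ≤ toWD Le (c1 0 p) * toWD Le (c1 p (p+1)) := t
          _ ≤ toWD Le (c1 0 p) * toWD Le [] := by gcongr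
          _ = toWD Le (c1 0 p) := by rw [wd_one, mul_one]
      · rw [s2 (p + r) (by omega), show p + r + 1 = p + 1 + r by omega]
        exact h0
  · intro i j hij hj
    rw [hlen] at hj
    have hσ : σ i < σ j := by
      show (if i ≤ p then i else i + 1) < (if j ≤ p then j else j + 1)
      split_ifs <;> omega
    have hi' : σ i ≠ p + 1 := by
      show (if i ≤ p then i else i + 1) ≠ p + 1
      split_ifs <;> omega
    have hj' : σ j ≠ p + 1 := by
      show (if j ≤ p then j else j + 1) ≠ p + 1
      split_ifs <;> omega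
    have hjn := sn j hj
    show 1 ≤ shortD d p 0 (σ i) (σ j)
    rcases shortD_cases d p 0 (σ i) (σ j) with e | e | e
    · rw [e]; exact h.pos _ _ hσ hjn
    · rw [e]
      rcases lt_trichotomy (σ j) (p+1) with g | g | g
      · have := h.pos (σ j) (p+1) g (by omega)
        rw [h.kal.symm] at this
        omega
      · exact absurd g hj'
      · have := h.pos (p+1) (σ j) g hjn
        omega
    · rw [e]
      rcases lt_trichotomy (σ i) (p+1) with g | g | g
      · have := h.pos (σ i) (p+1) g (by omega)
        omega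
      · exact absurd g hi'
      · have := h.pos (p+1) (σ i) g (by omega)
        rw [h.kal.symm] at this
        omega
  · intro i hi
    rw [hlen] at hi
    show d1 (σ i) (σ (i+1)) ≤ 1
    rcases lt_trichotomy i p with g | g | g
    · rw [s1 i (by omega), s1 (i+1) (by omega)]
      exact le_trans (shortD_le _ _ _ _ _) (h.uni i (by omega) (by omega))
    · rw [g, s1 p le_rfl, s2 (p+1) (by omega)]
      have t := T1 p (p+1+1) (p+1) (by omega) (by omega) (by omega)
      have h2 : d1 (p+1) (p+1+1) ≤ 1 :=
        le_trans (shortD_le _ _ _ _ _) (h.uni (p+1) (by omega) (by omega))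
      omega
    · rw [s2 i g, s2 (i+1) (by omega)]
      exact le_trans (shortD_le _ _ _ _ _) (h.uni (i+1) (by omega) (by omega))
  · rw [hlen]
    show d1 (σ 0) (σ (p + r)) ≤ 1
    have h0 : d1 0 (p + 1 + r) ≤ 1 := le_trans (shortD_le _ _ _ _ _) h.out
    rw [s1 0 (by omega)]
    by_cases g : r = 0
    · rw [s1 (p + r) (by omega)]
      have t := T1 0 p (p+1) (by omega) (by omega) (by omega)
      have sy := K1.symm p (p+1)
      rw [g, Nat.add_zero] at h0 ⊢
      omega
    · rw [s2 (p + r) (by omega), show p + r + 1 = p + 1 + r by omega]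
      exact h0

theorem pend_step {u v : List ℕ} {s : ℕ} {E : FW} {d : ℕ → ℕ → ℕ} {c : ℕ → ℕ → FW}
    (h : BS Le Sy root u ((s, 0) :: E) v d c) (hS : Sy s) :
    BS Le Sy root (u ++ [s]) E v (pendD d u.length) (pendC c u.length s) := by
  set p := u.length with hpdef
  set r := v.length with hrdef
  have hlen : (u ++ [s]).length = p + 1 := by simp [hpdef]
  have hp : p + 1 ≤ p + 1 + r := by omega
  have he0 : Le (c p (p+1)) ((s, 0) :: E) := by
    have := h.wd.edg p (by omega)
    unfold blockEdge at this
    rw [if_neg (by omega), if_pos hpdef] at this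
    exact this
  have s1 : ∀ i, i ≤ p → pendS p i = i := fun i hi => by unfold pendS; rw [if_pos hi]
  have s2 : ∀ i, p + 1 ≤ i → pendS p i = i - 1 := fun i hi => by
    unfold pendS; rw [if_neg (by omega)]
  have d_old : ∀ i j, i ≠ p + 1 → j ≠ p + 1 → pendD d p i j = d (pendS p i) (pendS p j) := by
    intro i j hi hj
    unfold pendD
    rw [if_pos (by tauto), Nat.add_zero]
  have hN : (u ++ [s]).length + 1 + v.length = p + 1 + r + 1 := by rw [hlen]; omega
  refine ⟨?_, ?_, ?_, ?_, ?_⟩
  · rw [hN]; exact h.kal.pend p hp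
  · rw [hN]
    refine (h.wd.pend h.kal p s hp h.pos hS E he0).congr ?_
    intro i hi
    unfold blockEdge
    rw [hlen]
    rcases lt_trichotomy i p with g | g | g
    · rw [if_pos g, if_pos (by omega), if_pos (by omega), List.getD_append _ _ _ _ (by omega)]
    · rw [if_neg (by omega), if_pos g, if_pos (by omega), List.getD_append_right _ _ _ _ (by omega)]
      simp [g, hpdef]
    · rw [if_neg (by omega), if_neg (by omega), if_neg (show ¬ i < p + 1 by omega)]
      by_cases g2 : i = p + 1
      · rw [if_pos g2, if_pos g2]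
      · rw [if_neg g2, if_neg g2, if_neg (by omega), if_neg (by omega)]
        congr 4
        omega
  · intro i j hij hj
    rw [hN] at hj
    by_cases c1 : i = p + 1
    · unfold pendD
      rw [if_neg (by omega)]
      omega
    · by_cases c2 : j = p + 1
      · unfold pendD
        rw [if_neg (by omega)]
        omega
      · rw [d_old i j c1 c2]
        apply h.pos
        · unfold pendS; split_ifs <;> omega
        · unfold pendS; split_ifs <;> omega
  · intro i hi hne
    rw [hN] at hi
    rw [hlen] at hne
    rcases lt_trichotomy i p with g | g | g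
    · rw [d_old _ _ (by omega) (by omega), s1 i (by omega), s1 (i+1) (by omega)]
      exact h.uni i (by omega) (by omega)
    · rw [g]
      unfold pendD
      rw [s1 p le_rfl, s2 (p+1) (by omega), show p + 1 - 1 = p by omega, h.kal.diag]
      split_ifs <;> omega
    · rw [d_old _ _ (by omega) (by omega), s2 i (by omega), s2 (i+1) (by omega)]
      have := h.uni (i-1) (by omega) (by omega)
      rw [show i - 1 + 1 = i + 1 - 1 by omega] at this
      exact this
  · rw [hN, d_old _ _ (by omega) (by omega), s1 0 (by omega), s2 _ (by omega)]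
    exact h.out

theorem ins_step (v : List ℕ) : ∀ (β u : List ℕ) (d : ℕ → ℕ → ℕ) (c : ℕ → ℕ → FW),
    (∀ x ∈ β, Sy x) → BS Le Sy root u (emb β) v d c →
    ∃ d' c', NS Le Sy root (u ++ β ++ v) d' c' ∧
      Transfer u.length v.length (u.length + 1 + v.length) d
        (u.length + β.length + v.length) d' := by
  intro β
  induction β with
  | nil =>
    intro u d c _ h
    have := merge_step h
    simpa using this
  | cons s β ih =>
    intro u d c hS h
    have h1 := pend_step h (hS s (by simp))
    obtain ⟨d', c', h2, h3⟩ := ih (u ++ [s]) _ _ (fun x hx => hS x (by simp [hx])) h1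
    refine ⟨d', c', by simpa using h2, ?_⟩
    have e1 : (u ++ [s]).length = u.length + 1 := by simp
    rw [e1] at h3
    have h4 : Transfer u.length v.length (u.length + 1 + v.length) d
        (u.length + 1 + v.length + 1) (pendD d u.length) := transfer_pend _ _ rfl
    have h5 := h3.weak (show u.length ≤ u.length + 1 by omega) (le_refl v.length)
    rw [show u.length + 1 + 1 + v.length = u.length + 1 + v.length + 1 by omega] at h5
    rw [show u.length + 1 + β.length + v.length = u.length + (s :: β).length + v.length by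
      simp; omega] at h5
    exact h4.comp h5

theorem seg_le {n : ℕ} {d : ℕ → ℕ → ℕ} {c : ℕ → ℕ → FW} (hk : Kal n d) (w : List ℕ)
    (hw : Wd Le Sy n d c (edgeW w) root) (hn : n = w.length) :
    ∀ (α u v : List ℕ), w = u ++ α ++ v → Le (c u.length (u.length + α.length)) (emb α) := by
  intro α
  induction α with
  | nil =>
    intro u v hw2
    have hl : u.length ≤ n := by rw [hn, hw2]; simp
    rw [List.length_nil, Nat.add_zero, hw.nil hk hl]
    exact (LeC.ax (Le := Le)).refl _
  | cons s α ih =>
    intro u v hw2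
    have hl : n = u.length + (α.length + 1) + v.length := by rw [hn, hw2]; simp; ring
    have h1 := ih (u ++ [s]) v (by simp [hw2])
    rw [show (u ++ [s]).length = u.length + 1 by simp] at h1
    have h2 : Le (c u.length (u.length + 1)) (edgeW w u.length) := hw.edg _ (by omega)
    have h3 : edgeW w u.length = [(s, 0)] := by
      unfold edgeW
      rw [hw2]
      simp
    rw [h3] at h2
    have h4 := hw.tri u.length (u.length + 1) (u.length + (s :: α).length) (by omega)
      (by simp) (by simp; omega)
    refine (LeC.ax (Le := Le)).trans _ _ _ h4 ?_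
    rw [show u.length + (s :: α).length = u.length + 1 + α.length by simp; ring]
    exact (LeC.ax (Le := Le)).app _ _ _ _ h2 h1

theorem rule_step {u α v β : List ℕ} {d : ℕ → ℕ → ℕ} {c : ℕ → ℕ → FW}
    (h : NS Le Sy root (u ++ α ++ v) d c) (hα : α ≠ []) (hS : ∀ x ∈ β, Sy x)
    (hr : Le (emb α) (emb β)) :
    ∃ d' c', NS Le Sy root (u ++ β ++ v) d' c' ∧
      Transfer u.length v.length (u.length + α.length + v.length) d
        (u.length + β.length + v.length) d' := by
  set p := u.length with hpdef
  set r := v.length with hrdef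
  set a := α.length with hadef
  have ha : 1 ≤ a := List.length_pos_iff.2 hα
  have hlen : (u ++ α ++ v).length = p + a + r := by simp [hpdef, hrdef, hadef]; ring
  have hseg := seg_le h.kal (u ++ α ++ v) h.wd rfl α u v rfl
  let σ : ℕ → ℕ := fun i => if i ≤ p then i else i + (a - 1)
  have s1 : ∀ i, i ≤ p → σ i = i := fun i hi => if_pos hi
  have s2 : ∀ i, p < i → σ i = i + (a - 1) := fun i hi => if_neg (by omega)
  have sm : ∀ i j, i ≤ j → j ≤ p + 1 + r → σ i ≤ σ j := by
    intro i j hij _
    show (if i ≤ p then i else i + (a - 1)) ≤ (if j ≤ p then j else j + (a - 1))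
    split_ifs <;> omega
  have sn : ∀ i, i ≤ p + 1 + r → σ i ≤ (u ++ α ++ v).length := by
    intro i hi
    rw [hlen]
    show (if i ≤ p then i else i + (a - 1)) ≤ _
    split_ifs <;> omega
  have hB : BS Le Sy root u (emb β) v (fun i j => d (σ i) (σ j)) (fun i j => c (σ i) (σ j)) := by
    refine ⟨h.kal.pull _ σ sm sn, h.wd.pull _ σ _ sm sn ?_ ?_, ?_, ?_, ?_⟩
    · intro i hi
      unfold blockEdge
      rcases lt_trichotomy i p with g | g | g
      · rw [s1 i (by omega), s1 (i+1) (by omega), if_pos g]
        have := h.wd.edg i (by rw [hlen]; omega)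
        unfold edgeW at this
        rw [List.append_assoc, List.getD_append _ _ _ _ g] at this
        exact this
      · rw [s1 i (by omega), s2 (i+1) (by omega), if_neg (by omega), if_pos g, g]
        rw [show p + 1 + (a - 1) = p + a by omega]
        exact (LeC.ax (Le := Le)).trans _ _ _ hseg hr
      · rw [s2 i (by omega), s2 (i+1) (by omega), if_neg (by omega), if_neg (by omega)]
        have := h.wd.edg (i + (a - 1)) (by rw [hlen]; omega)
        unfold edgeW at this
        rw [List.getD_append_right _ _ _ _ (by simp; omega)] at this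
        rw [show i + 1 + (a - 1) = i + (a - 1) + 1 by omega]
        rw [show i + (a - 1) - (u ++ α).length = i - u.length - 1 by simp; omega] at this
        exact this
    · rw [s1 0 (by omega), s2 (p + 1 + r) (by omega)]
      have := h.wd.rt
      rw [hlen] at this
      rw [show p + 1 + r + (a - 1) = p + a + r by omega]
      exact this
    · intro i j hij hj
      apply h.pos
      · show (if i ≤ p then i else i + (a - 1)) < (if j ≤ p then j else j + (a - 1))
        split_ifs <;> omega
      · exact sn j hj
    · intro i hi hne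
      show d (σ i) (σ (i+1)) ≤ 1
      rcases lt_trichotomy i p with g | g | g
      · rw [s1 i (by omega), s1 (i+1) (by omega)]
        exact h.uni i (by rw [hlen]; omega)
      · exact absurd g hne
      · rw [s2 i (by omega), s2 (i+1) (by omega)]
        have := h.uni (i + (a-1)) (by rw [hlen]; omega)
        rw [show i + 1 + (a - 1) = i + (a - 1) + 1 by omega]
        exact this
    · show d (σ 0) (σ (p + 1 + r)) ≤ 1
      rw [s1 0 (by omega), s2 (p + 1 + r) (by omega), show p + 1 + r + (a - 1) = p + a + r by omega]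
      have := h.out
      rw [hlen] at this
      exact this
  obtain ⟨d', c', h1, h2⟩ := ins_step v β u _ _ hS hB
  refine ⟨d', c', h1, ?_⟩
  have hk := h.kal
  rw [hlen] at hk
  exact (transfer_pull hk p r a ha rfl).comp h2

end

end Pool.Agent.Helper273.GF
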