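import Pool.Agent.Helper273.GF.Defs
import Pool.Agent.Helper273.GF.Ops

/-!
Every derivable word has a gap metric with gap words.
-/

set_option linter.unusedVariables false
set_option linter.unusedSectionVars false

namespace Pool.Agent.Helper273.GF

def Der (G : Grammar) (u v : List ℕ) : Prop := Relation.ReflTransGen G.Step u v

theorem Step.ctx {G : Grammar} {u v : List ℕ} (h : G.Step u v) (a b : List ℕ) :
    G.Step (a ++ u ++ b) (a ++ v ++ b) := by
  obtain ⟨r, hr, x, y, rfl, rfl⟩ := h
  exact ⟨r, hr, a ++ x, y ++ b, by simp, by simp⟩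

theorem Der.ctx {G : Grammar} {u v : List ℕ} (h : Der G u v) (a b : List ℕ) :
    Der G (a ++ u ++ b) (a ++ v ++ b) := by
  induction h with
  | refl => exact Relation.ReflTransGen.refl
  | tail _ h2 ih => exact ih.tail (Step.ctx h2 a b)

theorem Der.refl {G : Grammar} (u : List ℕ) : Der G u u := Relation.ReflTransGen.refl

theorem Der.trans {G : Grammar} {u v w : List ℕ} (h1 : Der G u v) (h2 : Der G v w) :
    Der G u w := Relation.ReflTransGen.trans h1 h2

theorem Der.app {G : Grammar} {a b c d : List ℕ} (h1 : Der G a b) (h2 : Der G c d) :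
    Der G (a ++ c) (b ++ d) := by
  have e1 := h1.ctx [] c
  have e2 := h2.ctx b []
  simp only [List.nil_append, List.append_nil] at e1 e2
  exact e1.trans e2

theorem Der.rule {G : Grammar} {r} (hr : r ∈ G.P) : Der G r.1 r.2 :=
  Relation.ReflTransGen.single ⟨r, hr, [], [], by simp, by simp⟩

theorem exists_Le_grammar (G : Grammar) : ∃ Le : FW → FW → Prop, LeAx Le ∧
    ∀ u v, Le (emb u) (emb v) ↔ Der G u v :=
  exists_Le (Der G) Der.refl (fun _ _ _ => Der.trans) (fun _ _ _ _ => Der.app)

inductive DM (G : Grammar) : List ℕ → (ℕ → ℕ → ℕ) → Prop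
  | start : DM G [G.S] (fun i j => if i = j then 0 else 1)
  | step {u v α β : List ℕ} {d d' : ℕ → ℕ → ℕ} : (α, β) ∈ G.P → DM G (u ++ α ++ v) d →
      Transfer u.length v.length (u.length + α.length + v.length) d
        (u.length + β.length + v.length) d' →
      (∀ i j, d' i j = d' j i) → (∀ i, i < u.length + β.length + v.length → d' i (i+1) ≤ 1) →
      d' 0 (u.length + β.length + v.length) ≤ 1 → DM G (u ++ β ++ v) d'

theorem DM.uni {G : Grammar} {w : List ℕ} {d : ℕ → ℕ → ℕ} (h : DM G w d) :
    (∀ i, i < w.length → d i (i+1) ≤ 1) ∧ d 0 w.length ≤ 1 := by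
  cases h with
  | start =>
    constructor
    · intro i _
      dsimp only
      split_ifs <;> omega
    · dsimp only
      split_ifs <;> omega
  | step _ _ _ _ h1 h2 =>
    constructor
    · intro i hi
      apply h1
      simp at hi
      omega
    · simp only [List.length_append]
      exact h2

theorem DM.symm {G : Grammar} {w : List ℕ} {d : ℕ → ℕ → ℕ} (h : DM G w d) (i j : ℕ) :
    d i j = d j i := by
  cases h with
  | start =>
    by_cases h : i = j
    · simp [h]
    · simp [h, Ne.symm h]
  | step _ _ _ h1 _ _ => exact h1 i j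

theorem kal_start : Kal 1 (fun i j => if i = j then 0 else 1) where
  diag i := by simp
  symm i j := by
    by_cases h : i = j
    · simp [h]
    · simp [h, Ne.symm h]
  k1 a b c e h1 h2 h3 h4 := by
    split_ifs <;> omega
  k2 a b c e h1 h2 h3 h4 := by
    split_ifs <;> omega

section
variable {Le : FW → FW → Prop} [LeC Le]

theorem ns_start (Sy : ℕ → Prop) (s : ℕ) (hs : Sy s) :
    NS Le Sy [(s, 0)] [s] (fun i j => if i = j then 0 else 1)
      (fun i j => if i = j then [] else [(s, 0)]) where
  kal := kal_start
  wd := {
    len := by intro i j _ _; split_ifs <;> rfl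
    deg := by
      intro i j _ _ x hx
      split_ifs at hx ⊢ with g
      · exact absurd hx List.not_mem_nil
      · rw [List.mem_singleton] at hx
        subst hx
        exact ⟨hs, by simp⟩
    tri := by
      intro i l j h1 h2 h3
      simp only [List.length_singleton] at h3
      by_cases g : i = j
      · have : i = l := by omega
        subst this
        subst g
        simp only [if_true]
        exact (LeC.ax (Le := Le)).refl _
      · by_cases g2 : i = l
        · subst g2
          rw [if_neg g, if_pos rfl]
          exact (LeC.ax (Le := Le)).refl _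
        · have : l = j := by omega
          subst this
          rw [if_neg g, if_pos rfl]
          exact (LeC.ax (Le := Le)).refl _
    edg := by
      intro i hi
      simp only [List.length_singleton] at hi
      have : i = 0 := by omega
      subst this
      exact (LeC.ax (Le := Le)).refl _
    rt := (LeC.ax (Le := Le)).refl _ }
  pos := by
    intro i j h1 _
    rw [if_neg (by omega)]
  uni := by
    intro i _
    split_ifs <;> omega
  out := by
    split_ifs <;> omega

theorem reach (G : Grammar) (hLe : ∀ r ∈ G.P, Le (emb r.1) (emb r.2)) (w : List ℕ)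
    (h : Der G [G.S] w) : ∃ d c, NS Le (· ∈ G.V) [(G.S, 0)] w d c ∧ DM G w d := by
  have key : ∀ s w, s = [G.S] → Der G s w →
      ∃ d c, NS Le (· ∈ G.V) [(G.S, 0)] w d c ∧ DM G w d := by
    intro s w hs h
    induction h with
    | refl =>
      subst hs
      exact ⟨_, _, ns_start _ _ (Finset.mem_sdiff.1 G.S_mem).1, DM.start⟩
    | tail _ h2 ih =>
      obtain ⟨d, c, h3, h4⟩ := ih
      obtain ⟨r, hr, x, y, rfl, rfl⟩ := h2
      have hne : r.1 ≠ [] := by
        obtain ⟨z, hz, _⟩ := G.P_nt r hr
        exact List.ne_nil_of_mem hz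
      obtain ⟨d', c', h5, h6⟩ := rule_step h3 hne (fun z hz => G.P_rhs r hr z hz) (hLe r hr)
      have hl : (x ++ r.2 ++ y).length = x.length + r.2.length + y.length := by simp; ring
      have hu := h5.uni
      have ho := h5.out
      rw [hl] at hu ho
      exact ⟨d', c', h5, DM.step hr h4 h6 h5.kal.symm hu ho⟩
  exact key _ w rfl h

end

end Pool.Agent.Helper273.GF
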