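import Pool.Agent.Helper273.GF.Lab
import Pool.Agent.Helper273.GF.Reach

/-!
The control system of a type-0 grammar.
-/

set_option linter.unusedVariables false
set_option linter.unusedSectionVars false

namespace Pool.Agent.Helper273.GF

/-! Positive words in a free group. -/

def PW (D : List ℕ) : FreeGroup ℕ := (D.map FreeGroup.of).prod
def IW (R : List ℕ) : FreeGroup ℕ := (R.map fun s => (FreeGroup.of s)⁻¹).prod

theorem PW_cons (a : ℕ) (D : List ℕ) : PW (a :: D) = FreeGroup.of a * PW D := by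
  unfold PW; rw [List.map_cons, List.prod_cons]
theorem PW_app (D E : List ℕ) : PW (D ++ E) = PW D * PW E := by
  unfold PW; rw [List.map_append, List.prod_append]
theorem PW_nil : PW [] = 1 := rfl

theorem PW_mk (D : List ℕ) : PW D = FreeGroup.mk (D.map fun s => (s, true)) := by
  induction D with
  | nil => rfl
  | cons a D ih =>
    rw [PW_cons, ih]
    rfl

theorem PW_reduce (D : List ℕ) :
    FreeGroup.reduce (D.map fun s => (s, true)) = D.map fun s => (s, true) := by
  induction D with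
  | nil => rfl
  | cons a D ih =>
    rw [List.map_cons, FreeGroup.reduce.cons, ih]
    cases D with
    | nil => rfl
    | cons b D => simp

theorem PW_inj {D E : List ℕ} (h : PW D = PW E) : D = E := by
  rw [PW_mk, PW_mk] at h
  have h1 := congrArg FreeGroup.toWord h
  rw [FreeGroup.toWord_mk, FreeGroup.toWord_mk, PW_reduce, PW_reduce] at h1
  have inj : Function.Injective (fun s : ℕ => (s, true)) := by
    intro a b hab
    exact (Prod.mk.inj hab).1
  exact List.map_injective_iff.2 inj h1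

section
variable (G : Grammar)

def fr : ℕ := G.V.sup id + 1

theorem fr_notin {a : ℕ} (h : a ∈ G.V) : a ≠ fr G := by
  have : a ≤ G.V.sup id := Finset.le_sup (f := id) h
  unfold fr
  omega

def V1 : Finset ℕ := insert (fr G) G.V
def dl1 : Finset Dl := insert none ((V1 G ×ˢ Finset.univ).map ⟨some, Option.some_injective _⟩)
def out1 : Finset (Option ℕ) := insert none (G.T.map ⟨some, Option.some_injective _⟩)
def Ops : Finset Op := out1 G ×ˢ dl1 G ×ˢ dl1 G
def KK : ℕ := G.P.sup (fun r => r.1.length + r.2.length) + 2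

def cp (s : ℕ) : Op := (none, some (s, true), some (s, true))
def w1 (s : ℕ) : Op := (none, some (s, true), none)
def w2 (s : ℕ) : Op := (none, none, some (s, true))
def wo (s : ℕ) : Op := (some s, none, some (s, true))
def rt (s : ℕ) : Op := (none, some (s, false), some (s, false))
def idl : Op := (none, none, none)
def mac (r : List ℕ × List ℕ) : List Op := r.2.map w1 ++ r.1.map w2

inductive TrP : Trn → Prop
  | pend (o : Op) (r : List Op) : TrP ((0, o :: r), o, (0, r))
  | copy (s : ℕ) : s ∈ V1 G → TrP ((0, []), cp s, (0, []))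
  | rule (r : List ℕ × List ℕ) : r ∈ G.P → TrP ((0, []), idl, (0, mac r))
  | switch : TrP ((0, []), idl, (1, []))
  | out (a : ℕ) : a ∈ G.T → TrP ((1, []), wo a, (1, []))
  | fin : TrP ((1, []), w2 (fr G), (2, []))
  | ret (s : ℕ) : s ∈ V1 G → TrP ((2, []), rt s, (2, []))

theorem st_finite : {q : Qs | q.1 ∈ Set.Iio 3 ∧ q.2.length ≤ KK G ∧ ∀ o ∈ q.2,
    o ∈ (Ops G : Set Op)}.Finite := by
  have h1 := (Set.finite_Iio 3).prod (finite_lists _ (Ops G).finite_toSet (KK G))
  refine h1.subset ?_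
  intro q hq
  exact ⟨hq.1, hq.2⟩

noncomputable def StF : Finset Qs := (st_finite G).toFinset

theorem mem_StF (q : Qs) : q ∈ StF G ↔ q.1 < 3 ∧ q.2.length ≤ KK G ∧ ∀ o ∈ q.2, o ∈ Ops G := by
  unfold StF
  rw [Set.Finite.mem_toFinset]
  rfl

noncomputable instance decTrP : DecidablePred (TrP G) := fun _ => Classical.propDecidable _

noncomputable def TrF : Finset Trn := (StF G ×ˢ Ops G ×ˢ StF G).filter (TrP G)

theorem mem_TrF (t : Trn) : t ∈ TrF G ↔ (t.1 ∈ StF G ∧ t.2.1 ∈ Ops G ∧ t.2.2 ∈ StF G) ∧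
    TrP G t := by
  unfold TrF
  rw [Finset.mem_filter, Finset.mem_product, Finset.mem_product]

theorem none_dl1 : (none : Dl) ∈ dl1 G := Finset.mem_insert_self _ _
theorem some_dl1 {s : ℕ} (h : s ∈ V1 G) (b : Bool) : (some (s, b) : Dl) ∈ dl1 G := by
  unfold dl1
  simp [h]
theorem none_out1 : (none : Option ℕ) ∈ out1 G := Finset.mem_insert_self _ _
theorem some_out1 {s : ℕ} : (some s : Option ℕ) ∈ out1 G ↔ s ∈ G.T := by
  unfold out1
  simp

theorem mem_Ops {o : Option ℕ} {a b : Dl} (h1 : o ∈ out1 G) (h2 : a ∈ dl1 G) (h3 : b ∈ dl1 G) :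
    ((o, a, b) : Op) ∈ Ops G := by
  unfold Ops
  rw [Finset.mem_product, Finset.mem_product]
  exact ⟨h1, h2, h3⟩

theorem V1_of {a : ℕ} (h : a ∈ G.V) : a ∈ V1 G := Finset.mem_insert_of_mem h
theorem fr_V1 : fr G ∈ V1 G := Finset.mem_insert_self _ _

theorem cp_Ops {s : ℕ} (h : s ∈ V1 G) : cp s ∈ Ops G :=
  mem_Ops G (none_out1 G) (some_dl1 G h _) (some_dl1 G h _)
theorem w1_Ops {s : ℕ} (h : s ∈ V1 G) : w1 s ∈ Ops G :=
  mem_Ops G (none_out1 G) (some_dl1 G h _) (none_dl1 G)
theorem w2_Ops {s : ℕ} (h : s ∈ V1 G) : w2 s ∈ Ops G :=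
  mem_Ops G (none_out1 G) (none_dl1 G) (some_dl1 G h _)
theorem wo_Ops {s : ℕ} (h : s ∈ G.T) : wo s ∈ Ops G :=
  mem_Ops G ((some_out1 G).2 h) (none_dl1 G) (some_dl1 G (V1_of G (G.T_sub h)) _)
theorem rt_Ops {s : ℕ} (h : s ∈ V1 G) : rt s ∈ Ops G :=
  mem_Ops G (none_out1 G) (some_dl1 G h _) (some_dl1 G h _)
theorem idl_Ops : idl ∈ Ops G := mem_Ops G (none_out1 G) (none_dl1 G) (none_dl1 G)

def iniM : List Op := [w1 G.S, w1 (fr G)]

theorem S_V : G.S ∈ G.V := (Finset.mem_sdiff.1 G.S_mem).1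

theorem qs_St : ((0, iniM G) : Qs) ∈ StF G := by
  rw [mem_StF]
  refine ⟨by norm_num, ?_, ?_⟩
  · show 2 ≤ KK G
    unfold KK
    omega
  · intro o ho
    have ho' : o ∈ [w1 G.S, w1 (fr G)] := ho
    simp only [List.mem_cons, List.not_mem_nil, or_false] at ho'
    rcases ho' with rfl | rfl
    · exact w1_Ops G (V1_of G (S_V G))
    · exact w1_Ops G (fr_V1 G)

theorem nil_St (m : ℕ) (h : m < 3) : ((m, []) : Qs) ∈ StF G := by
  rw [mem_StF]
  exact ⟨h, by simp, by simp⟩

theorem mac_St {r : List ℕ × List ℕ} (hr : r ∈ G.P) : ((0, mac r) : Qs) ∈ StF G := by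
  rw [mem_StF]
  refine ⟨by norm_num, ?_, ?_⟩
  · show (mac r).length ≤ KK G
    unfold KK mac
    have := Finset.le_sup (f := fun r : List ℕ × List ℕ => r.1.length + r.2.length) hr
    simp only [List.length_append, List.length_map]
    omega
  · intro o ho
    have ho' : o ∈ r.2.map w1 ++ r.1.map w2 := ho
    rw [List.mem_append, List.mem_map, List.mem_map] at ho'
    rcases ho' with ⟨s, h1, rfl⟩ | ⟨s, h1, rfl⟩
    · exact w1_Ops G (V1_of G (G.P_rhs r hr s h1))
    · exact w2_Ops G (V1_of G (G.P_lhs r hr s h1))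

noncomputable def ctl : Ctl where
  Tr := TrF G
  St := StF G
  qs := (0, iniM G)
  qf := (2, [])
  De := V1 G
  O := G.T
  hqs := qs_St G
  hqf := nil_St G 2 (by norm_num)
  hTr := by
    intro t ht
    rw [mem_TrF] at ht
    exact ⟨ht.1.1, ht.1.2.2⟩
  hO := by
    intro t ht o ho
    rw [mem_TrF] at ht
    have h1 := ht.1.2.1
    unfold Ops at h1
    rw [Finset.mem_product] at h1
    have h2 : t.2.1.1 = some o := ho
    have h3 := h1.1
    rw [h2] at h3
    exact (some_out1 G).1 h3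

end

end Pool.Agent.Helper273.GF
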