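import Pool.Agent.Helper273.GF.Ctrl

/-!
Soundness of the control system of a type-0 grammar.
-/

set_option linter.unusedVariables false
set_option linter.unusedSectionVars false

namespace Pool.Agent.Helper273.GF

theorem gp1_cons (o : Op) (l : List Op) : gp1 (o :: l) = val o.2.1 * gp1 l := by
  unfold gp1; rw [List.map_cons, List.prod_cons]
theorem gp2_cons (o : Op) (l : List Op) : gp2 (o :: l) = val o.2.2 * gp2 l := by
  unfold gp2; rw [List.map_cons, List.prod_cons]
theorem gp1_app (l m : List Op) : gp1 (l ++ m) = gp1 l * gp1 m := by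
  unfold gp1; rw [List.map_append, List.prod_append]
theorem gp2_app (l m : List Op) : gp2 (l ++ m) = gp2 l * gp2 m := by
  unfold gp2; rw [List.map_append, List.prod_append]
theorem outp_app (l m : List Op) : outp (l ++ m) = outp l ++ outp m := by
  unfold outp; rw [List.filterMap_append]
theorem outp_cons (o : Op) (l : List Op) : outp (o :: l) = o.1.toList ++ outp l := by
  unfold outp
  cases ho : o.1 with
  | none => simp [ho]
  | some a => simp [ho]

theorem gp1_w1 (m : List ℕ) : gp1 (m.map w1) = PW m := by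
  induction m with
  | nil => rfl
  | cons a m ih => rw [List.map_cons, gp1_cons, ih, PW_cons]; rfl
theorem gp2_w1 (m : List ℕ) : gp2 (m.map w1) = 1 := by
  induction m with
  | nil => rfl
  | cons a m ih => rw [List.map_cons, gp2_cons, ih]; simp [w1, val]
theorem outp_w1 (m : List ℕ) : outp (m.map w1) = [] := by
  induction m with
  | nil => rfl
  | cons a m ih => rw [List.map_cons, outp_cons, ih]; rfl
theorem gp1_w2 (m : List ℕ) : gp1 (m.map w2) = 1 := by
  induction m with
  | nil => rfl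
  | cons a m ih => rw [List.map_cons, gp1_cons, ih]; simp [w2, val]
theorem gp2_w2 (m : List ℕ) : gp2 (m.map w2) = PW m := by
  induction m with
  | nil => rfl
  | cons a m ih => rw [List.map_cons, gp2_cons, ih, PW_cons]; rfl
theorem outp_w2 (m : List ℕ) : outp (m.map w2) = [] := by
  induction m with
  | nil => rfl
  | cons a m ih => rw [List.map_cons, outp_cons, ih]; rfl
theorem gp1_wo (m : List ℕ) : gp1 (m.map wo) = 1 := by
  induction m with
  | nil => rfl
  | cons a m ih => rw [List.map_cons, gp1_cons, ih]; simp [wo, val]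
theorem gp2_wo (m : List ℕ) : gp2 (m.map wo) = PW m := by
  induction m with
  | nil => rfl
  | cons a m ih => rw [List.map_cons, gp2_cons, ih, PW_cons]; rfl
theorem outp_wo (m : List ℕ) : outp (m.map wo) = m := by
  induction m with
  | nil => rfl
  | cons a m ih => rw [List.map_cons, outp_cons, ih]; rfl
theorem gp1_rt (m : List ℕ) : gp1 (m.map rt) = IW m := by
  induction m with
  | nil => rfl
  | cons a m ih =>
    rw [List.map_cons, gp1_cons, ih]
    unfold IW
    rw [List.map_cons, List.prod_cons]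
    rfl
theorem gp2_rt (m : List ℕ) : gp2 (m.map rt) = IW m := by
  induction m with
  | nil => rfl
  | cons a m ih =>
    rw [List.map_cons, gp2_cons, ih]
    unfold IW
    rw [List.map_cons, List.prod_cons]
    rfl
theorem outp_rt (m : List ℕ) : outp (m.map rt) = [] := by
  induction m with
  | nil => rfl
  | cons a m ih => rw [List.map_cons, outp_cons, ih]; rfl

theorem Path.inv {Tr : Finset Trn} {q q' : Qs} {l : List Op} (h : Path Tr q l q') :
    (l = [] ∧ q = q') ∨ ∃ o l' q1, l = o :: l' ∧ (q, o, q1) ∈ Tr ∧ Path Tr q1 l' q' := by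
  cases h with
  | nil => exact Or.inl ⟨rfl, rfl⟩
  | cons h1 h2 => exact Or.inr ⟨_, _, _, rfl, h1, h2⟩

theorem Path.app {Tr : Finset Trn} {q q' q'' : Qs} {l m : List Op} (h : Path Tr q l q')
    (h2 : Path Tr q' m q'') : Path Tr q (l ++ m) q'' := by
  induction h with
  | nil => exact h2
  | cons h0 _ ih => exact Path.cons h0 (ih h2)

section
variable {G : Grammar}

theorem TrP.inv {t : Trn} (h : TrP G t) :
    (∃ o r, t = ((0, o :: r), o, (0, r))) ∨ (∃ s ∈ V1 G, t = ((0, []), cp s, (0, []))) ∨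
    (∃ r ∈ G.P, t = ((0, []), idl, (0, mac r))) ∨ t = ((0, []), idl, (1, [])) ∨
    (∃ a ∈ G.T, t = ((1, []), wo a, (1, []))) ∨ t = ((1, []), w2 (fr G), (2, [])) ∨
    (∃ s ∈ V1 G, t = ((2, []), rt s, (2, []))) := by
  cases h with
  | pend o r => exact Or.inl ⟨o, r, rfl⟩
  | copy s hs => exact Or.inr (Or.inl ⟨s, hs, rfl⟩)
  | rule r hr => exact Or.inr (Or.inr (Or.inl ⟨r, hr, rfl⟩))
  | switch => exact Or.inr (Or.inr (Or.inr (Or.inl rfl)))
  | out a ha => exact Or.inr (Or.inr (Or.inr (Or.inr (Or.inl ⟨a, ha, rfl⟩))))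
  | fin => exact Or.inr (Or.inr (Or.inr (Or.inr (Or.inr (Or.inl rfl)))))
  | ret s hs => exact Or.inr (Or.inr (Or.inr (Or.inr (Or.inr (Or.inr ⟨s, hs, rfl⟩)))))

theorem pend_path (m : List Op) : ∀ {l : List Op}, Path (TrF G) (0, m) l (2, []) →
    ∃ l', l = m ++ l' ∧ Path (TrF G) (0, []) l' (2, []) := by
  induction m with
  | nil => intro l h; exact ⟨l, rfl, h⟩
  | cons o r ih =>
    intro l h
    rcases h.inv with ⟨_, h2⟩ | ⟨o', l', q1, rfl, h2, h3⟩
    · simp at h2
    · have h4 := ((mem_TrF G _).1 h2).2.inv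
      simp only [Prod.mk.injEq, List.cons.injEq, true_and] at h4
      rcases h4 with ⟨o2, r2, ⟨rfl, rfl⟩, h5, h6⟩ | ⟨s, _, h5, _⟩ | ⟨s, _, h5, _⟩ | ⟨h5, _⟩ |
        ⟨s, _, h5, _⟩ | ⟨h5, _⟩ | ⟨s, _, h5, _⟩
      · subst h5
        subst h6
        obtain ⟨l2, h7, h8⟩ := ih h3
        exact ⟨l2, by rw [h7]; rfl, h8⟩
      all_goals simp at h5

theorem path2 : ∀ {l : List Op}, Path (TrF G) (2, []) l (2, []) →
    ∃ R : List ℕ, l = R.map rt := by
  intro l
  induction l with
  | nil => intro _; exact ⟨[], rfl⟩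
  | cons o l ih =>
    intro h
    rcases h.inv with ⟨h1, _⟩ | ⟨o', l', q1, h1, h2, h3⟩
    · simp at h1
    · rw [List.cons.injEq] at h1
      obtain ⟨rfl, rfl⟩ := h1
      have h4 := ((mem_TrF G _).1 h2).2.inv
      simp only [Prod.mk.injEq] at h4
      rcases h4 with ⟨o2, r2, ⟨h5, _⟩, _⟩ | ⟨s, _, ⟨h5, _⟩, _⟩ | ⟨s, _, ⟨h5, _⟩, _⟩ |
        ⟨⟨h5, _⟩, _⟩ | ⟨s, _, ⟨h5, _⟩, _⟩ | ⟨⟨h5, _⟩, _⟩ | ⟨s, _, h5, h6, h7⟩
      · simp at h5
      · simp at h5
      · simp at h5
      · simp at h5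
      · simp at h5
      · simp at h5
      · subst h7
        obtain ⟨R, hR⟩ := ih h3
        exact ⟨s :: R, by rw [hR, h6]; rfl⟩

theorem path1 : ∀ {l : List Op}, Path (TrF G) (1, []) l (2, []) →
    ∃ z R : List ℕ, (∀ a ∈ z, a ∈ G.T) ∧ l = z.map wo ++ w2 (fr G) :: R.map rt := by
  intro l
  induction l with
  | nil =>
    intro h
    rcases h.inv with ⟨_, h1⟩ | ⟨_, _, _, h1, _⟩
    · simp at h1
    · simp at h1
  | cons o l ih =>
    intro h
    rcases h.inv with ⟨h1, _⟩ | ⟨o', l', q1, h1, h2, h3⟩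
    · simp at h1
    · rw [List.cons.injEq] at h1
      obtain ⟨rfl, rfl⟩ := h1
      have h4 := ((mem_TrF G _).1 h2).2.inv
      simp only [Prod.mk.injEq] at h4
      rcases h4 with ⟨o2, r2, ⟨h5, _⟩, _⟩ | ⟨s, _, ⟨h5, _⟩, _⟩ | ⟨s, _, ⟨h5, _⟩, _⟩ |
        ⟨⟨h5, _⟩, _⟩ | ⟨a, ha, h5, h6, h7⟩ | ⟨_, h6, h7⟩ | ⟨s, _, ⟨h5, _⟩, _⟩
      · simp at h5
      · simp at h5
      · simp at h5
      · simp at h5
      · subst h7
        obtain ⟨z, R, hz, hR⟩ := ih h3
        refine ⟨a :: z, R, ?_, by rw [hR, h6]; rfl⟩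
        intro b hb
        rw [List.mem_cons] at hb
        rcases hb with rfl | hb
        · exact ha
        · exact hz b hb
      · subst h7
        obtain ⟨R, hR⟩ := path2 h3
        exact ⟨[], R, by simp, by rw [hR, h6]; rfl⟩
      · simp at h5

def SemP (G : Grammar) (D1 D2 z : List ℕ) : Prop := ∀ u a b : List ℕ, (∀ c ∈ u, c ≠ fr G) →
  (∀ c ∈ a, c ≠ fr G) → (∀ c ∈ b, c ≠ fr G) → Der G a b →
  u ++ fr G :: b ++ D1 = a ++ D2 → Der G u z

theorem split_uniq {f : ℕ} : ∀ {u a X Y : List ℕ}, (∀ c ∈ u, c ≠ f) → (∀ c ∈ a, c ≠ f) →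
    u ++ f :: X = a ++ f :: Y → u = a ∧ X = Y := by
  intro u
  induction u with
  | nil =>
    intro a X Y _ ha h
    cases a with
    | nil => exact ⟨rfl, (List.cons.inj h).2⟩
    | cons b a => exact absurd (List.cons.inj h).1.symm (ha b (by simp))
  | cons b u ih =>
    intro a X Y hu ha h
    cases a with
    | nil => exact absurd (List.cons.inj h).1 (hu b (by simp))
    | cons c a =>
      obtain ⟨h1, h2⟩ := List.cons.inj h
      obtain ⟨h3, h4⟩ := ih (fun c hc => hu c (by simp [hc])) (fun c hc => ha c (by simp [hc])) h2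
      exact ⟨by rw [h1, h3], h4⟩

theorem SemP.copy {D1 D2 z : List ℕ} (h : SemP G D1 D2 z) {s : ℕ} (hs : s ∈ V1 G) :
    SemP G (s :: D1) (s :: D2) z := by
  intro u a b hu ha hb hab he
  unfold V1 at hs
  rw [Finset.mem_insert] at hs
  rcases hs with hs | hs
  · subst hs
    have he' : u ++ fr G :: (b ++ fr G :: D1) = a ++ fr G :: D2 := by simpa using he
    obtain ⟨h1, h2⟩ := split_uniq hu ha he'
    subst h1
    refine hab.trans (h b [] [] hb (by simp) (by simp) (Der.refl _) ?_)
    simpa using h2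
  · have hs' := fr_notin G hs
    refine h u (a ++ [s]) (b ++ [s]) hu ?_ ?_ (hab.app (Der.refl _)) (by simpa using he)
    · intro c hc
      rw [List.mem_append, List.mem_singleton] at hc
      rcases hc with hc | rfl
      · exact ha c hc
      · exact hs'
    · intro c hc
      rw [List.mem_append, List.mem_singleton] at hc
      rcases hc with hc | rfl
      · exact hb c hc
      · exact hs'

theorem SemP.rule {D1 D2 z : List ℕ} (h : SemP G D1 D2 z) {r : List ℕ × List ℕ} (hr : r ∈ G.P) :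
    SemP G (r.2 ++ D1) (r.1 ++ D2) z := by
  intro u a b hu ha hb hab he
  refine h u (a ++ r.1) (b ++ r.2) hu ?_ ?_ (hab.app (Der.rule hr)) (by simpa using he)
  · intro c hc
    rw [List.mem_append] at hc
    rcases hc with hc | hc
    · exact ha c hc
    · exact fr_notin G (G.P_lhs r hr c hc)
  · intro c hc
    rw [List.mem_append] at hc
    rcases hc with hc | hc
    · exact hb c hc
    · exact fr_notin G (G.P_rhs r hr c hc)

theorem SemP.fin {z : List ℕ} (hz : ∀ a ∈ z, a ∈ G.T) : SemP G [] (z ++ [fr G]) z := by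
  intro u a b hu ha hb hab he
  have he' : u ++ fr G :: b = (a ++ z) ++ fr G :: [] := by simpa using he
  obtain ⟨h1, h2⟩ := split_uniq hu (by
    intro c hc
    rw [List.mem_append] at hc
    rcases hc with hc | hc
    · exact ha c hc
    · exact fr_notin G (G.T_sub (hz c hc))) he'
  subst h1
  subst h2
  exact hab.app (Der.refl z)

theorem path0 : ∀ (n : ℕ) (l : List Op), l.length ≤ n → Path (TrF G) (0, []) l (2, []) →
    ∃ D1 D2 R, gp1 l = PW D1 * IW R ∧ gp2 l = PW D2 * IW R ∧ (∀ a ∈ outp l, a ∈ G.T) ∧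
      SemP G D1 D2 (outp l) := by
  intro n
  induction n with
  | zero =>
    intro l hl h
    have : l = [] := List.length_eq_zero_iff.1 (Nat.le_zero.1 hl)
    subst this
    rcases h.inv with ⟨_, h1⟩ | ⟨_, _, _, h1, _⟩
    · simp at h1
    · simp at h1
  | succ n ih =>
    intro l hl h
    rcases h.inv with ⟨_, h1⟩ | ⟨o', l', q1, rfl, h2, h3⟩
    · simp at h1
    · simp only [List.length_cons, Nat.add_le_add_iff_right] at hl
      have h4 := ((mem_TrF G _).1 h2).2.inv
      simp only [Prod.mk.injEq] at h4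
      rcases h4 with ⟨o2, r2, ⟨_, h5⟩, _⟩ | ⟨s, hs, _, h6, h7⟩ | ⟨r, hr, _, h6, h7⟩ |
        ⟨_, h6, h7⟩ | ⟨a, ha, ⟨h5, _⟩, _⟩ | ⟨⟨h5, _⟩, _⟩ | ⟨s, _, ⟨h5, _⟩, _⟩
      · simp at h5
      · subst h6
        subst h7
        obtain ⟨D1, D2, R, g1, g2, g3, g4⟩ := ih l' hl h3
        refine ⟨s :: D1, s :: D2, R, ?_, ?_, ?_, ?_⟩
        · rw [gp1_cons, g1, PW_cons, mul_assoc]; rfl
        · rw [gp2_cons, g2, PW_cons, mul_assoc]; rfl
        · rw [outp_cons]; exact g3
        · rw [outp_cons]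
          exact g4.copy hs
      · subst h6
        subst h7
        obtain ⟨l2, rfl, h8⟩ := pend_path _ h3
        obtain ⟨D1, D2, R, g1, g2, g3, g4⟩ := ih l2 (by
          rw [List.length_append] at hl; omega) h8
        refine ⟨r.2 ++ D1, r.1 ++ D2, R, ?_, ?_, ?_, ?_⟩
        · rw [gp1_cons, gp1_app, g1, PW_app]
          unfold mac
          rw [gp1_app, gp1_w1, gp1_w2]
          simp [idl, val, mul_assoc]
        · rw [gp2_cons, gp2_app, g2, PW_app]
          unfold mac
          rw [gp2_app, gp2_w1, gp2_w2]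
          simp [idl, val, mul_assoc]
        · rw [outp_cons, outp_app]
          unfold mac
          rw [outp_app, outp_w1, outp_w2]
          simpa [idl] using g3
        · rw [outp_cons, outp_app]
          unfold mac
          rw [outp_app, outp_w1, outp_w2]
          simpa [idl] using g4.rule hr
      · subst h6
        subst h7
        obtain ⟨z, R, hz, hl'⟩ := path1 h3
        subst hl'
        have ho : outp (idl :: (z.map wo ++ w2 (fr G) :: R.map rt)) = z := by
          rw [outp_cons, outp_app, outp_wo, outp_cons, outp_rt]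
          simp [idl, w2]
        refine ⟨[], z ++ [fr G], R, ?_, ?_, ?_, ?_⟩
        · rw [gp1_cons, gp1_app, gp1_wo, gp1_cons, gp1_rt]
          simp [idl, w2, val, PW_nil]
        · rw [gp2_cons, gp2_app, gp2_wo, gp2_cons, gp2_rt, PW_app]
          simp [idl, w2, val, PW_cons, PW_nil, mul_assoc]
        · rw [ho]; exact hz
        · rw [ho]; exact SemP.fin hz
      · simp at h5
      · simp at h5
      · simp at h5

theorem ctl_sound {z : List ℕ} (h : (ctl G).Acc z) : z ∈ G.lang := by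
  obtain ⟨l, h1, h2, h3, h4⟩ := h
  obtain ⟨l', rfl, h5⟩ := pend_path (iniM G) h1
  obtain ⟨D1, D2, R, g1, g2, g3, g4⟩ := path0 _ l' le_rfl h5
  have e1 : gp1 (iniM G ++ l') = PW (G.S :: fr G :: D1) * IW R := by
    rw [gp1_app, g1, PW_cons, PW_cons]
    unfold iniM
    rw [gp1_cons, gp1_cons]
    simp [w1, val, gp1, mul_assoc]
  have e2 : gp2 (iniM G ++ l') = PW D2 * IW R := by
    rw [gp2_app, g2]
    unfold iniM
    rw [gp2_cons, gp2_cons]
    simp [w1, val, gp2]
  have e3 : outp (iniM G ++ l') = outp l' := by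
    rw [outp_app]
    unfold iniM
    rw [outp_cons, outp_cons]
    simp [w1, outp]
  rw [e1] at h2
  rw [e2, ← h2] at h3
  have e4 := PW_inj (mul_right_cancel h3)
  rw [e3] at h4
  rw [h4] at g3 g4
  refine ⟨g3, g4 [G.S] [] [] ?_ (by simp) (by simp) (Der.refl _) (by simpa using e4.symm)⟩
  intro c hc
  rw [List.mem_singleton] at hc
  subst hc
  exact fr_notin G (S_V G)

end

end Pool.Agent.Helper273.GF
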