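import Pool.Agent.Helper273.GF.Lab
import Pool.Agent.Helper273.GF.Reach

/-!
Completeness of the relabelled grammar.
-/

set_option linter.unusedVariables false
set_option linter.unusedSectionVars false

namespace Pool.Agent.Helper273.GF

section
variable (G : Grammar) (C : Ctl) (x : ℕ → ℕ)

def itm (s : ℕ) (f g : Face) (a1 b1 a2 b2 : ℕ) : Mode → List Item
  | Mode.lab => [Sum.inl (s, f, st x a1 b1, st x a2 b2, g)]
  | Mode.skip => []
  | Mode.virt t => [Sum.inr t]

def items : List ℕ → (ℕ → Face) → (ℕ → ℕ) → (ℕ → ℕ) → (ℕ → Mode) → List Item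
  | [], _, _, _, _ => []
  | s :: w, f, H1, H2, md => itm x s (f 0) (f 1) (H1 0) (H1 1) (H2 0) (H2 1) (md 0) ++
      items w (fun i => f (i+1)) (fun i => H1 (i+1)) (fun i => H2 (i+1)) (fun i => md (i+1))

theorem items_app (u v : List ℕ) : ∀ (f : ℕ → Face) (H1 H2 : ℕ → ℕ) (md : ℕ → Mode),
    items x (u ++ v) f H1 H2 md = items x u f H1 H2 md ++
      items x v (fun i => f (i + u.length)) (fun i => H1 (i + u.length))
        (fun i => H2 (i + u.length)) (fun i => md (i + u.length)) := by
  induction u with
  | nil => intro f H1 H2 md; rfl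
  | cons s u ih =>
    intro f H1 H2 md
    rw [List.cons_append, items, ih, items, List.append_assoc]
    simp only [List.length_cons, ← add_assoc]

theorem items_congr (w : List ℕ) : ∀ (f : ℕ → Face) (H1 H2 : ℕ → ℕ) (md : ℕ → Mode)
    (f' : ℕ → Face) (H1' H2' : ℕ → ℕ) (md' : ℕ → Mode),
    (∀ i, i ≤ w.length → f i = f' i) → (∀ i, i ≤ w.length → H1 i = H1' i) →
    (∀ i, i ≤ w.length → H2 i = H2' i) → (∀ i, i < w.length → md i = md' i) →
    items x w f H1 H2 md = items x w f' H1' H2' md' := by
  induction w with
  | nil => intro _ _ _ _ _ _ _ _ _ _ _ _; rfl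
  | cons s w ih =>
    intro f H1 H2 md f' H1' H2' md' h1 h2 h3 h4
    simp only [List.length_cons] at h1 h2 h3 h4
    rw [items, items, h1 0 (by omega), h1 1 (by omega), h2 0 (by omega), h2 1 (by omega),
      h3 0 (by omega), h3 1 (by omega), h4 0 (by omega),
      ih _ _ _ _ (fun i => f' (i+1)) (fun i => H1' (i+1)) (fun i => H2' (i+1))
        (fun i => md' (i+1)) (fun i hi => h1 (i+1) (by omega)) (fun i hi => h2 (i+1) (by omega))
        (fun i hi => h3 (i+1) (by omega)) (fun i hi => h4 (i+1) (by omega))]

def Loc (s : ℕ) (f g : Face) (a1 b1 a2 b2 : ℕ) : Mode → Prop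
  | Mode.lab => s ∈ G.T → g = Sum.inr false ∨ f = Sum.inr true
  | Mode.skip => s ∈ G.T ∧ f = g ∧ a1 = b1 ∧ a2 = b2
  | Mode.virt t => s ∈ G.T ∧ t ∈ C.Tr ∧ f = Sum.inl t.1 ∧ g = Sum.inl t.2.2 ∧
      t.2.1.2.1 = st x a1 b1 ∧ t.2.1.2.2 = st x a2 b2

structure Loc' (s : ℕ) (f g : Face) (a1 b1 a2 b2 : ℕ) (md : Mode) : Prop where
  sV : s ∈ G.V
  fF : f ∈ C.Fs
  gF : g ∈ C.Fs
  ad1 : adj a1 b1
  ad2 : adj a2 b2
  loc : Loc G C x s f g a1 b1 a2 b2 md

def Val (w : List ℕ) (f : ℕ → Face) (H1 H2 : ℕ → ℕ) (md : ℕ → Mode) : Prop :=
  ∀ i s, w[i]? = some s → Loc' G C x s (f i) (f (i+1)) (H1 i) (H1 (i+1)) (H2 i) (H2 (i+1)) (md i)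

variable {G C x}

theorem Val.tail {s : ℕ} {w : List ℕ} {f : ℕ → Face} {H1 H2 : ℕ → ℕ} {md : ℕ → Mode}
    (h : Val G C x (s :: w) f H1 H2 md) :
    Val G C x w (fun i => f (i+1)) (fun i => H1 (i+1)) (fun i => H2 (i+1))
      (fun i => md (i+1)) := by
  intro i t ht
  exact h (i+1) t (by simpa using ht)

theorem Val.head {s : ℕ} {w : List ℕ} {f : ℕ → Face} {H1 H2 : ℕ → ℕ} {md : ℕ → Mode}
    (h : Val G C x (s :: w) f H1 H2 md) :
    Loc' G C x s (f 0) (f 1) (H1 0) (H1 1) (H2 0) (H2 1) (md 0) :=
  h 0 s (by simp)

theorem Val.left {u v : List ℕ} {f : ℕ → Face} {H1 H2 : ℕ → ℕ} {md : ℕ → Mode}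
    (h : Val G C x (u ++ v) f H1 H2 md) : Val G C x u f H1 H2 md := by
  intro i t ht
  apply h i t
  obtain ⟨hi, _⟩ := List.getElem?_eq_some_iff.1 ht
  rw [List.getElem?_append_left hi, ht]

theorem Val.right {u v : List ℕ} {f : ℕ → Face} {H1 H2 : ℕ → ℕ} {md : ℕ → Mode}
    (h : Val G C x (u ++ v) f H1 H2 md) :
    Val G C x v (fun i => f (i + u.length)) (fun i => H1 (i + u.length))
        (fun i => H2 (i + u.length)) (fun i => md (i + u.length)) := by
  intro i t ht
  have := h (i + u.length) t (by
    rw [List.getElem?_append_right (by omega), Nat.add_sub_cancel, ht])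
  rw [show i + u.length + 1 = i + 1 + u.length by ring] at this
  exact this

theorem Val.app {u v : List ℕ} {f : ℕ → Face} {H1 H2 : ℕ → ℕ} {md : ℕ → Mode}
    (h1 : Val G C x u f H1 H2 md)
    (h2 : Val G C x v (fun i => f (i + u.length)) (fun i => H1 (i + u.length))
        (fun i => H2 (i + u.length)) (fun i => md (i + u.length))) :
    Val G C x (u ++ v) f H1 H2 md := by
  intro i t ht
  by_cases hi : i < u.length
  · rw [List.getElem?_append_left hi] at ht
    exact h1 i t ht
  · push Not at hi
    rw [List.getElem?_append_right hi] at ht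
    have := h2 (i - u.length) t ht
    simp only [show i - u.length + u.length = i by omega,
      show i - u.length + 1 + u.length = i + 1 by omega] at this
    exact this

theorem Val.congr {w : List ℕ} {f : ℕ → Face} {H1 H2 : ℕ → ℕ} {md : ℕ → Mode}
    {f' : ℕ → Face} {H1' H2' : ℕ → ℕ} {md' : ℕ → Mode}
    (h : Val G C x w f H1 H2 md)
    (h1 : ∀ i, i ≤ w.length → f i = f' i) (h2 : ∀ i, i ≤ w.length → H1 i = H1' i)
    (h3 : ∀ i, i ≤ w.length → H2 i = H2' i) (h4 : ∀ i, i < w.length → md i = md' i) :
    Val G C x w f' H1' H2' md' := by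
  intro i t ht
  obtain ⟨hi, _⟩ := List.getElem?_eq_some_iff.1 ht
  have := h i t ht
  rw [h1 i hi.le, h1 (i+1) hi, h2 i hi.le, h2 (i+1) hi, h3 i hi.le, h3 (i+1) hi, h4 i hi] at this
  exact this

theorem chn_items (w : List ℕ) : ∀ {f : ℕ → Face} {H1 H2 : ℕ → ℕ} {md : ℕ → Mode},
    Val G C x w f H1 H2 md → Chn (f 0) (items x w f H1 H2 md) (f w.length) := by
  induction w with
  | nil => intro f H1 H2 md _; exact Chn.nil _
  | cons s w ih =>
    intro f H1 H2 md h
    have h1 := ih h.tail
    have h0 := h.head.loc
    rw [items]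
    cases hm : md 0 with
    | lab => exact Chn.cons rfl h1
    | skip =>
      rw [hm] at h0
      obtain ⟨_, e, _, _⟩ := h0
      rw [e]
      exact h1
    | virt t =>
      rw [hm] at h0
      obtain ⟨_, _, e1, e2, _, _⟩ := h0
      refine Chn.cons e1.symm ?_
      have : Item.tgt (Sum.inr t) = f 1 := e2.symm
      rw [this]
      exact h1

theorem ok_items (hx : ∀ i, x i ∈ C.De) (w : List ℕ) :
    ∀ {f : ℕ → Face} {H1 H2 : ℕ → ℕ} {md : ℕ → Mode},
    Val G C x w f H1 H2 md → ∀ it ∈ items x w f H1 H2 md, okI G C it := by
  induction w with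
  | nil => intro f H1 H2 md _ it hit; simp [items] at hit
  | cons s w ih =>
    intro f H1 H2 md h it hit
    have h1 := ih h.tail
    have hh := h.head
    have h0 := hh.loc
    rw [items, List.mem_append] at hit
    rcases hit with hit | hit
    · cases hm : md 0 with
      | lab =>
        rw [hm] at hit h0
        simp only [itm, List.mem_singleton] at hit
        subst hit
        exact ⟨hh.sV, hh.fF, hh.gF, C.st_mem_Ds hx _ _, C.st_mem_Ds hx _ _, h0⟩
      | skip =>
        rw [hm] at hit
        simp [itm] at hit
      | virt t =>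
        rw [hm] at hit h0
        simp only [itm, List.mem_singleton] at hit
        subst hit
        exact h0.2.1
    · exact h1 it hit

theorem rep_items (w : List ℕ) : ∀ {f : ℕ → Face} {H1 H2 : ℕ → ℕ} {md : ℕ → Mode},
    Val G C x w f H1 H2 md → Rep G.T w (items x w f H1 H2 md) := by
  induction w with
  | nil => intro f H1 H2 md _; exact Rep.nil
  | cons s w ih =>
    intro f H1 H2 md h
    have h1 := ih h.tail
    have h0 := h.head.loc
    rw [items]
    cases hm : md 0 with
    | lab => exact Rep.lab (s, f 0, st x (H1 0) (H1 1), st x (H2 0) (H2 1), f 1) h1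
    | skip =>
      rw [hm] at h0
      exact Rep.skip s h0.1 h1
    | virt t =>
      rw [hm] at h0
      exact Rep.virt s t h0.1 h1

theorem pr1_items (w : List ℕ) : ∀ {f : ℕ → Face} {H1 H2 : ℕ → ℕ} {md : ℕ → Mode},
    Val G C x w f H1 H2 md →
    pr1 (items x w f H1 H2 md) = (Xp x (H1 0))⁻¹ * Xp x (H1 w.length) := by
  induction w with
  | nil => intro f H1 H2 md _; simp [items, pr1]
  | cons s w ih =>
    intro f H1 H2 md h
    have h1 := ih h.tail
    have hh := h.head
    have h0 := hh.loc
    rw [items, pr1_app, h1]
    simp only [zero_add, List.length_cons]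
    cases hm : md 0 with
    | lab =>
      simp only [itm, pr1, List.map_cons, List.map_nil, List.prod_cons, List.prod_nil, Item.v1]
      rw [val_st x hh.ad1]
      group
    | skip =>
      rw [hm] at h0
      simp only [itm, pr1, List.map_nil, List.prod_nil]
      rw [h0.2.2.1]
      group
    | virt t =>
      rw [hm] at h0
      simp only [itm, pr1, List.map_cons, List.map_nil, List.prod_cons, List.prod_nil, Item.v1]
      rw [h0.2.2.2.2.1, val_st x hh.ad1]
      group

theorem pr2_items (w : List ℕ) : ∀ {f : ℕ → Face} {H1 H2 : ℕ → ℕ} {md : ℕ → Mode},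
    Val G C x w f H1 H2 md →
    pr2 (items x w f H1 H2 md) = (Xp x (H2 0))⁻¹ * Xp x (H2 w.length) := by
  induction w with
  | nil => intro f H1 H2 md _; simp [items, pr2]
  | cons s w ih =>
    intro f H1 H2 md h
    have h1 := ih h.tail
    have hh := h.head
    have h0 := hh.loc
    rw [items, pr2_app, h1]
    simp only [zero_add, List.length_cons]
    cases hm : md 0 with
    | lab =>
      simp only [itm, pr2, List.map_cons, List.map_nil, List.prod_cons, List.prod_nil, Item.v2]
      rw [val_st x hh.ad2]
      group
    | skip =>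
      rw [hm] at h0
      simp only [itm, pr2, List.map_nil, List.prod_nil]
      rw [h0.2.2.2]
      group
    | virt t =>
      rw [hm] at h0
      simp only [itm, pr2, List.map_cons, List.map_nil, List.prod_cons, List.prod_nil, Item.v2]
      rw [h0.2.2.2.2.2, val_st x hh.ad2]
      group

variable (x) in
def labs : List ℕ → (ℕ → Face) → (ℕ → ℕ) → (ℕ → ℕ) → List Lab
  | [], _, _, _ => []
  | s :: w, f, H1, H2 => (s, f 0, st x (H1 0) (H1 1), st x (H2 0) (H2 1), f 1) ::
      labs w (fun i => f (i+1)) (fun i => H1 (i+1)) (fun i => H2 (i+1))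

theorem labs_fst (w : List ℕ) : ∀ (f : ℕ → Face) (H1 H2 : ℕ → ℕ),
    (labs x w f H1 H2).map Prod.fst = w := by
  induction w with
  | nil => intro _ _ _; rfl
  | cons s w ih => intro f H1 H2; rw [labs, List.map_cons, ih]

theorem labs_items (w : List ℕ) : ∀ (f : ℕ → Face) (H1 H2 : ℕ → ℕ),
    (labs x w f H1 H2).map Sum.inl = items x w f H1 H2 (fun _ => Mode.lab) := by
  induction w with
  | nil => intro _ _ _; rfl
  | cons s w ih => intro f H1 H2; rw [labs, List.map_cons, ih, items]; rfl

theorem labs_inner (w : List ℕ) : ∀ (f : ℕ → Face) (H1 H2 : ℕ → ℕ),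
    (∀ i, 0 < i → i < w.length → ∃ b, f i = Sum.inr b) →
    ∀ l ∈ (labs x w f H1 H2).dropLast, ∃ b, l.2.2.2.2 = Sum.inr b := by
  induction w with
  | nil => intro f H1 H2 _ l hl; simp [labs] at hl
  | cons s w ih =>
    intro f H1 H2 h l hl
    rw [labs] at hl
    cases w with
    | nil => simp [labs] at hl
    | cons t w =>
      rw [List.dropLast_cons_of_ne_nil (by simp [labs]), List.mem_cons] at hl
      rcases hl with hl | hl
      · subst hl
        exact h 1 (by omega) (by simp)
      · exact ih _ _ _ (fun i h1 h2 => h (i+1) (by omega) (by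
          simp only [List.length_cons] at h2 ⊢; omega)) l hl

variable (G C x) in
/-- Deriving a labelled word. -/
theorem label (hx : ∀ i, x i ∈ C.De) {w : List ℕ} {d : ℕ → ℕ → ℕ} (h : DM G w d) :
    ∀ (f : ℕ → Face) (H1 H2 : ℕ → ℕ) (md : ℕ → Mode), Lip w.length d H1 → Lip w.length d H2 →
      (∀ i, i ≤ w.length → f i ∈ C.Fs) → Val G C x w f H1 H2 md →
      Der (relab G C) [encL C (G.S, f 0, st x (H1 0) (H1 w.length),
        st x (H2 0) (H2 w.length), f w.length)] (real C (items x w f H1 H2 md)) := by
  induction h with
  | start =>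
    intro f H1 H2 md _ _ _ hv
    have hh := hv.head.loc
    have hS := (Finset.mem_sdiff.1 G.S_mem).2
    have : real C (items x [G.S] f H1 H2 md) = [encL C (G.S, f 0, st x (H1 0) (H1 1),
        st x (H2 0) (H2 1), f 1)] := by
      rw [items, items, List.append_nil]
      cases hm : md 0 with
      | lab => rfl
      | skip => rw [hm] at hh; exact absurd hh.1 hS
      | virt t => rw [hm] at hh; exact absurd hh.1 hS
    rw [this]
    exact Der.refl _
  | @step u v α β d d' hP hD hT hsy hu ho ih =>
    intro f' H1' H2' md' hL1 hL2 hF hv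
    have hl : (u ++ β ++ v).length = u.length + β.length + v.length := by simp; ring
    have hl0 : (u ++ α ++ v).length = u.length + α.length + v.length := by simp; ring
    rw [hl] at hL1 hL2 hF ⊢
    obtain ⟨H1, l1, a1, b1⟩ := hT H1' hL1
    obtain ⟨H2, l2, a2, b2⟩ := hT H2' hL2
    obtain ⟨s0, hs0, hs1⟩ := G.P_nt _ hP
    have hs0' : s0 ∈ α := hs0
    obtain ⟨j0, hj0, hj1⟩ := List.getElem_of_mem hs0'
    have hsT : s0 ∉ G.T := (Finset.mem_sdiff.1 hs1).2
    set p := u.length with hp
    set a := α.length with ha
    set b := β.length with hb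
    set r := v.length with hr
    -- new annotation
    let f : ℕ → Face := fun i => if i ≤ p then f' i else if i < p + a then
      (if i ≤ p + j0 then Sum.inr false else Sum.inr true) else f' (i - a + b)
    let md : ℕ → Mode := fun i => if i < p then md' i else if i < p + a then Mode.lab else
      md' (i - a + b)
    have f_l : ∀ i, i ≤ p → f i = f' i := fun i hi => if_pos hi
    have f_r : ∀ i, p + a ≤ i → f i = f' (i - a + b) := by
      intro i hi
      show (if i ≤ p then f' i else if i < p + a then
        (if i ≤ p + j0 then Sum.inr false else Sum.inr true) else f' (i - a + b)) = _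
      rw [if_neg (by omega), if_neg (by omega)]
    have f_m1 : ∀ i, p < i → i ≤ p + j0 → f i = Sum.inr false := by
      intro i h1 h2
      show (if i ≤ p then f' i else if i < p + a then
        (if i ≤ p + j0 then Sum.inr false else Sum.inr true) else f' (i - a + b)) = _
      rw [if_neg (by omega), if_pos (by omega), if_pos (by omega)]
    have f_m2 : ∀ i, p + j0 < i → i < p + a → f i = Sum.inr true := by
      intro i h1 h2
      show (if i ≤ p then f' i else if i < p + a then
        (if i ≤ p + j0 then Sum.inr false else Sum.inr true) else f' (i - a + b)) = _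
      rw [if_neg (by omega), if_pos (by omega), if_neg (by omega)]
    have md_l : ∀ i, i < p → md i = md' i := fun i hi => if_pos hi
    have md_m : ∀ i, p ≤ i → i < p + a → md i = Mode.lab := by
      intro i h1 h2
      show (if i < p then md' i else if i < p + a then Mode.lab else md' (i - a + b)) = _
      rw [if_neg (by omega), if_pos (by omega)]
    have md_r : ∀ i, p + a ≤ i → md i = md' (i - a + b) := by
      intro i h1
      show (if i < p then md' i else if i < p + a then Mode.lab else md' (i - a + b)) = _
      rw [if_neg (by omega), if_neg (by omega)]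
    have hr1 : ∀ i, i ≤ r → H1 (i + (p + a)) = H1' (i + (p + b)) := by
      intro i hi
      have := b1 (r - i) (by omega)
      rw [show p + a + r - (r - i) = i + (p + a) by omega,
        show p + b + r - (r - i) = i + (p + b) by omega] at this
      exact this
    have hr2 : ∀ i, i ≤ r → H2 (i + (p + a)) = H2' (i + (p + b)) := by
      intro i hi
      have := b2 (r - i) (by omega)
      rw [show p + a + r - (r - i) = i + (p + a) by omega,
        show p + b + r - (r - i) = i + (p + b) by omega] at this
      exact this
    have fr' : ∀ i, f (i + (p + a)) = f' (i + (p + b)) := by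
      intro i
      rw [f_r _ (by omega)]
      congr 1
      omega
    have mr' : ∀ i, md (i + (p + a)) = md' (i + (p + b)) := by
      intro i
      rw [md_r _ (by omega)]
      congr 1
      omega
    -- the three parts of the new word
    have hlub : (u ++ β).length = p + b := by simp [← hp, ← hb]
    have hlua : (u ++ α).length = p + a := by simp [← hp, ← ha]
    have v1 : Val G C x u f' H1' H2' md' := hv.left.left
    have v2 := hv.left.right
    have v3 := hv.right
    rw [hlub] at v3
    rw [← hp] at v2
    have w1 : Val G C x u f H1 H2 md := v1.congr (fun i hi => (f_l i hi).symm)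
      (fun i hi => (a1 i hi).symm) (fun i hi => (a2 i hi).symm) (fun i hi => (md_l i hi).symm)
    have w3 : Val G C x v (fun i => f (i + (p + a))) (fun i => H1 (i + (p + a)))
        (fun i => H2 (i + (p + a))) (fun i => md (i + (p + a))) :=
      v3.congr (fun i hi => (fr' i).symm) (fun i hi => (hr1 i hi).symm)
        (fun i hi => (hr2 i hi).symm) (fun i hi => (mr' i).symm)
    have huni := hD.uni.1
    rw [hl0] at huni
    have hfF : ∀ i, i ≤ p + a + r → f i ∈ C.Fs := by
      intro i hi
      by_cases h0 : i ≤ p
      · rw [f_l i h0]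
        exact hF i (by omega)
      · by_cases h1 : i < p + a
        · by_cases h2 : i ≤ p + j0
          · rw [f_m1 i (by omega) h2]
            exact C.mem_Fs_inr _
          · rw [f_m2 i (by omega) h1]
            exact C.mem_Fs_inr _
        · rw [f_r i (by omega)]
          exact hF _ (by omega)
    have w2 : Val G C x α (fun i => f (i + p)) (fun i => H1 (i + p))
        (fun i => H2 (i + p)) (fun i => md (i + p)) := by
      intro i s hs
      obtain ⟨hi, hs'⟩ := List.getElem?_eq_some_iff.1 hs
      rw [← ha] at hi
      refine ⟨?_, hfF _ (by omega), hfF _ (by omega), ?_, ?_, ?_⟩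
      · rw [← hs']
        exact G.P_lhs _ hP _ (List.getElem_mem _)
      · have e1 := l1 (i + p) (i + 1 + p) (by omega) (by omega)
        have e2 := l1 (i + 1 + p) (i + p) (by omega) (by omega)
        have e3 := huni (i + p) (by omega)
        rw [show i + p + 1 = i + 1 + p by ring] at e3
        rw [hD.symm (i + 1 + p) (i + p)] at e2
        constructor
        · show H1 (i + p) ≤ H1 (i + 1 + p) + 1
          omega
        · show H1 (i + 1 + p) ≤ H1 (i + p) + 1
          omega
      · have e1 := l2 (i + p) (i + 1 + p) (by omega) (by omega)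
        have e2 := l2 (i + 1 + p) (i + p) (by omega) (by omega)
        have e3 := huni (i + p) (by omega)
        rw [show i + p + 1 = i + 1 + p by ring] at e3
        rw [hD.symm (i + 1 + p) (i + p)] at e2
        constructor
        · show H2 (i + p) ≤ H2 (i + 1 + p) + 1
          omega
        · show H2 (i + 1 + p) ≤ H2 (i + p) + 1
          omega
      · show Loc G C x s (f (i + p)) (f (i + 1 + p)) _ _ _ _ (md (i + p))
        rw [md_m (i + p) (by omega) (by omega)]
        intro hsT'
        by_cases h1 : i < j0
        · left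
          exact f_m1 _ (by omega) (by omega)
        · by_cases h2 : i = j0
          · subst h2
            rw [hj1] at hs'
            rw [← hs'] at hsT'
            exact absurd hsT' hsT
          · right
            exact f_m2 _ (by omega) (by omega)
    have hval : Val G C x (u ++ α ++ v) f H1 H2 md :=
      Val.app (w1.app w2) (by rw [hlua]; exact w3)
    rw [hl0] at ih
    have ih' := ih f H1 H2 md l1 l2 hfF hval
    have e0 : H1 0 = H1' 0 := a1 0 (by omega)
    have e0' : H2 0 = H2' 0 := a2 0 (by omega)
    have e1 : H1 (p + a + r) = H1' (p + b + r) := b1 0 (by omega)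
    have e1' : H2 (p + a + r) = H2' (p + b + r) := b2 0 (by omega)
    have e2 : f (p + a + r) = f' (p + b + r) := by
      rw [f_r _ (by omega)]
      congr 1
      omega
    rw [f_l 0 (by omega), e0, e0', e1, e1', e2] at ih'
    refine ih'.trans ?_
    have iu : items x u f H1 H2 md = items x u f' H1' H2' md' :=
      items_congr x u _ _ _ _ _ _ _ _ (fun i hi => f_l i hi) (fun i hi => a1 i hi)
        (fun i hi => a2 i hi) (fun i hi => md_l i hi)
    have iv : items x v (fun i => f (i + (p + a))) (fun i => H1 (i + (p + a)))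
        (fun i => H2 (i + (p + a))) (fun i => md (i + (p + a))) =
        items x v (fun i => f' (i + (p + b))) (fun i => H1' (i + (p + b)))
        (fun i => H2' (i + (p + b))) (fun i => md' (i + (p + b))) :=
      items_congr x v _ _ _ _ _ _ _ _ (fun i hi => fr' i) (fun i hi => hr1 i hi)
        (fun i hi => hr2 i hi) (fun i hi => mr' i)
    have ia : items x α (fun i => f (i + p)) (fun i => H1 (i + p)) (fun i => H2 (i + p))
        (fun i => md (i + p)) = (labs x α (fun i => f (i + p)) (fun i => H1 (i + p))
          (fun i => H2 (i + p))).map Sum.inl := by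
      rw [labs_items]
      exact items_congr x α _ _ _ _ _ _ _ _ (fun _ _ => rfl) (fun _ _ => rfl) (fun _ _ => rfl)
        (fun i hi => md_m _ (by omega) (by omega))
    rw [items_app, items_app, hlua, iv, ← hp, ia, iu, items_app x (u ++ β) v, items_app x u β,
      hlub, ← hp, real_app, real_app, real_app, real_app, real_map]
    have hrule : LabRule G C ((labs x α (fun i => f (i + p)) (fun i => H1 (i + p))
          (fun i => H2 (i + p))).map (encL C))
        (real C (items x β (fun i => f' (i + p)) (fun i => H1' (i + p)) (fun i => H2' (i + p))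
          (fun i => md' (i + p)))) α β
        (labs x α (fun i => f (i + p)) (fun i => H1 (i + p)) (fun i => H2 (i + p)))
        (items x β (fun i => f' (i + p)) (fun i => H1' (i + p)) (fun i => H2' (i + p))
          (fun i => md' (i + p))) (f' p) (f' (p + b)) := by
      refine ⟨hP, labs_fst _ _ _ _, ?_, ?_, ?_, rep_items β v2, ok_items hx β v2, ?_, ?_, ?_,
        rfl, rfl⟩
      · intro l hl
        have := ok_items hx α w2 (Sum.inl l) (by rw [ia]; exact List.mem_map_of_mem hl)
        exact this
      · have := chn_items α w2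
        rw [ia] at this
        simp only [zero_add, ← ha] at this
        rw [f_l p le_rfl, show a + p = 0 + (p + a) by ring, fr' 0, zero_add] at this
        exact this
      · apply labs_inner
        intro i h1 h2
        rw [← ha] at h2
        by_cases h3 : i ≤ j0
        · exact ⟨false, f_m1 _ (by omega) (by omega)⟩
        · exact ⟨true, f_m2 _ (by omega) (by omega)⟩
      · have := chn_items β v2
        simp only [zero_add, ← hb] at this
        rw [show b + p = p + b by ring] at this
        exact this
      · rw [← ia, pr1_items α w2, pr1_items β v2]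
        simp only [zero_add, ← hb, ← ha]
        rw [a1 p le_rfl, show a + p = 0 + (p + a) by ring, hr1 0 (by omega),
          show b + p = 0 + (p + b) by ring]
      · rw [← ia, pr2_items α w2, pr2_items β v2]
        simp only [zero_add, ← hb, ← ha]
        rw [a2 p le_rfl, show a + p = 0 + (p + a) by ring, hr2 0 (by omega),
          show b + p = 0 + (p + b) by ring]
    have hmem : ((labs x α (fun i => f (i + p)) (fun i => H1 (i + p))
          (fun i => H2 (i + p))).map (encL C),
        real C (items x β (fun i => f' (i + p)) (fun i => H1' (i + p)) (fun i => H2' (i + p))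
          (fun i => md' (i + p)))) ∈ (relab G C).P :=
      (mem_P2 G C _).2 ⟨_, _, _, _, _, _, hrule⟩
    exact Relation.ReflTransGen.single ⟨_, hmem, _, _, rfl, rfl⟩

/-- The states along a path. -/
theorem Path.states {Tr : Finset Trn} {q : Qs} {l : List Op} {q' : Qs} (h : Path Tr q l q') :
    ∃ qst : ℕ → Qs, qst 0 = q ∧ qst l.length = q' ∧
      ∀ i o, l[i]? = some o → (qst i, o, qst (i+1)) ∈ Tr := by
  induction h with
  | nil q => exact ⟨fun _ => q, rfl, rfl, by intro i o h; simp at h⟩
  | @cons q o q' q'' l hm _ ih =>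
    obtain ⟨qst, h1, h2, h3⟩ := ih
    refine ⟨fun i => match i with | 0 => q | i+1 => qst i, rfl, ?_, ?_⟩
    · simpa using h2
    · intro i o' ho
      cases i with
      | zero =>
        simp only [List.getElem?_cons_zero, Option.some.injEq] at ho
        subst ho
        show (q, o, qst 0) ∈ Tr
        rw [h1]
        exact hm
      | succ i =>
        simp only [List.getElem?_cons_succ] at ho
        exact h3 i o' ho

theorem walk_lip {h : ℕ → ℕ} {N : ℕ} (hs : h 0 = 0) (he : h N = 0)
    (ha : ∀ i, i < N → adj (h i) (h (i+1))) (a b : ℕ) (hab : a ≤ b) (hb : b ≤ N) :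
    h a ≤ h b + min (b - a) (N - (b - a)) ∧ h b ≤ h a + min (b - a) (N - (b - a)) := by
  have key : ∀ k a, a + k ≤ N → h a ≤ h (a + k) + k ∧ h (a + k) ≤ h a + k := by
    intro k
    induction k with
    | zero => intro a _; simp
    | succ k ih =>
      intro a hk
      have h1 := ih a (by omega)
      have h2 := ha (a + k) (by omega)
      obtain ⟨h3, h4⟩ := h2
      rw [show a + (k + 1) = a + k + 1 by ring]
      omega
  have k1 := key (b - a) a (by omega)
  have k2 := key a 0 (by omega)
  have k3 := key (N - b) b (by omega)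
  rw [show a + (b - a) = b by omega] at k1
  rw [zero_add, hs] at k2
  rw [show b + (N - b) = N by omega, he] at k3
  omega

theorem Spread.mono {m N : ℕ} {d : ℕ → ℕ → ℕ} {ix : ℕ → ℕ} (h : Spread m d N ix) {i j : ℕ}
    (hij : i ≤ j) (hj : j ≤ m) : ix i ≤ ix j := by
  induction j with
  | zero =>
    have : i = 0 := by omega
    rw [this]
  | succ j ih =>
    by_cases he : i = j + 1
    · rw [he]
    · exact (ih (by omega) (by omega)).trans (h.step j (by omega)).1

theorem Spread.le {m N : ℕ} {d : ℕ → ℕ → ℕ} {ix : ℕ → ℕ} (h : Spread m d N ix) {i : ℕ}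
    (hi : i ≤ m) : ix i ≤ N := by
  have := h.mono hi le_rfl
  rw [h.top] at this
  exact this

theorem lip_comp {m N : ℕ} {d : ℕ → ℕ → ℕ} {ix : ℕ → ℕ} (h : Spread m d N ix)
    (hsy : ∀ i j, d i j = d j i) {H : ℕ → ℕ} (hs : H 0 = 0) (he : H N = 0)
    (ha : ∀ i, i < N → adj (H i) (H (i+1))) : Lip m d (fun i => H (ix i)) := by
  intro i j hi hj
  rcases le_total i j with hij | hij
  · have h1 := walk_lip hs he ha (ix i) (ix j) (h.mono hij hj) (h.le hj)
    have h2 := h.far i j hij hj
    show H (ix i) ≤ H (ix j) + d i j
    omega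
  · have h1 := walk_lip hs he ha (ix j) (ix i) (h.mono hij hi) (h.le hi)
    have h2 := h.far j i hij hi
    rw [hsy j i] at h2
    show H (ix i) ≤ H (ix j) + d i j
    omega

theorem adj_refl (a : ℕ) : adj a a := ⟨by omega, by omega⟩

open Classical in
variable (G C) in
/-- Generating a word with a nice run from a terminal word with a spread selection. -/
theorem relab_complete {y : List ℕ} {d : ℕ → ℕ → ℕ} (hy : ∀ a ∈ y, a ∈ G.T) (hD : DM G y d)
    {z : List ℕ} {l : List Op} {x h1 h2 : ℕ → ℕ} (hn : C.Nice z l x h1 h2) {ix : ℕ → ℕ}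
    (hix : Spread y.length d l.length ix) : z ∈ (relab G C).lang := by
  obtain ⟨qst, q0, q1, q2⟩ := hn.path.states
  have qSt : ∀ i, i ≤ l.length → qst i ∈ C.St := by
    intro i hi
    cases i with
    | zero => rw [q0]; exact C.hqs
    | succ i =>
      have := q2 i l[i] (List.getElem?_eq_getElem (by omega))
      exact (C.hTr _ this).2
  let f : ℕ → Face := fun i => Sum.inl (qst (ix i))
  let md : ℕ → Mode := fun i => if ix (i+1) = ix i then Mode.skip else
    Mode.virt (qst (ix i), l.getD (ix i) (none, none, none), qst (ix i + 1))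
  have hv : Val G C x y f (fun i => h1 (ix i)) (fun i => h2 (ix i)) md := by
    intro i s hs
    obtain ⟨hi, hs'⟩ := List.getElem?_eq_some_iff.1 hs
    have hsT : s ∈ G.T := by rw [← hs']; exact hy _ (List.getElem_mem _)
    have hst := hix.step i hi
    have hle := hix.le (i := i+1) hi
    have hle' := hix.le (i := i) hi.le
    have hf1 : f i ∈ C.Fs := (C.mem_Fs_inl).2 (qSt _ hle')
    have hf2 : f (i+1) ∈ C.Fs := (C.mem_Fs_inl).2 (qSt _ hle)
    by_cases he : ix (i+1) = ix i
    · refine ⟨G.T_sub hsT, hf1, hf2, ?_, ?_, ?_⟩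
      · show adj (h1 (ix i)) (h1 (ix (i+1)))
        rw [he]; exact adj_refl _
      · show adj (h2 (ix i)) (h2 (ix (i+1)))
        rw [he]; exact adj_refl _
      · have : md i = Mode.skip := if_pos he
        rw [this]
        refine ⟨hsT, ?_, ?_, ?_⟩
        · show (Sum.inl (qst (ix i)) : Face) = Sum.inl (qst (ix (i+1)))
          rw [he]
        · show h1 (ix i) = h1 (ix (i+1))
          rw [he]
        · show h2 (ix i) = h2 (ix (i+1))
          rw [he]
    · have he' : ix (i+1) = ix i + 1 := by omega
      have hlt : ix i < l.length := by omega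
      refine ⟨G.T_sub hsT, hf1, hf2, ?_, ?_, ?_⟩
      · show adj (h1 (ix i)) (h1 (ix (i+1)))
        rw [he']; exact hn.adj1 _ hlt
      · show adj (h2 (ix i)) (h2 (ix (i+1)))
        rw [he']; exact hn.adj2 _ hlt
      · have hm : md i = Mode.virt (qst (ix i), l.getD (ix i) (none, none, none),
            qst (ix i + 1)) := if_neg he
        have hl : l[ix i]? = some l[ix i] := List.getElem?_eq_getElem hlt
        have hg : l.getD (ix i) (none, none, none) = l[ix i] := by
          rw [List.getD_eq_getElem?_getD, hl]; rfl
        rw [hm, hg]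
        have ho := hn.op _ _ hl
        refine ⟨hsT, q2 _ _ hl, rfl, ?_, ?_, ?_⟩
        · show (Sum.inl (qst (ix (i+1))) : Face) = Sum.inl (qst (ix i + 1))
          rw [he']
        · show _ = st x (h1 (ix i)) (h1 (ix (i+1)))
          rw [he']; exact ho.1
        · show _ = st x (h2 (ix i)) (h2 (ix (i+1)))
          rw [he']; exact ho.2
  have hlab := label G C x hn.xD hD f (fun i => h1 (ix i)) (fun i => h2 (ix i)) md
    (lip_comp hix hD.symm hn.h1s hn.h1e hn.adj1) (lip_comp hix hD.symm hn.h2s hn.h2e hn.adj2)
    (fun i hi => (C.mem_Fs_inl).2 (qSt _ (hix.le hi))) hv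
  have hreal : ∀ (w : List ℕ) (k : ℕ), k + w.length = y.length →
      real C (items x w (fun i => f (i + k)) (fun i => h1 (ix (i + k)))
        (fun i => h2 (ix (i + k))) (fun i => md (i + k))) = outp (l.drop (ix k)) := by
    intro w
    induction w with
    | nil =>
      intro k hk
      have : k = y.length := by simpa using hk
      rw [this, hix.top, List.drop_length]
      rfl
    | cons s w ih =>
      intro k hk
      simp only [List.length_cons] at hk
      have ih' := ih (k+1) (by omega)
      have hst := hix.step k (by omega)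
      have hle := hix.le (i := k+1) (by omega)
      rw [items, real_app]
      simp only [show ∀ i, i + 1 + k = i + (k + 1) from fun i => by ring]
      rw [ih']
      simp only [zero_add]
      by_cases he : ix (k+1) = ix k
      · have : md k = Mode.skip := if_pos he
        rw [this, he]
        rfl
      · have he' : ix (k+1) = ix k + 1 := by omega
        have hlt : ix k < l.length := by omega
        have hm : md k = Mode.virt (qst (ix k), l.getD (ix k) (none, none, none),
            qst (ix k + 1)) := if_neg he
        have hl : l[ix k]? = some l[ix k] := List.getElem?_eq_getElem hlt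
        have hg : l.getD (ix k) (none, none, none) = l[ix k] := by
          rw [List.getD_eq_getElem?_getD, hl]; rfl
        rw [hm, hg, he', List.drop_eq_getElem_cons hlt]
        have : ∀ (o : Op) (L : List Op), outp (o :: L) = o.1.toList ++ outp L := by
          intro o L
          unfold outp
          cases ho : o.1 with
          | none => simp [ho]
          | some a => simp [ho]
        rw [this]
        simp [itm, real, realI]
  have hz : real C (items x y f (fun i => h1 (ix i)) (fun i => h2 (ix i)) md) = z := by
    have := hreal y 0 (by simp)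
    simp only [add_zero] at this
    rw [this, hix.zero, List.drop_zero, hn.out]
  constructor
  · intro a ha
    show a ∈ T2 G C
    rw [mem_T2]
    left
    rw [← hn.out] at ha
    unfold outp at ha
    rw [List.mem_filterMap] at ha
    obtain ⟨o, ho1, ho2⟩ := ha
    obtain ⟨i, hi, hi2⟩ := List.getElem_of_mem ho1
    have := q2 i o (by rw [List.getElem?_eq_getElem hi, hi2])
    exact C.hO _ this a (by rw [ho2]; rfl)
  · rw [hz] at hlab
    have e1 : f 0 = Sum.inl C.qs := by
      show (Sum.inl (qst (ix 0)) : Face) = _
      rw [hix.zero, q0]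
    have e2 : f y.length = Sum.inl C.qf := by
      show (Sum.inl (qst (ix y.length)) : Face) = _
      rw [hix.top, q1]
    rw [e1, e2] at hlab
    simp only [hix.zero, hix.top, hn.h1s, hn.h1e, hn.h2s, hn.h2e, st_self] at hlab
    exact hlab

end

end Pool.Agent.Helper273.GF
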