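import Pool.Agent.Helper273.GF.Ctrl2
import Pool.Agent.Helper273.GF.Lab2

/-!
Completeness of the control system of a type-0 grammar.
-/

set_option linter.unusedVariables false
set_option linter.unusedSectionVars false

namespace Pool.Agent.Helper273.GF

inductive Walk (x : ℕ → ℕ) : ℕ → ℕ → List Op → ℕ → ℕ → Prop
  | nil (a b : ℕ) : Walk x a b [] a b
  | cons {a b a1 b1 a' b' : ℕ} {o : Op} {l : List Op} : adj a a1 → adj b b1 →
      o.2.1 = st x a a1 → o.2.2 = st x b b1 → Walk x a1 b1 l a' b' → Walk x a b (o :: l) a' b'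

theorem Walk.app {x : ℕ → ℕ} {a b a1 b1 a2 b2 : ℕ} {l m : List Op} (h : Walk x a b l a1 b1)
    (h2 : Walk x a1 b1 m a2 b2) : Walk x a b (l ++ m) a2 b2 := by
  induction h with
  | nil => exact h2
  | cons c1 c2 c3 c4 _ ih => exact Walk.cons c1 c2 c3 c4 (ih h2)

theorem Walk.cast {x : ℕ → ℕ} {a b a' b' c d c' d' : ℕ} {l : List Op}
    (h : Walk x a b l a' b') (e1 : a = c) (e2 : b = d) (e3 : a' = c') (e4 : b' = d') :
    Walk x c d l c' d' := by
  subst e1; subst e2; subst e3; subst e4; exact h

theorem Walk.heights {x : ℕ → ℕ} {a b a' b' : ℕ} {l : List Op} (h : Walk x a b l a' b') :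
    ∃ h1 h2 : ℕ → ℕ, h1 0 = a ∧ h1 l.length = a' ∧ h2 0 = b ∧ h2 l.length = b' ∧
      (∀ i, i < l.length → adj (h1 i) (h1 (i+1))) ∧ (∀ i, i < l.length → adj (h2 i) (h2 (i+1))) ∧
      ∀ i o, l[i]? = some o → o.2.1 = st x (h1 i) (h1 (i+1)) ∧
        o.2.2 = st x (h2 i) (h2 (i+1)) := by
  induction h with
  | nil a b =>
    exact ⟨fun _ => a, fun _ => b, rfl, rfl, rfl, rfl, by intro i hi; simp at hi,
      by intro i hi; simp at hi, by intro i o ho; simp at ho⟩
  | @cons a b a1 b1 a' b' o l c1 c2 c3 c4 _ ih =>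
    obtain ⟨h1, h2, e1, e2, e3, e4, e5, e6, e7⟩ := ih
    refine ⟨fun i => match i with | 0 => a | i+1 => h1 i, fun i => match i with | 0 => b | i+1 => h2 i,
      rfl, e2, rfl, e4, ?_, ?_, ?_⟩
    · intro i hi
      cases i with
      | zero => show adj a (h1 0); rw [e1]; exact c1
      | succ i => exact e5 i (by simpa using hi)
    · intro i hi
      cases i with
      | zero => show adj b (h2 0); rw [e3]; exact c2
      | succ i => exact e6 i (by simpa using hi)
    · intro i o' ho
      cases i with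
      | zero =>
        simp only [List.getElem?_cons_zero, Option.some.injEq] at ho
        subst ho
        show o.2.1 = st x a (h1 0) ∧ o.2.2 = st x b (h2 0)
        rw [e1, e3]
        exact ⟨c3, c4⟩
      | succ i =>
        simp only [List.getElem?_cons_succ] at ho
        exact e7 i o' ho

def At (x : ℕ → ℕ) : ℕ → List ℕ → Prop
  | _, [] => True
  | p, s :: v => x p = s ∧ At x (p+1) v

theorem At.split {x : ℕ → ℕ} {u v : List ℕ} : ∀ {p : ℕ}, At x p (u ++ v) →
    At x p u ∧ At x (p + u.length) v := by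
  induction u with
  | nil => intro p h; exact ⟨trivial, h⟩
  | cons s u ih =>
    intro p h
    obtain ⟨h1, h2⟩ := h
    obtain ⟨h3, h4⟩ := ih h2
    refine ⟨⟨h1, h3⟩, ?_⟩
    rw [List.length_cons, show p + (u.length + 1) = p + 1 + u.length by ring]
    exact h4

theorem at_getD (f : ℕ) (D : List ℕ) : ∀ pre : List ℕ,
    At (fun i => (pre ++ D).getD i f) pre.length D := by
  induction D with
  | nil => intro pre; trivial
  | cons s D ih =>
    intro pre
    refine ⟨by simp, ?_⟩
    have := ih (pre ++ [s])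
    rw [List.length_append, List.length_singleton, List.append_assoc] at this
    exact this

theorem adj_up (a : ℕ) : adj a (a+1) := ⟨by omega, by omega⟩
theorem adj_dn (a : ℕ) : adj (a+1) a := ⟨by omega, by omega⟩
theorem st_up (x : ℕ → ℕ) (a : ℕ) : st x a (a+1) = some (x a, true) := by
  unfold st; rw [if_pos rfl]
theorem st_dn (x : ℕ → ℕ) (a : ℕ) : st x (a+1) a = some (x a, false) := by
  unfold st; rw [if_neg (by omega), if_pos rfl]

theorem walk_w1 {x : ℕ → ℕ} (b : ℕ) (v : List ℕ) : ∀ {a : ℕ}, At x a v →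
    Walk x a b (v.map w1) (a + v.length) b := by
  induction v with
  | nil => intro a _; exact Walk.nil a b
  | cons s v ih =>
    intro a h
    rw [List.map_cons, List.length_cons, show a + (v.length + 1) = a + 1 + v.length by ring]
    refine Walk.cons (adj_up a) (adj_refl b) ?_ ?_ (ih h.2)
    · rw [st_up, h.1]; rfl
    · rw [st_self]; rfl

theorem walk_w2 {x : ℕ → ℕ} (a : ℕ) (v : List ℕ) : ∀ {b : ℕ}, At x b v →
    Walk x a b (v.map w2) a (b + v.length) := by
  induction v with
  | nil => intro b _; exact Walk.nil a b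
  | cons s v ih =>
    intro b h
    rw [List.map_cons, List.length_cons, show b + (v.length + 1) = b + 1 + v.length by ring]
    refine Walk.cons (adj_refl a) (adj_up b) ?_ ?_ (ih h.2)
    · rw [st_self]; rfl
    · rw [st_up, h.1]; rfl

theorem walk_wo {x : ℕ → ℕ} (a : ℕ) (v : List ℕ) : ∀ {b : ℕ}, At x b v →
    Walk x a b (v.map wo) a (b + v.length) := by
  induction v with
  | nil => intro b _; exact Walk.nil a b
  | cons s v ih =>
    intro b h
    rw [List.map_cons, List.length_cons, show b + (v.length + 1) = b + 1 + v.length by ring]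
    refine Walk.cons (adj_refl a) (adj_up b) ?_ ?_ (ih h.2)
    · rw [st_self]; rfl
    · rw [st_up, h.1]; rfl

theorem walk_cp {x : ℕ → ℕ} (v : List ℕ) : ∀ {a b : ℕ}, At x a v → At x b v →
    Walk x a b (v.map cp) (a + v.length) (b + v.length) := by
  induction v with
  | nil => intro a b _ _; exact Walk.nil a b
  | cons s v ih =>
    intro a b h h'
    rw [List.map_cons, List.length_cons, show a + (v.length + 1) = a + 1 + v.length by ring,
      show b + (v.length + 1) = b + 1 + v.length by ring]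
    refine Walk.cons (adj_up a) (adj_up b) ?_ ?_ (ih h.2 h'.2)
    · rw [st_up, h.1]; rfl
    · rw [st_up, h'.1]; rfl

def retl (x : ℕ → ℕ) : ℕ → List Op
  | 0 => []
  | n+1 => rt (x n) :: retl x n

theorem walk_ret (x : ℕ → ℕ) (n : ℕ) : Walk x n n (retl x n) 0 0 := by
  induction n with
  | zero => exact Walk.nil 0 0
  | succ n ih =>
    refine Walk.cons (adj_dn n) (adj_dn n) ?_ ?_ ih
    · rw [st_dn]; rfl
    · rw [st_dn]; rfl

theorem walk_idl (x : ℕ → ℕ) (a b : ℕ) : Walk x a b [idl] a b :=
  Walk.cons (adj_refl a) (adj_refl b) (by rw [st_self]; rfl) (by rw [st_self]; rfl)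
    (Walk.nil a b)

theorem outp_retl (x : ℕ → ℕ) (n : ℕ) : outp (retl x n) = [] := by
  induction n with
  | zero => rfl
  | succ n ih => rw [retl, outp_cons, ih]; rfl

theorem outp_cp (m : List ℕ) : outp (m.map cp) = [] := by
  induction m with
  | nil => rfl
  | cons a m ih => rw [List.map_cons, outp_cons, ih]; rfl

section
variable {G : Grammar}

theorem path_pend (m : List Op) (h : ((0, m) : Qs) ∈ StF G) :
    Path (TrF G) (0, m) m (0, []) := by
  induction m with
  | nil => exact Path.nil _
  | cons o r ih =>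
    have h' := (mem_StF G _).1 h
    obtain ⟨h1, h2, h3⟩ := h'
    have hr : ((0, r) : Qs) ∈ StF G := by
      rw [mem_StF]
      refine ⟨h1, ?_, fun o' ho' => h3 o' (List.mem_cons_of_mem _ ho')⟩
      have h2' : (o :: r).length ≤ KK G := h2
      rw [List.length_cons] at h2'
      show r.length ≤ KK G
      omega
    refine Path.cons ?_ (ih hr)
    rw [mem_TrF]
    exact ⟨⟨h, h3 o (List.mem_cons_self), hr⟩, TrP.pend o r⟩

theorem path_cp (v : List ℕ) (h : ∀ s ∈ v, s ∈ V1 G) : Path (TrF G) (0, []) (v.map cp) (0, []) := by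
  induction v with
  | nil => exact Path.nil _
  | cons s v ih =>
    refine Path.cons ?_ (ih (fun s hs => h s (List.mem_cons_of_mem _ hs)))
    rw [mem_TrF]
    have hs := h s List.mem_cons_self
    exact ⟨⟨nil_St G 0 (by norm_num), cp_Ops G hs, nil_St G 0 (by norm_num)⟩, TrP.copy s hs⟩

theorem path_wo (v : List ℕ) (h : ∀ s ∈ v, s ∈ G.T) : Path (TrF G) (1, []) (v.map wo) (1, []) := by
  induction v with
  | nil => exact Path.nil _
  | cons s v ih =>
    refine Path.cons ?_ (ih (fun s hs => h s (List.mem_cons_of_mem _ hs)))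
    rw [mem_TrF]
    have hs := h s List.mem_cons_self
    exact ⟨⟨nil_St G 1 (by norm_num), wo_Ops G hs, nil_St G 1 (by norm_num)⟩, TrP.out s hs⟩

theorem path_ret (x : ℕ → ℕ) (h : ∀ i, x i ∈ V1 G) (n : ℕ) :
    Path (TrF G) (2, []) (retl x n) (2, []) := by
  induction n with
  | zero => exact Path.nil _
  | succ n ih =>
    refine Path.cons ?_ ih
    rw [mem_TrF]
    exact ⟨⟨nil_St G 2 (by norm_num), rt_Ops G (h n), nil_St G 2 (by norm_num)⟩,
      TrP.ret _ (h n)⟩

theorem path_switch : Path (TrF G) (0, []) [idl] (1, []) := by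
  refine Path.cons ?_ (Path.nil _)
  rw [mem_TrF]
  exact ⟨⟨nil_St G 0 (by norm_num), idl_Ops G, nil_St G 1 (by norm_num)⟩, TrP.switch⟩

theorem path_fin : Path (TrF G) (1, []) [w2 (fr G)] (2, []) := by
  refine Path.cons ?_ (Path.nil _)
  rw [mem_TrF]
  exact ⟨⟨nil_St G 1 (by norm_num), w2_Ops G (fr_V1 G), nil_St G 2 (by norm_num)⟩, TrP.fin⟩

theorem path_rule {r : List ℕ × List ℕ} (hr : r ∈ G.P) :
    Path (TrF G) (0, []) (idl :: mac r) (0, []) := by
  refine Path.cons ?_ (path_pend _ (mac_St G hr))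
  rw [mem_TrF]
  exact ⟨⟨nil_St G 0 (by norm_num), idl_Ops G, mac_St G hr⟩, TrP.rule r hr⟩

theorem run {z : List ℕ} (hz : ∀ a ∈ z, a ∈ G.T) {w : List ℕ} (h : Der G w z)
    (hw : ∀ c ∈ w, c ∈ G.V) : ∃ (E : List ℕ) (l : List Op), (∀ c ∈ E, c ∈ V1 G) ∧
      Path (TrF G) (0, []) l (2, []) ∧ outp l = z ∧
      ∀ (x : ℕ → ℕ) (p : ℕ), At x p (w ++ fr G :: E) →
        Walk x (p + w.length + 1) p l (p + w.length + 1 + E.length)
          (p + w.length + 1 + E.length) := by
  induction h using Relation.ReflTransGen.head_induction_on with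
  | refl =>
    refine ⟨[], [idl] ++ (z.map wo ++ [w2 (fr G)]), by simp,
      path_switch.app ((path_wo z hz).app path_fin), ?_, ?_⟩
    · rw [outp_app, outp_app, outp_wo]
      simp [outp, idl, w2]
    · intro x p hx
      obtain ⟨h1, h2, _⟩ := hx.split
      refine (walk_idl x _ _).app ((walk_wo _ z h1).app ?_)
      simp only [List.length_nil, add_zero]
      refine Walk.cons (adj_refl _) (adj_up _) ?_ ?_ (Walk.nil _ _)
      · rw [st_self]; rfl
      · rw [st_up, h2]; rfl
  | @head w w' h0 _ ih =>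
    obtain ⟨r, hr, a, b, rfl, rfl⟩ := h0
    have ha : ∀ c ∈ a, c ∈ G.V := fun c hc => hw c (by simp [hc])
    have hb : ∀ c ∈ b, c ∈ G.V := fun c hc => hw c (by simp [hc])
    obtain ⟨E, l, h1, h2, h3, h4⟩ := ih (by
      intro c hc
      rw [List.mem_append, List.mem_append] at hc
      rcases hc with (hc | hc) | hc
      · exact ha c hc
      · exact G.P_rhs r hr c hc
      · exact hb c hc)
    have hfr : Path (TrF G) (0, []) ([fr G].map cp) (0, []) :=
      path_cp _ (by intro s hs; rw [List.mem_singleton] at hs; subst hs; exact fr_V1 G)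
    refine ⟨(a ++ r.2 ++ b) ++ fr G :: E, a.map cp ++ ((idl :: mac r) ++ (b.map cp ++
      ([fr G].map cp ++ l))), ?_, ?_, ?_, ?_⟩
    · intro c hc
      rw [List.mem_append, List.mem_append, List.mem_append, List.mem_cons] at hc
      rcases hc with ((hc | hc) | hc) | hc | hc
      · exact V1_of G (ha c hc)
      · exact V1_of G (G.P_rhs r hr c hc)
      · exact V1_of G (hb c hc)
      · subst hc; exact fr_V1 G
      · exact h1 c hc
    · exact (path_cp a (fun s hs => V1_of G (ha s hs))).app ((path_rule hr).app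
        ((path_cp b (fun s hs => V1_of G (hb s hs))).app (hfr.app h2)))
    · rw [outp_app, outp_app, outp_app, outp_app, outp_cp, outp_cp, outp_cp, h3, outp_cons]
      unfold mac
      rw [outp_app, outp_w1, outp_w2]
      rfl
    · intro x p hx
      obtain ⟨x1, x2, x3⟩ := hx.split
      have hx4 := h4 x _ x3
      have x5 := x1.split
      have x6 := x5.1.split
      have y1 := x3.split
      have y5 := y1.1.split
      have y6 := y5.1.split
      have y7 : x _ = fr G := y1.2.1
      simp only [List.length_append, List.length_cons] at x2 x6 x5 y6 y7 y5 hx4 ⊢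
      generalize hA : a.length = A at *
      generalize hB : b.length = B at *
      generalize hR1 : r.1.length = R1 at *
      generalize hR2 : r.2.length = R2 at *
      generalize hq : p + (A + R1 + B) + 1 = q at *
      have s1 : Walk x q p (a.map cp) (q + A) (p + A) :=
        (walk_cp a y6.1 x6.1).cast rfl rfl (by rw [hA]) (by rw [hA])
      have s2 : Walk x (q + A) (p + A) [idl] (q + A) (p + A) := walk_idl x _ _
      have s3 : Walk x (q + A) (p + A) (r.2.map w1) (q + A + R2) (p + A) :=
        (walk_w1 (p + A) r.2 y6.2).cast rfl rfl (by rw [hR2]) rfl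
      have s4 : Walk x (q + A + R2) (p + A) (r.1.map w2) (q + A + R2) (p + A + R1) :=
        (walk_w2 (q + A + R2) r.1 x6.2).cast rfl rfl rfl (by rw [hR1])
      have s5 : Walk x (q + A + R2) (p + A + R1) (b.map cp) (q + A + R2 + B)
          (p + A + R1 + B) :=
        (walk_cp b y5.2 x5.2).cast (by omega) (by omega) (by omega) (by omega)
      have y7' : x (q + A + R2 + B) = fr G := by
        rw [← y7]; congr 1; omega
      have x2' : x (p + A + R1 + B) = fr G := by
        rw [← x2]; congr 1; omega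
      have s6 : Walk x (q + A + R2 + B) (p + A + R1 + B) ([fr G].map cp) (q + A + R2 + B + 1)
          (p + A + R1 + B + 1) :=
        walk_cp [fr G] ⟨y7', trivial⟩ ⟨x2', trivial⟩
      have s7 : Walk x (q + A + R2 + B + 1) (p + A + R1 + B + 1) l
          (q + (A + R2 + B + (E.length + 1))) (q + (A + R2 + B + (E.length + 1))) :=
        hx4.cast (by omega) (by omega) (by omega) (by omega)
      exact s1.app ((s2.app (s3.app s4)).app (s5.app (s6.app s7)))

theorem ctl_complete {z : List ℕ} (h : z ∈ G.lang) :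
    ∃ l x h1 h2, (ctl G).Nice z l x h1 h2 := by
  obtain ⟨hz, hd⟩ := h
  obtain ⟨E, l, e1, e2, e3, e4⟩ := run hz hd (by
    intro c hc
    rw [List.mem_singleton] at hc
    subst hc
    exact S_V G)
  let D : List ℕ := G.S :: fr G :: E
  let x : ℕ → ℕ := fun i => D.getD i (fr G)
  have hD : ∀ c ∈ D, c ∈ V1 G := by
    intro c hc
    have hc' : c ∈ G.S :: fr G :: E := hc
    rw [List.mem_cons, List.mem_cons] at hc'
    rcases hc' with rfl | rfl | hc'
    · exact V1_of G (S_V G)
    · exact fr_V1 G
    · exact e1 c hc'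
  have hx : ∀ i, x i ∈ V1 G := by
    intro i
    show D.getD i (fr G) ∈ V1 G
    rw [List.getD_eq_getElem?_getD]
    cases hi : D[i]? with
    | none => exact fr_V1 G
    | some c => exact hD c (List.mem_of_getElem? hi)
  have hat : At x 0 ([G.S] ++ fr G :: E) := at_getD (fr G) D []
  have w0 := e4 x 0 hat
  have wi : Walk x 0 0 (iniM G) 2 0 := walk_w1 0 [G.S, fr G] ⟨hat.1, hat.2.1, trivial⟩
  have wt : Walk x 0 0 (iniM G ++ (l ++ retl x (2 + E.length))) 0 0 :=
    wi.app ((w0.cast (by simp) rfl (by simp) (by simp)).app (walk_ret x _))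
  obtain ⟨h1, h2, f1, f2, f3, f4, f5, f6, f7⟩ := wt.heights
  refine ⟨_, x, h1, h2, ⟨?_, ?_, hx, f1, f2, f3, f4, f5, f6, f7⟩⟩
  · exact (path_pend _ (qs_St G)).app (e2.app (path_ret x hx _))
  · rw [outp_app, outp_app, outp_retl, e3, List.append_nil]
    unfold iniM
    rw [outp_cons, outp_cons]
    rfl

end

end Pool.Agent.Helper273.GF
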