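import Mathlib

/-!
Grammars, g-interpretations and g-grammatical families.
-/

namespace Pool.Agent.Helper273.GF

/-- A grammar `(V, T, P, S)`: `V` is the finite total alphabet (symbols are natural
numbers), `T ⊆ V` the terminal alphabet, `S ∈ V \ T` the start symbol and `P` a finite
set of productions `α → β` over `V` in which `α` contains a nonterminal. -/
structure Grammar where
  V : Finset ℕ
  T : Finset ℕ
  P : Finset (List ℕ × List ℕ)
  S : ℕ
  T_sub : T ⊆ V
  S_mem : S ∈ V \ T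
  P_lhs : ∀ r ∈ P, ∀ x ∈ r.1, x ∈ V
  P_rhs : ∀ r ∈ P, ∀ x ∈ r.2, x ∈ V
  P_nt : ∀ r ∈ P, ∃ x ∈ r.1, x ∈ V \ T

/-- One rewriting step. -/
def Grammar.Step (G : Grammar) (u v : List ℕ) : Prop :=
  ∃ r ∈ G.P, ∃ x y : List ℕ, u = x ++ r.1 ++ y ∧ v = x ++ r.2 ++ y

/-- The language generated by a grammar. -/
def Grammar.lang (G : Grammar) : Set (List ℕ) :=
  {w | (∀ a ∈ w, a ∈ G.T) ∧ Relation.ReflTransGen G.Step [G.S] w}

/-- `G` is context-free: every left side is a single nonterminal. -/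
def Grammar.IsCF (G : Grammar) : Prop :=
  ∀ r ∈ G.P, ∃ A ∈ G.V \ G.T, r.1 = [A]

/-- The set of words obtained from a word by a finite substitution. -/
def substWord (μ : ℕ → Finset (List ℕ)) : List ℕ → Set (List ℕ)
  | [] => {[]}
  | x :: α => {w | ∃ u ∈ μ x, ∃ v ∈ substWord μ α, w = u ++ v}

/-- `G₁` is a g-interpretation of the grammar form `G₂` by the substitution `μ`. -/
structure GInterp (μ : ℕ → Finset (List ℕ)) (G₂ G₁ : Grammar) : Prop where
  term : ∀ a ∈ G₂.T, ∀ w ∈ μ a, ∀ x ∈ w, x ∈ G₁.T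
  nont : ∀ A ∈ G₂.V \ G₂.T, ∀ w ∈ μ A, ∃ B ∈ G₁.V \ G₁.T, w = [B]
  disj : ∀ A ∈ G₂.V \ G₂.T, ∀ B ∈ G₂.V \ G₂.T, A ≠ B → Disjoint (μ A) (μ B)
  prod : ∀ r ∈ G₁.P, ∃ s ∈ G₂.P, r.1 ∈ substWord μ s.1 ∧ r.2 ∈ substWord μ s.2
  start : [G₁.S] ∈ μ G₂.S

/-- The g-grammatical family of a grammar form. -/
def gFamily (G : Grammar) : Set (Set (List ℕ)) :=
  {L | ∃ G₁ μ, GInterp μ G G₁ ∧ L = G₁.lang}

/-- The family `L(CF)` of context-free languages. -/
def CFFamily : Set (Set (List ℕ)) := {L | ∃ G : Grammar, G.IsCF ∧ L = G.lang}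

/-- The family `L(RE)` of recursively enumerable languages: the languages generated by
arbitrary (type 0) grammars. -/
def REFamily : Set (Set (List ℕ)) := {L | ∃ G : Grammar, L = G.lang}

/-- Two languages that differ at most by the empty word. -/
def SameLang (L L' : Set (List ℕ)) : Prop := ∀ w, w ≠ [] → (w ∈ L ↔ w ∈ L')

/-- Inclusion of families of languages, languages being identified up to the empty word. -/
def FamSub (F F' : Set (Set (List ℕ))) : Prop := ∀ L ∈ F, ∃ L' ∈ F', SameLang L L'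

/-- Equality of families of languages, languages being identified up to the empty word. -/
def FamEq (F F' : Set (Set (List ℕ))) : Prop := FamSub F F' ∧ FamSub F' F

end Pool.Agent.Helper273.GF
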