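import Mathlib

/-!
Cyclic metrics: a crossing quadruple of arcs gives a spread selection of edges.
-/

set_option linter.unusedVariables false
set_option linter.unusedSectionVars false

namespace Pool.Agent.Helper273.GF

structure Cyc (M : ℤ) (e : ℤ → ℤ → ℕ) : Prop where
  Mpos : 0 < M
  diag : ∀ i, e i i = 0
  symm : ∀ i j, e i j = e j i
  per : ∀ i j, e (i + M) j = e i j
  unit : ∀ i, e i (i+1) ≤ 1
  k1 : ∀ i j k l, i ≤ j → j ≤ k → k ≤ l → l ≤ i + M → e i j + e k l ≤ e i k + e j l
  k2 : ∀ i j k l, i ≤ j → j ≤ k → k ≤ l → l ≤ i + M → e i l + e j k ≤ e i k + e j l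

structure Cor (M : ℤ) (e : ℤ → ℤ → ℕ) (N : ℕ) (a : ℤ → ℤ) : Prop where
  mono : ∀ t, a t < a (t+1)
  per : ∀ t, a (t+4) = a t + M
  sep : ∀ t x y, a t ≤ x → x ≤ a (t+1) → a (t+2) ≤ y → y ≤ a (t+3) → N ≤ e x y

def Small (a : ℤ → ℤ) (i j : ℤ) : Prop := ∀ t, ¬ (i ≤ a t ∧ a (t+1) ≤ j)

theorem add_mul_shift (f : ℤ → ℤ) (M c : ℤ) (h : ∀ x, f (x + M) = f x + c) (k : ℤ) :
    ∀ x, f (x + k * M) = f x + k * c := by
  induction k using Int.induction_on with
  | zero => intro x; simp
  | succ k ih =>
    intro x
    rw [show x + ((k:ℤ) + 1) * M = (x + k * M) + M by ring, h, ih]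
    ring
  | pred k ih =>
    intro x
    have h1 := h (x + (-(k:ℤ) - 1) * M)
    rw [show x + (-(k:ℤ) - 1) * M + M = x + (-(k:ℤ)) * M by ring, ih] at h1
    have : f (x + (-(k:ℤ) - 1) * M) = f x + -(k:ℤ) * c - c := by linarith
    rw [this]
    ring

namespace Cyc
variable {M : ℤ} {e : ℤ → ℤ → ℕ} (h : Cyc M e)
include h

theorem per' (i j : ℤ) : e i (j + M) = e i j := by
  rw [h.symm, h.per, h.symm]

theorem shiftL (k i j : ℤ) : e (i + k * M) j = e i j := by
  have := add_mul_shift (fun x => (e x j : ℤ)) M 0 (fun x => by simp [h.per]) k i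
  simpa using this

theorem shift (k i j : ℤ) : e (i + k * M) (j + k * M) = e i j := by
  rw [h.shiftL, h.symm, h.shiftL, h.symm]

end Cyc

section
variable {M : ℤ} {e : ℤ → ℤ → ℕ} {N : ℕ} {a : ℤ → ℤ}

theorem Cor.mono' (h : Cor M e N a) : StrictMono a := strictMono_int_of_lt_succ h.mono

theorem Cor.shift (h : Cor M e N a) (k t : ℤ) : a (t + k * 4) = a t + k * M :=
  add_mul_shift a 4 M h.per k t

theorem Small.shift (h : Cor M e N a) {i j : ℤ} (hs : Small a i j) (k : ℤ) :
    Small a (i + k * M) (j + k * M) := by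
  intro t ht
  apply hs (t - k * 4)
  have e1 := h.shift k (t - k * 4)
  have e2 := h.shift k (t - k * 4 + 1)
  rw [sub_add_cancel] at e1
  rw [show t - k * 4 + 1 + k * 4 = t + 1 by ring] at e2
  constructor
  · linarith [ht.1]
  · linarith [ht.2]

theorem Small.sub {i j i' j' : ℤ} (hs : Small a i j) (h1 : i ≤ i') (h2 : j' ≤ j) :
    Small a i' j' := fun t ht => hs t ⟨le_trans h1 ht.1, le_trans ht.2 h2⟩

/-- A short chord has a small side. -/
theorem fact1 (h : Cyc M e) (hc : Cor M e N a) {i j : ℤ} (hij : i ≤ j) (hj : j ≤ i + M)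
    (hN : e i j < N) : Small a i j ∨ Small a j (i + M) := by
  by_contra hcon
  unfold Small at hcon
  push Not at hcon
  obtain ⟨⟨t, t1, t2⟩, ⟨s, s1, s2⟩⟩ := hcon
  have am := hc.mono'
  have hs3 : s + 1 ≤ t + 4 := by
    by_contra hh
    have := am (show t + 4 < s + 1 by omega)
    rw [hc.per] at this
    omega
  have hs1 : t + 1 ≤ s := by
    by_contra hh
    have := am (show s < t + 1 by omega)
    omega
  have p1 := hc.per t
  have p2 := hc.per (t-1)
  have p3 := hc.per (t-2)
  have p4 := hc.per (t-3)
  rw [show t - 1 + 4 = t + 3 by ring] at p2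
  rw [show t - 2 + 4 = t + 2 by ring] at p3
  rw [show t - 3 + 4 = t + 1 by ring] at p4
  have m1 := hc.mono (t-2)
  have m2 := hc.mono (t-1)
  have m3 := hc.mono t
  have m4 := hc.mono (t+1)
  have m5 := hc.mono (t+2)
  rw [show t - 2 + 1 = t - 1 by ring] at m1
  rw [show t - 1 + 1 = t by ring] at m2
  rw [show t + 1 + 1 = t + 2 by ring] at m4
  rw [show t + 2 + 1 = t + 3 by ring] at m5
  have sepA := hc.sep (t-1) i j
  rw [show t - 1 + 1 = t by ring, show t - 1 + 2 = t + 1 by ring,
    show t - 1 + 3 = t + 2 by ring] at sepA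
  have sepB := hc.sep (t-2) i j
  rw [show t - 2 + 1 = t - 1 by ring, show t - 2 + 2 = t by ring,
    show t - 2 + 3 = t + 1 by ring] at sepB
  have sepC := hc.sep t i j
  have hcase : s = t + 1 ∨ s = t + 2 ∨ s = t + 3 := by omega
  rcases hcase with rfl | rfl | rfl
  · rw [show t + 1 + 1 = t + 2 by ring] at s2
    rcases le_total (a (t-1)) i with g | g
    · have := sepA g t1 (by omega) (by omega); omega
    · have := sepB (by omega) g (by omega) (by omega); omega
  · rw [show t + 2 + 1 = t + 3 by ring] at s2
    have := sepA (by omega) t1 (by omega) (by omega); omega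
  · rw [show t + 3 + 1 = t + 4 by ring] at s2
    rcases le_total j (a (t+2)) with g | g
    · have := sepA (by omega) t1 (by omega) g; omega
    · have := sepC (by omega) (by omega) g (by omega); omega

/-- Three small arcs do not cover the cycle. -/
theorem fact2 (hM : 0 < M) (hc : Cor M e N a) {i j i' j' : ℤ} (h1 : i ≤ i') (h2 : i' ≤ j) (h3 : j ≤ j')
    (h4 : j' ≤ i + M) (s1 : Small a i j) (s2 : Small a i' j') (s3 : Small a j' (i + M)) :
    False := by
  have am := hc.mono'
  -- the least t with i ≤ a t
  have hlow : ∃ b : ℤ, ∀ z : ℤ, i ≤ a z → b ≤ z := by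
    have hk : ∃ k : ℤ, a (0 + k * 4) < i := by
      refine ⟨-(|i - a 0| + 1), ?_⟩
      rw [hc.shift]
      have : |i - a 0| + 1 ≤ (|i - a 0| + 1) * M := by
        nlinarith [abs_nonneg (i - a 0)]
      have h5 := neg_abs_le (i - a 0)
      nlinarith
    obtain ⟨k, hk⟩ := hk
    refine ⟨0 + k * 4, fun z hz => ?_⟩
    by_contra hcon
    have := am (lt_of_not_ge hcon)
    omega
  have hex : ∃ z : ℤ, i ≤ a z := by
    refine ⟨0 + (|i - a 0| + 1) * 4, ?_⟩
    rw [hc.shift]
    have : |i - a 0| + 1 ≤ (|i - a 0| + 1) * M := by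
      nlinarith [abs_nonneg (i - a 0)]
    have h5 := le_abs_self (i - a 0)
    linarith
  obtain ⟨t, ht, hmin⟩ := Int.exists_least_of_bdd hlow hex
  have c0 : a (t-1) < i := by
    by_contra hcon
    have := hmin (t-1) (by omega)
    omega
  have c1 : j < a (t+1) := by
    by_contra hcon
    exact s1 t ⟨ht, by omega⟩
  have c2 : j' < a (t+2) := by
    by_contra hcon
    exact s2 (t+1) ⟨by omega, by rw [show t + 1 + 1 = t + 2 by ring]; omega⟩
  have c3 : i + M < a (t+3) := by
    by_contra hcon
    exact s3 (t+2) ⟨by omega, by rw [show t + 2 + 1 = t + 3 by ring]; omega⟩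
  have := hc.per (t-1)
  rw [show t - 1 + 4 = t + 3 by ring] at this
  omega

def Ind (M : ℤ) (e : ℤ → ℤ → ℕ) (N : ℕ) (a : ℤ → ℤ) (F : ℤ → ℤ) : Prop :=
  ∀ i j, i ≤ j → j ≤ i + M → e i j < N → Small a i j → F j - F i ≤ e i j

theorem exists_F (h : Cyc M e) (hc : Cor M e N a) (n : ℕ) (hn : n ≤ N) :
    ∃ F : ℤ → ℤ, (∀ i, F i ≤ F (i+1) ∧ F (i+1) ≤ F i + 1) ∧ (∀ i, F (i + M) = F i + n) ∧
      Ind M e N a F := by
  induction n with
  | zero =>
    refine ⟨fun _ => 0, fun i => by simp, fun i => by simp, ?_⟩
    intro i j _ _ _ _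
    simp
  | succ n ih =>
    obtain ⟨F, hF1, hF2, hF3⟩ := ih (by omega)
    by_contra hcon
    have hM := h.Mpos
    have Fmono : ∀ x y, x ≤ y → F x ≤ F y := fun x y hxy =>
      (monotone_int_of_le_succ (fun i => (hF1 i).1)) hxy
    have Fs := add_mul_shift F M n hF2
    let TA : ℤ → ℤ → Prop := fun i j => i ≤ j ∧ j ≤ i + M ∧ e i j < N ∧ Small a i j ∧
      F j - F i = e i j
    have TAshift : ∀ k i j, TA i j → TA (i + k * M) (j + k * M) := by
      rintro k i j ⟨h1, h2, h3, h4, h5⟩
      refine ⟨by linarith, by linarith, by rw [h.shift]; exact h3, h4.shift hc k, ?_⟩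
      rw [h.shift, Fs, Fs]
      linarith
    have cover : ∀ t, ∃ i j, TA i j ∧ i ≤ t ∧ t < j := by
      intro t
      by_cases ht : F (t+1) = F t + 1
      · -- the edge itself is tight
        have hsm : Small a t (t+1) := by
          intro s hs
          have h1 := hc.mono s
          have h2 : a s = t := by omega
          have h3 : a (s+1) = t + 1 := by omega
          have sep := hc.sep (s-1) (a s) (a (s+1))
          rw [show s - 1 + 1 = s by ring, show s - 1 + 2 = s + 1 by ring,
            show s - 1 + 3 = s + 2 by ring] at sep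
          have m1 := hc.mono (s-1)
          have m2 := hc.mono (s+1)
          rw [show s - 1 + 1 = s by ring] at m1
          rw [show s + 1 + 1 = s + 2 by ring] at m2
          have := sep m1.le le_rfl le_rfl m2.le
          rw [h2, h3] at this
          have hu := h.unit t
          -- N ≤ 1, so n = 0
          have hn0 : n = 0 := by omega
          subst hn0
          have p1 := hF2 t
          have p2 := Fmono (t+1) (t + M) (by omega)
          simp at p1
          omega
        have hu := h.unit t
        have hlt : e t (t+1) < N := by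
          by_contra hge
          have hn0 : n = 0 := by omega
          subst hn0
          have p1 := hF2 t
          have p2 := Fmono (t+1) (t + M) (by omega)
          simp at p1
          omega
        have h3 := hF3 t (t+1) (by omega) (by omega) hlt hsm
        exact ⟨t, t+1, ⟨by omega, by omega, hlt, hsm, by omega⟩, le_rfl, by omega⟩
      · have ht0 : F (t+1) = F t := by
          have := hF1 t
          omega
        let G : ℤ → ℤ := fun i => (i - t - 1) / M + 1
        have G1 : ∀ i, G (i + M) = G i + 1 := by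
          intro i
          show (i + M - t - 1) / M + 1 = (i - t - 1) / M + 1 + 1
          rw [show i + M - t - 1 = (i - t - 1) + 1 * M by ring,
            Int.add_mul_ediv_right _ _ hM.ne']
        have G2 : ∀ i j, i ≤ j → G i ≤ G j := by
          intro i j hij
          show (i - t - 1) / M + 1 ≤ (j - t - 1) / M + 1
          have := Int.ediv_le_ediv hM (show i - t - 1 ≤ j - t - 1 by omega)
          omega
        have G3 : ∀ i j, G i < G j → ∃ k : ℤ, i ≤ t + k * M ∧ t + k * M < j := by
          intro i j hij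
          have q1 : (i - t - 1) / M + 1 ≤ (j - t - 1) / M := by
            have : (i - t - 1) / M + 1 < (j - t - 1) / M + 1 := hij
            omega
          have q2 := Int.lt_ediv_add_one_mul_self (i - t - 1) hM
          have q3 := Int.ediv_mul_le (j - t - 1) hM.ne'
          refine ⟨(i - t - 1) / M + 1, by linarith, ?_⟩
          have : ((i - t - 1) / M + 1) * M ≤ (j - t - 1) / M * M :=
            mul_le_mul_of_nonneg_right q1 hM.le
          linarith
        have hne : ¬ Ind M e N a (fun i => F i + G i) := by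
          intro hI
          apply hcon
          refine ⟨fun i => F i + G i, ?_, ?_, hI⟩
          · intro i
            have f1 := hF1 i
            have g1 := G2 i (i+1) (by omega)
            have g2 := G2 (i+1) (i+M) (by omega)
            rw [G1] at g2
            refine ⟨by linarith, ?_⟩
            by_cases hg : G i < G (i+1)
            · obtain ⟨k, k1, k2⟩ := G3 i (i+1) hg
              have hk : i = t + k * M := by omega
              have e1 := Fs k t
              have e2 := Fs k (t+1)
              rw [← hk] at e1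
              rw [show t + 1 + k * M = i + 1 by rw [hk]; ring] at e2
              show F (i+1) + G (i+1) ≤ F i + G i + 1
              linarith
            · show F (i+1) + G (i+1) ≤ F i + G i + 1
              linarith
          · intro i
            show F (i + M) + G (i + M) = F i + G i + ((n + 1 : ℕ) : ℤ)
            rw [hF2, G1]
            push_cast
            ring
        unfold Ind at hne
        push Not at hne
        obtain ⟨i, j, h1, h2, h3, h4, h5⟩ := hne
        have f3 := hF3 i j h1 h2 h3 h4
        have g2 := G2 j (i + M) h2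
        rw [G1] at g2
        have hg : G i < G j := by linarith
        obtain ⟨k, k1, k2⟩ := G3 i j hg
        have hTA : TA i j := ⟨h1, h2, h3, h4, by omega⟩
        have := TAshift (-k) i j hTA
        exact ⟨_, _, this, by linarith, by linarith⟩
    -- longest tight arc
    obtain ⟨i0, j0, hT0, hi0, hj0⟩ := cover 0
    let P : ℕ → Prop := fun L => ∃ i, TA i (i + L)
    have hP0 : P (j0 - i0).toNat := by
      refine ⟨i0, ?_⟩
      rw [show i0 + ((j0 - i0).toNat : ℤ) = j0 by omega]
      exact hT0
    have hPb : ∀ L, P L → L ≤ M.toNat := by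
      rintro L ⟨i, hi⟩
      have := hi.2.1
      omega
    classical
    obtain ⟨L, ⟨i, hT⟩, hmax⟩ : ∃ L, P L ∧ ∀ L', P L' → L' ≤ L :=
      ⟨Nat.findGreatest P M.toNat, Nat.findGreatest_spec (hPb _ hP0) hP0,
        fun L' h' => Nat.le_findGreatest (hPb _ h') h'⟩
    set j := i + (L : ℤ) with hj
    obtain ⟨i', j', hT', hi', hj'⟩ := cover j
    obtain ⟨a1, a2, a3, a4, a5⟩ := hT
    obtain ⟨b1, b2, b3, b4, b5⟩ := hT'
    have c1 : i < i' := by
      by_contra hge
      have : P (j' - i').toNat := by
        refine ⟨i', ?_⟩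
        rw [show i' + ((j' - i').toNat : ℤ) = j' by omega]
        exact ⟨b1, b2, b3, b4, b5⟩
      have := hmax _ this
      omega
    have c2 : j' < i + M := by
      by_contra hge
      have s3 : Small a (i + M) (i + M) := by
        intro t ht
        have := hc.mono t
        omega
      exact fact2 hM hc c1.le hi' a2 le_rfl a4 (b4.sub le_rfl (by omega)) s3
    have k := h.k2 i i' j j' c1.le hi' hj'.le c2.le
    have ksub : F j - F i' ≤ e i' j := by
      by_cases g : e i' j < N
      · exact hF3 i' j hi' (by omega) g (a4.sub c1.le le_rfl)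
      · have p1 := Fmono i i' c1.le
        have p2 := Fmono j (i + M) a2
        rw [hF2] at p2
        omega
    have q1 : F j' ≤ F i + n := by
      have := Fmono j' (i + M) c2.le
      rw [hF2] at this
      exact this
    have q2 : (e i j' : ℤ) ≤ F j' - F i := by omega
    have q3 : e i j' < N := by omega
    rcases fact1 h hc (by omega) c2.le q3 with s | s
    · have := hF3 i j' (by omega) c2.le q3 s
      have hP : P (j' - i).toNat := by
        refine ⟨i, ?_⟩
        rw [show i + ((j' - i).toNat : ℤ) = j' by omega]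
        exact ⟨by omega, c2.le, q3, s, by omega⟩
      have := hmax _ hP
      omega
    · exact fact2 hM hc c1.le hi' hj'.le c2.le a4 b4 s

/-- A spread selection of `N` edges. -/
theorem exists_spread (h : Cyc M e) (hc : Cor M e N a) :
    ∃ F : ℤ → ℤ, (∀ i, F i ≤ F (i+1) ∧ F (i+1) ≤ F i + 1) ∧ (∀ i, F (i + M) = F i + N) ∧
      ∀ i j, i ≤ j → j ≤ i + M → min (F j - F i) (N - (F j - F i)) ≤ e i j := by
  obtain ⟨F, h1, h2, h3⟩ := exists_F h hc N le_rfl
  refine ⟨F, h1, h2, fun i j hij hj => ?_⟩
  have Fmono : ∀ x y, x ≤ y → F x ≤ F y := fun x y hxy =>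
    (monotone_int_of_le_succ (fun i => (h1 i).1)) hxy
  by_cases g : e i j < N
  · rcases fact1 h hc hij hj g with s | s
    · exact le_trans (min_le_left _ _) (h3 i j hij hj g s)
    · have e1 : e j (i + M) = e i j := by rw [h.per', h.symm]
      have := h3 j (i + M) hj (by omega) (by rw [e1]; exact g) s
      rw [e1, h2] at this
      exact le_trans (min_le_right _ _) (by linarith)
  · have := Fmono i j hij
    exact le_trans (min_le_right _ _) (by omega)

end

end Pool.Agent.Helper273.GF
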