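import Pool.Agent.Helper273.GF.CFdir
import Pool.Agent.Helper273.GF.Fat

/-!
A gap metric is triangulated with bounded width, or it has a spread selection of gaps.
-/

set_option linter.unusedVariables false
set_option linter.unusedSectionVars false

namespace Pool.Agent.Helper273.GF

def rh (m : ℕ) (i : ℤ) : ℕ := (i % ((m:ℤ) + 1)).toNat

theorem rh_add (m : ℕ) (i : ℤ) : rh m (i + ((m:ℤ) + 1)) = rh m i := by
  unfold rh
  rw [Int.add_emod_right]

theorem rh_shift (m : ℕ) (k i : ℤ) : rh m (i + k * ((m:ℤ) + 1)) = rh m i := by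
  have := add_mul_shift (fun x => (rh m x : ℤ)) ((m:ℤ)+1) 0 (fun x => by simp [rh_add]) k i
  simpa using this

theorem rh_lo (m : ℕ) (i : ℤ) (h0 : 0 ≤ i) (h1 : i ≤ m) : rh m i = i.toNat := by
  unfold rh
  rw [Int.emod_eq_of_lt h0 (by omega)]

theorem rh_hi (m : ℕ) (i : ℤ) (h0 : (m:ℤ) + 1 ≤ i) (h1 : i ≤ 2 * m + 1) :
    rh m i = (i - (m + 1)).toNat := by
  have := rh_add m (i - (m+1))
  rw [sub_add_cancel] at this
  rw [this, rh_lo m _ (by omega) (by omega)]

def cyE (m : ℕ) (d : ℕ → ℕ → ℕ) : ℤ → ℤ → ℕ := fun i j => d (rh m i) (rh m j)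

theorem cyE_lo (m : ℕ) (d : ℕ → ℕ → ℕ) {i j : ℕ} (hi : i ≤ m) (hj : j ≤ m) :
    cyE m d i j = d i j := by
  unfold cyE
  rw [rh_lo m i (by omega) (by omega), rh_lo m j (by omega) (by omega)]
  simp

theorem cyc_of_kal {m : ℕ} {d : ℕ → ℕ → ℕ} (h : Kal m d) (hu : ∀ i, i < m → d i (i+1) ≤ 1)
    (ho : d 0 m ≤ 1) : Cyc ((m:ℤ)+1) (cyE m d) := by
  have hs := h.symm
  have R : ∀ {a b c e : ℕ}, K4 d a b c e → K4 d b c e a := fun h => K4.rot hs h
  have key : ∀ i j k l : ℤ, 0 ≤ i → i ≤ m → i ≤ j → j ≤ k → k ≤ l → l ≤ i + ((m:ℤ)+1) →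
      K4 d (rh m i) (rh m j) (rh m k) (rh m l) := by
    intro i j k l hi0 him hij hjk hkl hl
    rw [rh_lo m i hi0 him]
    by_cases c1 : l ≤ m
    · rw [rh_lo m j (by omega) (by omega), rh_lo m k (by omega) (by omega),
        rh_lo m l (by omega) (by omega)]
      exact h.K4 (by omega) (by omega) (by omega) (by omega)
    · rw [rh_hi m l (by omega) (by omega)]
      by_cases c2 : k ≤ m
      · rw [rh_lo m j (by omega) (by omega), rh_lo m k (by omega) (by omega)]
        exact R (h.K4 (a := (l - (m+1)).toNat) (b := i.toNat) (c := j.toNat) (e := k.toNat)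
          (by omega) (by omega) (by omega) (by omega))
      · rw [rh_hi m k (by omega) (by omega)]
        by_cases c3 : j ≤ m
        · rw [rh_lo m j (by omega) (by omega)]
          exact R (R (h.K4 (a := (k - (m+1)).toNat) (b := (l - (m+1)).toNat) (c := i.toNat)
            (e := j.toNat) (by omega) (by omega) (by omega) (by omega)))
        · rw [rh_hi m j (by omega) (by omega)]
          exact R (R (R (h.K4 (a := (j - (m+1)).toNat) (b := (k - (m+1)).toNat)
            (c := (l - (m+1)).toNat) (e := i.toNat) (by omega) (by omega) (by omega) (by omega))))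
  have key2 : ∀ i j k l : ℤ, i ≤ j → j ≤ k → k ≤ l → l ≤ i + ((m:ℤ)+1) →
      K4 d (rh m i) (rh m j) (rh m k) (rh m l) := by
    intro i j k l hij hjk hkl hl
    have hM : (0:ℤ) < (m:ℤ) + 1 := by omega
    have e1 := Int.emod_add_mul_ediv i ((m:ℤ)+1)
    have e2 := Int.emod_nonneg i hM.ne'
    have e3 := Int.emod_lt_of_pos i hM
    set q := i / ((m:ℤ)+1) with hq
    have sh : ∀ x : ℤ, rh m (x + (-q) * ((m:ℤ)+1)) = rh m x := fun x => rh_shift m (-q) x
    rw [← sh i, ← sh j, ← sh k, ← sh l]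
    have e4 : i + (-q) * ((m:ℤ)+1) = i % ((m:ℤ)+1) := by linarith
    apply key
    · rw [e4]; exact e2
    · rw [e4]; omega
    · linarith
    · linarith
    · linarith
    · linarith
  refine ⟨by omega, fun i => h.diag _, fun i j => h.symm _ _, fun i j => ?_, fun i => ?_, ?_, ?_⟩
  · show d (rh m (i + ((m:ℤ)+1))) (rh m j) = d (rh m i) (rh m j)
    rw [rh_add]
  · show d (rh m i) (rh m (i+1)) ≤ 1
    have hM : (0:ℤ) < (m:ℤ) + 1 := by omega
    have e1 := Int.emod_add_mul_ediv i ((m:ℤ)+1)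
    have e2 := Int.emod_nonneg i hM.ne'
    have e3 := Int.emod_lt_of_pos i hM
    set q := i / ((m:ℤ)+1) with hq
    have sh : ∀ x : ℤ, rh m (x + (-q) * ((m:ℤ)+1)) = rh m x := fun x => rh_shift m (-q) x
    rw [← sh i, ← sh (i+1)]
    have e4 : i + (-q) * ((m:ℤ)+1) = i % ((m:ℤ)+1) := by linarith
    have e5 : i + 1 + (-q) * ((m:ℤ)+1) = i % ((m:ℤ)+1) + 1 := by linarith
    rw [e4, e5, rh_lo m _ e2 (by omega)]
    by_cases c : i % ((m:ℤ)+1) = m
    · rw [c, rh_hi m _ le_rfl (by omega)]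
      rw [show ((m:ℤ)).toNat = m by simp, show ((m:ℤ) + 1 - (m + 1)).toNat = 0 by simp, hs]
      exact ho
    · rw [rh_lo m _ (by omega) (by omega)]
      rw [show (i % ((m:ℤ)+1) + 1).toNat = (i % ((m:ℤ)+1)).toNat + 1 by omega]
      exact hu _ (by omega)
  · exact fun i j k l h1 h2 h3 h4 => (key2 i j k l h1 h2 h3 h4).1
  · exact fun i j k l h1 h2 h3 h4 => (key2 i j k l h1 h2 h3 h4).2

/-- Corners from a stuck chord. -/
theorem corners {M : ℤ} {e : ℤ → ℤ → ℕ} (h : Cyc M e) (N : ℕ) (hN : 2 ≤ N) (p q : ℤ)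
    (hpq : p + 2 ≤ q) (hqM : q < p + M) (hK : e p q ≤ 3 * N)
    (hstuck : ∀ l, p < l → l < q → 3 * N < e p l ∨ 3 * N < e l q) :
    ∃ a, Cor M e N a := by
  have hpp := h.diag p
  have hqq := h.diag q
  have u1 := h.unit p
  have hKe : e p q = 3 * N := by
    have k := h.k2 p p (p+1) q le_rfl (by omega) (by omega) (by omega)
    rcases hstuck (p+1) (by omega) (by omega) with g | g
    · omega
    · have k2 := h.k1 p p (p+1) q le_rfl (by omega) (by omega) (by omega)
      have sy := h.symm p (p+1)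
      -- e (p+1) q ≤ e p (p+1) + e p q
      omega
  -- u : last point of [p, q] within N of p
  obtain ⟨u, ⟨⟨hu1, hu2⟩, hu3⟩, humax⟩ : ∃ u : ℤ, ((p ≤ u ∧ u ≤ q) ∧ e p u < N) ∧
      ∀ z : ℤ, ((p ≤ z ∧ z ≤ q) ∧ e p z < N) → z ≤ u :=
    Int.exists_greatest_of_bdd ⟨q, fun z hz => hz.1.2⟩ ⟨p, ⟨⟨le_rfl, by omega⟩, by omega⟩⟩
  obtain ⟨v, ⟨⟨hv1, hv2⟩, hv3⟩, hvmin⟩ : ∃ v : ℤ, ((p ≤ v ∧ v ≤ q) ∧ e v q < N) ∧
      ∀ z : ℤ, ((p ≤ z ∧ z ≤ q) ∧ e z q < N) → v ≤ z :=
    Int.exists_least_of_bdd ⟨p, fun z hz => hz.1.1⟩ ⟨q, ⟨⟨by omega, le_rfl⟩, by omega⟩⟩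
  obtain ⟨p', ⟨⟨hp1, hp2⟩, hp3⟩, hpmin⟩ : ∃ p' : ℤ, ((q - M ≤ p' ∧ p' ≤ p) ∧ e p' p < N) ∧
      ∀ z : ℤ, ((q - M ≤ z ∧ z ≤ p) ∧ e z p < N) → p' ≤ z :=
    Int.exists_least_of_bdd ⟨q - M, fun z hz => hz.1.1⟩ ⟨p, ⟨⟨by omega, le_rfl⟩, by omega⟩⟩
  obtain ⟨q', ⟨⟨hq1, hq2⟩, hq3⟩, hqmax⟩ : ∃ q' : ℤ, ((q ≤ q' ∧ q' ≤ p + M) ∧ e q q' < N) ∧
      ∀ z : ℤ, ((q ≤ z ∧ z ≤ p + M) ∧ e q z < N) → z ≤ q' :=
    Int.exists_greatest_of_bdd ⟨p + M, fun z hz => hz.1.2⟩ ⟨q, ⟨⟨le_rfl, by omega⟩, by omega⟩⟩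
  have hup : p < u := by
    have := humax (p+1) ⟨⟨by omega, by omega⟩, by omega⟩
    omega
  have huq : u < q := by
    rcases lt_or_eq_of_le hu2 with g | g
    · exact g
    · rw [g] at hu3; omega
  have hvq : v < q := by
    have u2 := h.unit (q-1)
    rw [sub_add_cancel] at u2
    have := hvmin (q-1) ⟨⟨by omega, by omega⟩, by omega⟩
    omega
  have hpv : p < v := by
    rcases lt_or_eq_of_le hv1 with g | g
    · exact g
    · rw [← g] at hv3; omega
  have huv : u < v := by
    by_contra hcon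
    have k := h.k2 p v u q hpv.le (by omega) huq.le (by omega)
    omega
  have ePM : ∀ x, e x (p + M) = e x p := fun x => h.per' x p
  have eMp : ∀ x y, e (x - M) y = e x y := fun x y => by
    have := h.per (x - M) y
    rw [sub_add_cancel] at this
    exact this.symm
  have hq'M : q' < p' + M := by
    by_contra hcon
    have k := h.k2 q (p' + M) q' (p + M) (by omega) (by omega) hq2 (by omega)
    rw [ePM, ePM, h.per, h.per, h.symm q p] at k
    omega
  -- points of D are at distance at least N - 1 from q and p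
  have dq : ∀ y, q' ≤ y → y ≤ p' + M → N ≤ e q y + 1 := by
    intro y hy1 hy2
    rcases lt_or_eq_of_le hy1 with g | g
    · by_contra hcon
      have := hqmax y ⟨⟨by omega, by omega⟩, by omega⟩
      omega
    · subst g
      by_contra hcon
      have u2 := h.unit q'
      have k := h.k2 q q' q' (q'+1) hq1 le_rfl (by omega) (by omega)
      rw [h.diag] at k
      have := hqmax (q'+1) ⟨⟨by omega, by omega⟩, by omega⟩
      omega
  have dp : ∀ y, q' ≤ y → y ≤ p' + M → N ≤ e y p + 1 := by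
    intro y hy1 hy2
    rcases lt_or_eq_of_le hy2 with g | g
    · by_contra hcon
      have := hpmin (y - M) ⟨⟨by omega, by omega⟩, by rw [eMp]; omega⟩
      omega
    · subst g
      rw [h.per]
      by_contra hcon
      have u2 := h.unit (p' - 1)
      rw [sub_add_cancel] at u2
      have k := h.k2 (p'-1) p' p' p (by omega) le_rfl hp2 (by omega)
      rw [h.diag] at k
      have := hpmin (p' - 1) ⟨⟨by omega, by omega⟩, by omega⟩
      omega
  have BD : ∀ l y, p < l → l < q → q' ≤ y → y ≤ p' + M → N ≤ e l y := by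
    intro l y hl1 hl2 hy1 hy2
    have k1 := h.k1 p l q y hl1.le hl2.le (by omega) (by omega)
    have k2 := h.k2 p l q y hl1.le hl2.le (by omega) (by omega)
    have d1 := dq y hy1 hy2
    have d2 := dp y hy1 hy2
    rw [h.symm y p] at d2
    rcases hstuck l hl1 hl2 with g | g <;> omega
  have pz : ∀ z, v ≤ z → z ≤ q' → 2 * N + 1 ≤ e p z := by
    intro z hz1 hz2
    rcases le_total z q with g | g
    · have k := h.k2 p v z q hpv.le hz1 g (by omega)
      omega
    · have k := h.k1 p q z q' (by omega) g hz2 (by omega)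
      omega
  have AC : ∀ x z, p' ≤ x → x ≤ u → v ≤ z → z ≤ q' → N ≤ e x z := by
    intro x z hx1 hx2 hz1 hz2
    have := pz z hz1 hz2
    rcases le_total x p with g | g
    · have k := h.k1 p' x p z hx1 g (by omega) (by omega)
      omega
    · have k := h.k2 p x u z g hx2 (by omega) (by omega)
      omega
  -- the corner function
  let b : ℤ → ℤ := fun r => if r = 0 then p' else if r = 1 then u else if r = 2 then v else q'
  let a : ℤ → ℤ := fun t => b (t % 4) + (t / 4) * M
  have aper : ∀ t, a (t+4) = a t + M := by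
    intro t
    show b ((t+4) % 4) + ((t+4) / 4) * M = b (t % 4) + (t / 4) * M + M
    rw [show (t + 4) % 4 = t % 4 by omega, show (t+4) / 4 = t / 4 + 1 by omega]
    ring
  have aval : ∀ t k : ℤ, ∀ r : ℤ, t = 4 * k + r → 0 ≤ r → r < 4 → a t = b r + k * M := by
    intro t k r h1 h2 h3
    show b (t % 4) + (t / 4) * M = b r + k * M
    rw [show t % 4 = r by omega, show t / 4 = k by omega]
  have b0 : b 0 = p' := if_pos rfl
  have b1 : b 1 = u := by
    show (if (1:ℤ) = 0 then p' else if (1:ℤ) = 1 then u else if (1:ℤ) = 2 then v else q') = u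
    simp
  have b2 : b 2 = v := by
    show (if (2:ℤ) = 0 then p' else if (2:ℤ) = 1 then u else if (2:ℤ) = 2 then v else q') = v
    simp
  have b3 : b 3 = q' := by
    show (if (3:ℤ) = 0 then p' else if (3:ℤ) = 1 then u else if (3:ℤ) = 2 then v else q') = q'
    simp
  have hr : ∀ t : ℤ, ∃ k : ℤ, t = 4 * k + 0 ∨ t = 4 * k + 1 ∨ t = 4 * k + 2 ∨ t = 4 * k + 3 := by
    intro t
    exact ⟨t / 4, by omega⟩
  refine ⟨a, ?_, aper, ?_⟩
  · intro t
    obtain ⟨k, hk⟩ := hr t
    rcases hk with hk | hk | hk | hk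
    · rw [aval t k 0 hk (by norm_num) (by norm_num),
        aval (t+1) k 1 (by omega) (by norm_num) (by norm_num), b0, b1]
      omega
    · rw [aval t k 1 hk (by norm_num) (by norm_num),
        aval (t+1) k 2 (by omega) (by norm_num) (by norm_num), b1, b2]
      omega
    · rw [aval t k 2 hk (by norm_num) (by norm_num),
        aval (t+1) k 3 (by omega) (by norm_num) (by norm_num), b2, b3]
      omega
    · rw [aval t k 3 hk (by norm_num) (by norm_num),
        aval (t+1) (k+1) 0 (by omega) (by norm_num) (by norm_num), b3, b0]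
      linarith
  · intro t x y hx1 hx2 hy1 hy2
    obtain ⟨k, hk⟩ := hr t
    have sx : e (x + (-k) * M) (y + (-k) * M) = e x y := h.shift (-k) x y
    rcases hk with hk | hk | hk | hk
    · rw [aval t k 0 hk (by norm_num) (by norm_num), b0] at hx1
      rw [aval (t+1) k 1 (by omega) (by norm_num) (by norm_num), b1] at hx2
      rw [aval (t+2) k 2 (by omega) (by norm_num) (by norm_num), b2] at hy1
      rw [aval (t+3) k 3 (by omega) (by norm_num) (by norm_num), b3] at hy2
      rw [← sx]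
      exact AC _ _ (by linarith) (by linarith) (by linarith) (by linarith)
    · rw [aval t k 1 hk (by norm_num) (by norm_num), b1] at hx1
      rw [aval (t+1) k 2 (by omega) (by norm_num) (by norm_num), b2] at hx2
      rw [aval (t+2) k 3 (by omega) (by norm_num) (by norm_num), b3] at hy1
      rw [aval (t+3) (k+1) 0 (by omega) (by norm_num) (by norm_num), b0] at hy2
      rw [← sx]
      exact BD _ _ (by linarith) (by linarith) (by linarith) (by linarith)
    · rw [aval t k 2 hk (by norm_num) (by norm_num), b2] at hx1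
      rw [aval (t+1) k 3 (by omega) (by norm_num) (by norm_num), b3] at hx2
      rw [aval (t+2) (k+1) 0 (by omega) (by norm_num) (by norm_num), b0] at hy1
      rw [aval (t+3) (k+1) 1 (by omega) (by norm_num) (by norm_num), b1] at hy2
      rw [← sx, ← h.shiftL 0, h.symm]
      have e1 : e (y + (-k) * M) (x + (-k) * M) = e (y + (-(k+1)) * M) (x + (-k) * M) := by
        rw [h.shiftL, h.shiftL]
      rw [zero_mul, add_zero, e1]
      exact AC _ _ (by linarith) (by linarith) (by linarith) (by linarith)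
    · rw [aval t k 3 hk (by norm_num) (by norm_num), b3] at hx1
      rw [aval (t+1) (k+1) 0 (by omega) (by norm_num) (by norm_num), b0] at hx2
      rw [aval (t+2) (k+1) 1 (by omega) (by norm_num) (by norm_num), b1] at hy1
      rw [aval (t+3) (k+1) 2 (by omega) (by norm_num) (by norm_num), b2] at hy2
      rw [← sx, ← h.shiftL 0, h.symm]
      have e1 : e (y + (-k) * M) (x + (-k) * M) = e (y + (-(k+1)) * M) (x + (-k) * M) := by
        rw [h.shiftL, h.shiftL]
      rw [zero_mul, add_zero, e1]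
      exact BD _ _ (by linarith) (by linarith) (by linarith) (by linarith)

/-- The selection function. -/
structure Spread (m : ℕ) (d : ℕ → ℕ → ℕ) (N : ℕ) (ix : ℕ → ℕ) : Prop where
  zero : ix 0 = 0
  top : ix m = N
  step : ∀ i, i < m → ix i ≤ ix (i+1) ∧ ix (i+1) ≤ ix i + 1
  far : ∀ i j, i ≤ j → j ≤ m → min (ix j - ix i) (N - (ix j - ix i)) ≤ d i j

theorem good_or_spread {m : ℕ} {d : ℕ → ℕ → ℕ} (h : Kal m d)
    (hu : ∀ i, i < m → d i (i+1) ≤ 1) (ho : d 0 m ≤ 1) (N : ℕ) (hN : 1 ≤ N) :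
    (∀ i j, i < j → j ≤ m → d i j ≤ 3 * (N + 1) → Good d (3 * (N + 1)) i j) ∨
      ∃ ix, Spread m d N ix := by
  by_cases hst : ∀ i j, i + 2 ≤ j → j ≤ m → d i j ≤ 3 * (N+1) →
      ∃ l, i < l ∧ l < j ∧ d i l ≤ 3 * (N+1) ∧ d l j ≤ 3 * (N+1)
  · left
    have key : ∀ L i j, j - i ≤ L → i < j → j ≤ m → d i j ≤ 3 * (N + 1) →
        Good d (3 * (N + 1)) i j := by
      intro L
      induction L with
      | zero => intro i j h1 h2; omega
      | succ L ih =>
        intro i j h1 h2 h3 h4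
        by_cases c : j = i + 1
        · subst c
          exact Good.unit h4
        · obtain ⟨l, l1, l2, l3, l4⟩ := hst i j (by omega) h3 h4
          exact Good.join l1 l2 h4 (ih i l (by omega) l1 (by omega) l3)
            (ih l j (by omega) l2 h3 l4)
    exact fun i j h1 h2 h3 => key _ i j le_rfl h1 h2 h3
  · right
    push Not at hst
    obtain ⟨p, q, h1, h2, h3, h4⟩ := hst
    have hc := cyc_of_kal h hu ho
    obtain ⟨a, ha⟩ := corners hc (N+1) (by omega) p q (by omega) (by omega)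
      (by rw [cyE_lo m d (by omega) h2]; exact h3) (by
        intro l hl1 hl2
        have hl : l = (l.toNat : ℤ) := by omega
        rw [hl, cyE_lo m d (by omega) (by omega), cyE_lo m d (by omega) h2]
        by_cases g : d p l.toNat ≤ 3 * (N+1)
        · right
          exact h4 _ (by omega) (by omega) g
        · left; omega)
    obtain ⟨F, f1, f2, f3⟩ := exists_spread hc ha
    have Fmono : ∀ x y, x ≤ y → F x ≤ F y := fun x y hxy =>
      (monotone_int_of_le_succ (fun i => (f1 i).1)) hxy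
    have g1 : F ((m:ℤ) + 1) = F 0 + (N + 1 : ℕ) := by
      have := f2 0
      rw [zero_add] at this
      exact this
    have g2 := f1 m
    refine ⟨fun i => min (F i - F 0).toNat N, ?_, ?_, ?_, ?_⟩
    · simp
    · have : N ≤ (F m - F 0).toNat := by
        push_cast at g1
        omega
      omega
    · intro i hi
      have := f1 i
      have m1 := Fmono 0 i (by omega)
      push_cast
      omega
    · intro i j hij hj
      have k := f3 i j (by omega) (by omega)
      rw [cyE_lo m d (by omega) hj] at k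
      have m1 := Fmono 0 i (by omega)
      have m2 := Fmono i j (by omega)
      have m3 := Fmono j m (by omega)
      push_cast at k
      omega

end Pool.Agent.Helper273.GF
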