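import Pool.Agent.Helper273.GF.Lab

/-!
Composition of g-interpretations; the relabelled grammar is a g-interpretation.
-/

set_option linter.unusedVariables false
set_option linter.unusedSectionVars false

namespace Pool.Agent.Helper273.GF

open Classical in
noncomputable def substF (μ : ℕ → Finset (List ℕ)) : List ℕ → Finset (List ℕ)
  | [] => {[]}
  | x :: α => Finset.image₂ (· ++ ·) (μ x) (substF μ α)

theorem mem_substF (μ : ℕ → Finset (List ℕ)) (α w : List ℕ) :
    w ∈ substF μ α ↔ w ∈ substWord μ α := by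
  induction α generalizing w with
  | nil => simp [substF, substWord]
  | cons x α ih =>
    rw [substF, substWord, Finset.mem_image₂]
    constructor
    · rintro ⟨u, hu, v, hv, rfl⟩
      exact ⟨u, hu, v, (ih v).1 hv, rfl⟩
    · rintro ⟨u, hu, v, hv, rfl⟩
      exact ⟨u, hu, v, (ih v).2 hv, rfl⟩

open Classical in
noncomputable def compS (μ1 μ2 : ℕ → Finset (List ℕ)) : ℕ → Finset (List ℕ) :=
  fun x => (μ1 x).biUnion (substF μ2)

theorem mem_compS (μ1 μ2 : ℕ → Finset (List ℕ)) (x : ℕ) (w : List ℕ) :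
    w ∈ compS μ1 μ2 x ↔ ∃ u ∈ μ1 x, w ∈ substWord μ2 u := by
  unfold compS
  rw [Finset.mem_biUnion]
  simp only [mem_substF]

theorem substWord_append (μ : ℕ → Finset (List ℕ)) {u v w : List ℕ}
    (h : w ∈ substWord μ (u ++ v)) : ∃ w1 ∈ substWord μ u, ∃ w2 ∈ substWord μ v, w = w1 ++ w2 := by
  induction u generalizing w with
  | nil => exact ⟨[], rfl, w, h, rfl⟩
  | cons x u ih =>
    obtain ⟨a, ha, b, hb, rfl⟩ := h
    obtain ⟨w1, h1, w2, h2, rfl⟩ := ih hb
    exact ⟨a ++ w1, ⟨a, ha, w1, h1, rfl⟩, w2, h2, by simp⟩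

theorem substWord_comp {μ1 μ2 : ℕ → Finset (List ℕ)} {α u w : List ℕ}
    (h1 : u ∈ substWord μ1 α) (h2 : w ∈ substWord μ2 u) : w ∈ substWord (compS μ1 μ2) α := by
  induction α generalizing u w with
  | nil =>
    have : u = [] := h1
    subst this
    exact h2
  | cons x α ih =>
    obtain ⟨a, ha, b, hb, rfl⟩ := h1
    obtain ⟨w1, g1, w2, g2, rfl⟩ := substWord_append μ2 h2
    exact ⟨w1, (mem_compS _ _ _ _).2 ⟨a, ha, g1⟩, w2, ih hb g2, rfl⟩

theorem substWord_letters {μ : ℕ → Finset (List ℕ)} {T T' : Finset ℕ}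
    (h : ∀ a ∈ T, ∀ w ∈ μ a, ∀ x ∈ w, x ∈ T') {u w : List ℕ} (hu : ∀ a ∈ u, a ∈ T)
    (hw : w ∈ substWord μ u) : ∀ x ∈ w, x ∈ T' := by
  induction u generalizing w with
  | nil =>
    have : w = [] := hw
    subst this
    intro x hx
    exact absurd hx List.not_mem_nil
  | cons a u ih =>
    obtain ⟨w1, g1, w2, g2, rfl⟩ := hw
    intro x hx
    rw [List.mem_append] at hx
    rcases hx with hx | hx
    · exact h a (hu a (by simp)) w1 g1 x hx
    · exact ih (fun a ha => hu a (by simp [ha])) g2 x hx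

theorem substWord_single {μ : ℕ → Finset (List ℕ)} {x : ℕ} {w : List ℕ} :
    w ∈ substWord μ [x] ↔ w ∈ μ x := by
  constructor
  · rintro ⟨u, hu, v, hv, rfl⟩
    have : v = [] := hv
    subst this
    rw [List.append_nil]
    exact hu
  · intro h
    exact ⟨w, h, [], rfl, by simp⟩

theorem GInterp.comp {μ1 μ2 : ℕ → Finset (List ℕ)} {G G1 G2 : Grammar} (h1 : GInterp μ1 G G1)
    (h2 : GInterp μ2 G1 G2) : GInterp (compS μ1 μ2) G G2 where
  term := by
    intro a ha w hw
    obtain ⟨u, hu, hw⟩ := (mem_compS _ _ _ _).1 hw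
    exact substWord_letters h2.term (h1.term a ha u hu) hw
  nont := by
    intro A hA w hw
    obtain ⟨u, hu, hw⟩ := (mem_compS _ _ _ _).1 hw
    obtain ⟨B, hB, rfl⟩ := h1.nont A hA u hu
    exact h2.nont B hB w (substWord_single.1 hw)
  disj := by
    intro A hA B hB hAB
    rw [Finset.disjoint_left]
    intro w hw1 hw2
    obtain ⟨u, hu, hw⟩ := (mem_compS _ _ _ _).1 hw1
    obtain ⟨u', hu', hw'⟩ := (mem_compS _ _ _ _).1 hw2
    obtain ⟨X, hX, rfl⟩ := h1.nont A hA u hu
    obtain ⟨Y, hY, rfl⟩ := h1.nont B hB u' hu'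
    rw [substWord_single] at hw hw'
    by_cases hXY : X = Y
    · subst hXY
      exact Finset.disjoint_left.1 (h1.disj A hA B hB hAB) hu hu'
    · exact Finset.disjoint_left.1 (h2.disj X hX Y hY hXY) hw hw'
  prod := by
    intro r hr
    obtain ⟨s, hs, h3, h4⟩ := h2.prod r hr
    obtain ⟨t, ht, h5, h6⟩ := h1.prod s hs
    exact ⟨t, ht, substWord_comp h5 h3, substWord_comp h6 h4⟩
  start := (mem_compS _ _ _ _).2 ⟨[G1.S], h1.start, substWord_single.2 h2.start⟩

section
variable (G : Grammar) (C : Ctl)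

open Classical in
noncomputable def labI (s : ℕ) : Finset (List ℕ) :=
  ((LabF G C).filter (fun l => l.1 = s)).image (fun l => [encL C l])

theorem mem_labI (s : ℕ) (w : List ℕ) : w ∈ labI G C s ↔ ∃ l, okL G C l ∧ l.1 = s ∧
    w = [encL C l] := by
  unfold labI
  rw [Finset.mem_image]
  constructor
  · rintro ⟨l, h1, h2⟩
    rw [Finset.mem_filter, mem_LabF] at h1
    exact ⟨l, h1.1, h1.2, h2.symm⟩
  · rintro ⟨l, h1, h2, h3⟩
    exact ⟨l, by rw [Finset.mem_filter, mem_LabF]; exact ⟨h1, h2⟩, h3.symm⟩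

open Classical in
noncomputable def relμ (s : ℕ) : Finset (List ℕ) :=
  if s ∈ G.T then {[]} ∪ C.O.image (fun o => [o]) ∪ labI G C s else labI G C s

theorem labI_sub (s : ℕ) : labI G C s ⊆ relμ G C s := by
  unfold relμ
  split_ifs
  · exact Finset.subset_union_right
  · exact Finset.Subset.refl _

theorem subst_lab (A : List Lab) (h : ∀ l ∈ A, okL G C l) :
    A.map (encL C) ∈ substWord (relμ G C) (A.map Prod.fst) := by
  induction A with
  | nil => exact rfl
  | cons l A ih =>
    refine ⟨[encL C l], labI_sub G C _ ?_, A.map (encL C), ih (fun l hl => h l (by simp [hl])), rfl⟩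
    rw [mem_labI]
    exact ⟨l, h l (by simp), rfl, rfl⟩

theorem subst_rep {β : List ℕ} {B : List Item} (hr : Rep G.T β B) (h : ∀ it ∈ B, okI G C it) :
    real C B ∈ substWord (relμ G C) β := by
  induction hr with
  | nil => exact rfl
  | @lab β B l _ ih =>
    refine ⟨[encL C l], labI_sub G C _ ?_, real C B, ih (fun l hl => h l (by simp [hl])), rfl⟩
    rw [mem_labI]
    exact ⟨l, h (Sum.inl l) (by simp), rfl, rfl⟩
  | @virt β B s t hs _ ih =>
    refine ⟨t.2.1.1.toList, ?_, real C B, ih (fun l hl => h l (by simp [hl])), rfl⟩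
    have ht : t ∈ C.Tr := h (Sum.inr t) (by simp)
    unfold relμ
    rw [if_pos hs]
    cases ho : t.2.1.1 with
    | none => simp
    | some o =>
      have := C.hO t ht o (by rw [ho]; rfl)
      simp [this]
  | @skip β B s hs _ ih =>
    refine ⟨[], ?_, real C B, ih h, rfl⟩
    unfold relμ
    rw [if_pos hs]
    simp

theorem relab_interp : GInterp (relμ G C) G (relab G C) where
  term := by
    intro a ha w hw x hx
    show x ∈ T2 G C
    unfold relμ at hw
    rw [if_pos ha, Finset.mem_union, Finset.mem_union, Finset.mem_singleton,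
      Finset.mem_image, mem_labI] at hw
    rw [mem_T2]
    rcases hw with (hw | ⟨o, ho, hw⟩) | ⟨l, h1, h2, h3⟩
    · subst hw
      exact absurd hx List.not_mem_nil
    · subst hw
      rw [List.mem_singleton] at hx
      subst hx
      exact Or.inl ho
    · subst h3
      rw [List.mem_singleton] at hx
      subst hx
      exact Or.inr ⟨l, h1, by rw [h2]; exact ha, rfl⟩
  nont := by
    intro A hA w hw
    have hA' := (Finset.mem_sdiff.1 hA).2
    unfold relμ at hw
    rw [if_neg hA', mem_labI] at hw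
    obtain ⟨l, h1, h2, h3⟩ := hw
    refine ⟨encL C l, ?_, h3⟩
    rw [Finset.mem_sdiff]
    exact ⟨(mem_V2 G C _).2 (Or.inr ⟨l, h1, rfl⟩), encL_notT G C (by rw [h2]; exact hA')⟩
  disj := by
    intro A hA B hB hAB
    have hA' := (Finset.mem_sdiff.1 hA).2
    have hB' := (Finset.mem_sdiff.1 hB).2
    rw [Finset.disjoint_left]
    intro w hw1 hw2
    unfold relμ at hw1 hw2
    rw [if_neg hA', mem_labI] at hw1
    rw [if_neg hB', mem_labI] at hw2
    obtain ⟨l, h1, h2, h3⟩ := hw1
    obtain ⟨l', h1', h2', h3'⟩ := hw2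
    rw [h3] at h3'
    have := encL_inj C (List.singleton_inj.1 h3')
    subst this
    exact hAB (h2.symm.trans h2')
  prod := by
    intro r hr
    obtain ⟨α, β, A, B, f, g, hL⟩ := (mem_P2 G C r).1 hr
    refine ⟨(α, β), hL.hP, ?_, ?_⟩
    · rw [hL.ha]
      have := subst_lab G C A hL.okA
      rw [hL.hα] at this
      exact this
    · rw [hL.hb]
      exact subst_rep G C hL.hβ hL.okB
  start := by
    show [encL C (G.S, Sum.inl C.qs, none, none, Sum.inl C.qf)] ∈ relμ G C G.S
    apply labI_sub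
    rw [mem_labI]
    have hS := Finset.mem_sdiff.1 G.S_mem
    exact ⟨_, ⟨hS.1, (C.mem_Fs_inl).2 C.hqs, (C.mem_Fs_inl).2 C.hqf, C.none_mem_Ds,
      C.none_mem_Ds, fun h => absurd h hS.2⟩, rfl, rfl⟩

end

end Pool.Agent.Helper273.GF
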