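import Pool.Agent.Helper273.GF.Fat2

/-!
The relabelled grammar: every language of a control system is generated by a
g-interpretation of a grammar whose derivations have arbitrarily large spread selections.
-/

set_option linter.unusedVariables false
set_option linter.unusedSectionVars false

namespace Pool.Agent.Helper273.GF

/-- A signed letter, or nothing. -/
abbrev Dl := Option (ℕ × Bool)
/-- An operation: an output and two signed letters. -/
abbrev Op := Option ℕ × Dl × Dl
abbrev Qs := ℕ × List Op
abbrev Trn := Qs × Op × Qs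
abbrev Face := Qs ⊕ Bool
abbrev Lab := ℕ × Face × Dl × Dl × Face

noncomputable instance instDecQs : DecidableEq Qs := Classical.decEq _
noncomputable instance instDecFace : DecidableEq Face := Classical.decEq _

def val : Dl → FreeGroup ℕ
  | none => 1
  | some (s, true) => FreeGroup.of s
  | some (s, false) => (FreeGroup.of s)⁻¹

def gp1 (l : List Op) : FreeGroup ℕ := (l.map fun o => val o.2.1).prod
def gp2 (l : List Op) : FreeGroup ℕ := (l.map fun o => val o.2.2).prod
def outp (l : List Op) : List ℕ := l.filterMap fun o => o.1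

inductive Path (Tr : Finset Trn) : Qs → List Op → Qs → Prop
  | nil (q : Qs) : Path Tr q [] q
  | cons {q : Qs} {o : Op} {q' q'' : Qs} {l : List Op} : (q, o, q') ∈ Tr → Path Tr q' l q'' →
      Path Tr q (o :: l) q''

def adj (s t : ℕ) : Prop := s ≤ t + 1 ∧ t ≤ s + 1

def st (x : ℕ → ℕ) (s t : ℕ) : Dl :=
  if t = s + 1 then some (x s, true) else if s = t + 1 then some (x t, false) else none

def Xp (x : ℕ → ℕ) : ℕ → FreeGroup ℕ
  | 0 => 1
  | n+1 => Xp x n * FreeGroup.of (x n)

theorem st_self (x : ℕ → ℕ) (s : ℕ) : st x s s = none := by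
  unfold st
  rw [if_neg (by omega), if_neg (by omega)]

theorem val_st (x : ℕ → ℕ) {s t : ℕ} (h : adj s t) : val (st x s t) = (Xp x s)⁻¹ * Xp x t := by
  unfold st
  obtain ⟨h1, h2⟩ := h
  by_cases c1 : t = s + 1
  · subst c1
    rw [if_pos rfl]
    simp [val, Xp]
  · rw [if_neg c1]
    by_cases c2 : s = t + 1
    · subst c2
      rw [if_pos rfl]
      simp [val, Xp]
    · rw [if_neg c2]
      have : s = t := by omega
      subst this
      simp [val]

/-- A control system. -/
structure Ctl where
  Tr : Finset Trn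
  St : Finset Qs
  qs : Qs
  qf : Qs
  De : Finset ℕ
  O : Finset ℕ
  hqs : qs ∈ St
  hqf : qf ∈ St
  hTr : ∀ t ∈ Tr, t.1 ∈ St ∧ t.2.2 ∈ St
  hO : ∀ t ∈ Tr, ∀ o ∈ t.2.1.1, o ∈ O

def Ctl.Acc (C : Ctl) (z : List ℕ) : Prop :=
  ∃ l, Path C.Tr C.qs l C.qf ∧ gp1 l = 1 ∧ gp2 l = 1 ∧ outp l = z

structure Ctl.Nice (C : Ctl) (z : List ℕ) (l : List Op) (x : ℕ → ℕ) (h1 h2 : ℕ → ℕ) :
    Prop where
  path : Path C.Tr C.qs l C.qf
  out : outp l = z
  xD : ∀ i, x i ∈ C.De
  h1s : h1 0 = 0
  h1e : h1 l.length = 0
  h2s : h2 0 = 0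
  h2e : h2 l.length = 0
  adj1 : ∀ i, i < l.length → adj (h1 i) (h1 (i+1))
  adj2 : ∀ i, i < l.length → adj (h2 i) (h2 (i+1))
  op : ∀ i o, l[i]? = some o → o.2.1 = st x (h1 i) (h1 (i+1)) ∧ o.2.2 = st x (h2 i) (h2 (i+1))

abbrev Item := Lab ⊕ Trn

def Item.src : Item → Face
  | Sum.inl l => l.2.1
  | Sum.inr t => Sum.inl t.1

def Item.tgt : Item → Face
  | Sum.inl l => l.2.2.2.2
  | Sum.inr t => Sum.inl t.2.2

def Item.v1 : Item → FreeGroup ℕ
  | Sum.inl l => val l.2.2.1
  | Sum.inr t => val t.2.1.2.1

def Item.v2 : Item → FreeGroup ℕ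
  | Sum.inl l => val l.2.2.2.1
  | Sum.inr t => val t.2.1.2.2

inductive Chn : Face → List Item → Face → Prop
  | nil (f : Face) : Chn f [] f
  | cons {it : Item} {W : List Item} {f g : Face} : it.src = g → Chn it.tgt W f →
      Chn g (it :: W) f

theorem Chn.app {f g h : Face} {A B : List Item} (h1 : Chn f A g) (h2 : Chn g B h) :
    Chn f (A ++ B) h := by
  induction h1 with
  | nil => exact h2
  | cons h0 _ ih => exact Chn.cons h0 (ih h2)

theorem Chn.split {A B : List Item} : ∀ {f h : Face}, Chn f (A ++ B) h →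
    ∃ g, Chn f A g ∧ Chn g B h := by
  induction A with
  | nil => intro f h hh; exact ⟨f, Chn.nil f, hh⟩
  | cons it A ih =>
    intro f h hh
    cases hh with
    | cons h0 h2 =>
      obtain ⟨g, h3, h4⟩ := ih h2
      exact ⟨g, Chn.cons h0 h3, h4⟩

theorem Chn.uniq {A : List Item} : ∀ {f g f' g' : Face}, A ≠ [] → Chn f A g → Chn f' A g' →
    f = f' ∧ g = g' := by
  induction A with
  | nil => intro f g f' g' h; exact absurd rfl h
  | cons it A ih =>
    intro f g f' g' _ h1 h2
    cases h1 with
    | cons e1 h1 =>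
      cases h2 with
      | cons e2 h2 =>
        refine ⟨e1.symm.trans e2, ?_⟩
        by_cases hA : A = []
        · subst hA
          cases h1
          cases h2
          rfl
        · exact (ih hA h1 h2).2

inductive Rep (T : Finset ℕ) : List ℕ → List Item → Prop
  | nil : Rep T [] []
  | lab {β : List ℕ} {B : List Item} (l : Lab) : Rep T β B → Rep T (l.1 :: β) (Sum.inl l :: B)
  | virt {β : List ℕ} {B : List Item} (s : ℕ) (t : Trn) : s ∈ T → Rep T β B →
      Rep T (s :: β) (Sum.inr t :: B)
  | skip {β : List ℕ} {B : List Item} (s : ℕ) : s ∈ T → Rep T β B → Rep T (s :: β) B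

inductive Mode
  | lab
  | skip
  | virt (t : Trn)

section
variable (G : Grammar) (C : Ctl)

noncomputable def Ctl.Fs : Finset Face := C.St.map ⟨Sum.inl, Sum.inl_injective⟩ ∪ {Sum.inr false, Sum.inr true}

theorem Ctl.mem_Fs_inl {q : Qs} : (Sum.inl q : Face) ∈ C.Fs ↔ q ∈ C.St := by
  unfold Ctl.Fs
  simp

theorem Ctl.mem_Fs_inr (b : Bool) : (Sum.inr b : Face) ∈ C.Fs := by
  unfold Ctl.Fs
  cases b <;> simp

def Ctl.Ds : Finset Dl := insert none ((C.De ×ˢ Finset.univ).map ⟨some, Option.some_injective _⟩)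

theorem Ctl.none_mem_Ds : (none : Dl) ∈ C.Ds := Finset.mem_insert_self _ _

theorem Ctl.st_mem_Ds {x : ℕ → ℕ} (hx : ∀ i, x i ∈ C.De) (s t : ℕ) : st x s t ∈ C.Ds := by
  unfold st Ctl.Ds
  split_ifs
  · simp [hx]
  · simp [hx]
  · simp

def okL (l : Lab) : Prop := l.1 ∈ G.V ∧ l.2.1 ∈ C.Fs ∧ l.2.2.2.2 ∈ C.Fs ∧ l.2.2.1 ∈ C.Ds ∧
  l.2.2.2.1 ∈ C.Ds ∧ (l.1 ∈ G.T → l.2.2.2.2 = Sum.inr false ∨ l.2.1 = Sum.inr true)

def okI : Item → Prop
  | Sum.inl l => okL G C l
  | Sum.inr t => t ∈ C.Tr

def Mb : ℕ := C.O.sup id + 1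

theorem Mb_lt {o : ℕ} (h : o ∈ C.O) : o < Mb C :=
  Nat.lt_succ_of_le (Finset.le_sup (f := id) h)

def encL (l : Lab) : ℕ := Mb C + Encodable.encode l

theorem encL_ge (l : Lab) : Mb C ≤ encL C l := Nat.le_add_right _ _

theorem encL_inj {l l' : Lab} (h : encL C l = encL C l') : l = l' := by
  unfold encL at h
  exact Encodable.encode_injective (Nat.add_left_cancel h)

def realI : Item → List ℕ
  | Sum.inl l => [encL C l]
  | Sum.inr t => t.2.1.1.toList

def real (W : List Item) : List ℕ := W.flatMap (realI C)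

theorem real_app (A B : List Item) : real C (A ++ B) = real C A ++ real C B := by
  unfold real; rw [List.flatMap_append]

theorem real_cons (it : Item) (B : List Item) : real C (it :: B) = realI C it ++ real C B := by
  unfold real; rw [List.flatMap_cons]

theorem real_nil : real C [] = [] := rfl

theorem real_map (A : List Lab) : real C (A.map Sum.inl) = A.map (encL C) := by
  induction A with
  | nil => rfl
  | cons l A ih =>
    rw [List.map_cons, real_cons, ih]
    rfl

def pr1 (W : List Item) : FreeGroup ℕ := (W.map Item.v1).prod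
def pr2 (W : List Item) : FreeGroup ℕ := (W.map Item.v2).prod

theorem pr1_app (A B : List Item) : pr1 (A ++ B) = pr1 A * pr1 B := by
  unfold pr1; rw [List.map_append, List.prod_append]
theorem pr2_app (A B : List Item) : pr2 (A ++ B) = pr2 A * pr2 B := by
  unfold pr2; rw [List.map_append, List.prod_append]

structure LabRule (a b : List ℕ) (α β : List ℕ) (A : List Lab) (B : List Item) (x y : Face) :
    Prop where
  hP : (α, β) ∈ G.P
  hα : A.map Prod.fst = α
  okA : ∀ l ∈ A, okL G C l
  chA : Chn x (A.map Sum.inl) y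
  inner : ∀ l ∈ A.dropLast, ∃ b, l.2.2.2.2 = Sum.inr b
  hβ : Rep G.T β B
  okB : ∀ it ∈ B, okI G C it
  chB : Chn x B y
  p1 : pr1 (A.map Sum.inl) = pr1 B
  p2 : pr2 (A.map Sum.inl) = pr2 B
  ha : a = A.map (encL C)
  hb : b = real C B

/-- Contiguity of the items read by a left side. -/
theorem contig (y : List ℕ) : ∀ (A : List Lab) (W : List Item) (f f' : Face), Chn f W f' →
    (∀ it ∈ W, okI G C it) → (A ≠ [] → ∃ b, f = Sum.inr b) →
    (∀ l ∈ A.dropLast, ∃ b, l.2.2.2.2 = Sum.inr b) → real C W = A.map (encL C) ++ y →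
    ∃ W2, W = A.map Sum.inl ++ W2 ∧ real C W2 = y := by
  intro A
  induction A with
  | nil => intro W f f' _ _ _ _ h; exact ⟨W, rfl, h⟩
  | cons l A ih =>
    intro W f f' hc hok hf hin hr
    obtain ⟨b, hb⟩ := hf (by simp)
    cases W with
    | nil => rw [real_nil] at hr; simp at hr
    | cons it W =>
      rcases it with l' | t
      · rw [real_cons] at hr
        simp only [realI, List.map_cons, List.cons_append, List.nil_append,
          List.cons.injEq] at hr
        obtain ⟨h1, h2⟩ := hr
        have hl := encL_inj C h1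
        subst hl
        cases hc with
        | cons e0 hc =>
          obtain ⟨W2, h3, h4⟩ := ih W _ _ hc (fun it hit => hok it (by simp [hit])) (by
            intro hA
            obtain ⟨b', hb'⟩ := hin l' (by
              rw [List.dropLast_cons_of_ne_nil hA]; simp)
            exact ⟨b', hb'⟩) (by
            intro l hl
            by_cases hA : A = []
            · subst hA; simp at hl
            · exact hin l (by rw [List.dropLast_cons_of_ne_nil hA]; simp [hl])) h2
          exact ⟨W2, by rw [h3]; rfl, h4⟩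
      · exfalso
        cases hc with
        | cons e0 hc =>
          rw [← e0] at hb
          exact absurd hb (by simp [Item.src])

theorem find_lhs (y : List ℕ) (A : List Lab) (hA : A ≠ [])
    (hin : ∀ l ∈ A.dropLast, ∃ b, l.2.2.2.2 = Sum.inr b) :
    ∀ (W : List Item) (x : List ℕ) (f f' : Face), Chn f W f' →
    (∀ it ∈ W, okI G C it) → real C W = x ++ A.map (encL C) ++ y →
    ∃ W1 W2, W = W1 ++ A.map Sum.inl ++ W2 ∧ real C W1 = x ∧ real C W2 = y := by
  intro W
  induction W with
  | nil =>
    intro x f f' _ _ h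
    rw [real_nil] at h
    have h' := h.symm
    simp [hA] at h'
  | cons it W ih =>
    intro x f f' hc hok hr
    have hok' : ∀ it ∈ W, okI G C it := fun it hit => hok it (by simp [hit])
    cases hc with
    | cons e0 hc =>
      rcases it with l' | t
      · rw [real_cons] at hr
        cases x with
        | nil =>
          cases A with
          | nil => exact absurd rfl hA
          | cons l A =>
            simp only [realI, List.map_cons, List.cons_append, List.nil_append,
              List.cons.injEq] at hr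
            obtain ⟨h1, h2⟩ := hr
            have hl := encL_inj C h1
            subst hl
            obtain ⟨W2, h3, h4⟩ := contig G C y A W _ _ hc hok' (by
              intro hA
              exact hin l' (by rw [List.dropLast_cons_of_ne_nil hA]; simp)) (by
              intro l hl
              by_cases hA : A = []
              · subst hA; simp at hl
              · exact hin l (by rw [List.dropLast_cons_of_ne_nil hA]; simp [hl])) h2
            exact ⟨[], W2, by rw [h3]; rfl, rfl, h4⟩
        | cons c x =>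
          simp only [realI, List.cons_append, List.nil_append, List.cons.injEq] at hr
          obtain ⟨h1, h2⟩ := hr
          obtain ⟨W1, W2, h3, h4, h5⟩ := ih x _ _ hc hok' h2
          exact ⟨Sum.inl l' :: W1, W2, by rw [h3]; rfl, by rw [real_cons, h4, ← h1]; rfl, h5⟩
      · have hO := C.hO t (hok (Sum.inr t) (by simp))
        rw [real_cons] at hr
        cases ho : t.2.1.1 with
        | none =>
          simp only [realI, ho, Option.toList_none, List.nil_append] at hr
          obtain ⟨W1, W2, h3, h4, h5⟩ := ih x _ _ hc hok' hr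
          refine ⟨Sum.inr t :: W1, W2, by rw [h3]; rfl, ?_, h5⟩
          rw [real_cons, h4]
          simp [realI, ho]
        | some o =>
          have hoM := Mb_lt C (hO o (by rw [ho]; rfl))
          simp only [realI, ho, Option.toList_some, List.cons_append, List.nil_append] at hr
          cases x with
          | nil =>
            exfalso
            cases A with
            | nil => exact absurd rfl hA
            | cons l A =>
              simp only [List.map_cons, List.cons_append, List.nil_append,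
                List.cons.injEq] at hr
              have := encL_ge C l
              omega
          | cons c x =>
            simp only [List.cons_append, List.cons.injEq] at hr
            obtain ⟨h1, h2⟩ := hr
            obtain ⟨W1, W2, h3, h4, h5⟩ := ih x _ _ hc hok' h2
            refine ⟨Sum.inr t :: W1, W2, by rw [h3]; rfl, ?_, h5⟩
            rw [real_cons, h4]
            simp [realI, ho, h1]

theorem Rep.length {T : Finset ℕ} {β : List ℕ} {B : List Item} (h : Rep T β B) :
    (real C B).length ≤ β.length := by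
  induction h with
  | nil => exact le_rfl
  | lab l _ ih => rw [real_cons]; simp [realI]; omega
  | virt s t _ _ ih =>
    rw [real_cons]
    simp only [realI, List.length_append, List.length_cons]
    have : t.2.1.1.toList.length ≤ 1 := by cases t.2.1.1 <;> simp
    omega
  | skip s _ _ ih => simp; omega

open Classical in
noncomputable def LabF : Finset Lab :=
  (G.V ×ˢ C.Fs ×ˢ C.Ds ×ˢ C.Ds ×ˢ C.Fs).filter (fun l => okL G C l)

theorem mem_LabF (l : Lab) : l ∈ LabF G C ↔ okL G C l := by
  unfold LabF
  simp only [Finset.mem_filter]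
  constructor
  · exact fun h => h.2
  · intro h
    refine ⟨?_, h⟩
    simp only [Finset.mem_product]
    exact ⟨h.1, h.2.1, h.2.2.2.1, h.2.2.2.2.1, h.2.2.1⟩

noncomputable def T2 : Finset ℕ := C.O ∪ ((LabF G C).filter (fun l => l.1 ∈ G.T)).image (encL C)
noncomputable def V2 : Finset ℕ := C.O ∪ (LabF G C).image (encL C)

theorem mem_T2 (z : ℕ) : z ∈ T2 G C ↔ z ∈ C.O ∨ ∃ l, okL G C l ∧ l.1 ∈ G.T ∧ encL C l = z := by
  unfold T2
  rw [Finset.mem_union, Finset.mem_image]
  constructor
  · rintro (h | ⟨l, h1, h2⟩)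
    · exact Or.inl h
    · rw [Finset.mem_filter, mem_LabF] at h1
      exact Or.inr ⟨l, h1.1, h1.2, h2⟩
  · rintro (h | ⟨l, h1, h2, h3⟩)
    · exact Or.inl h
    · exact Or.inr ⟨l, by rw [Finset.mem_filter, mem_LabF]; exact ⟨h1, h2⟩, h3⟩

theorem mem_V2 (z : ℕ) : z ∈ V2 G C ↔ z ∈ C.O ∨ ∃ l, okL G C l ∧ encL C l = z := by
  unfold V2
  rw [Finset.mem_union, Finset.mem_image]
  constructor
  · rintro (h | ⟨l, h1, h2⟩)
    · exact Or.inl h
    · rw [mem_LabF] at h1
      exact Or.inr ⟨l, h1, h2⟩
  · rintro (h | ⟨l, h1, h3⟩)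
    · exact Or.inl h
    · exact Or.inr ⟨l, by rw [mem_LabF]; exact h1, h3⟩

theorem encL_notT {l : Lab} (h : l.1 ∉ G.T) : encL C l ∉ T2 G C := by
  rw [mem_T2]
  rintro (h1 | ⟨l', _, h2, h3⟩)
  · have := Mb_lt C h1
    have := encL_ge C l
    omega
  · rw [← encL_inj C h3] at h
    exact h h2

theorem Wset_finite : {w : List ℕ | w.length ≤ G.P.sup (fun r => max r.1.length r.2.length) ∧
    ∀ z ∈ w, z ∈ (V2 G C : Set ℕ)}.Finite :=
  finite_lists _ (V2 G C).finite_toSet _

open Classical in
noncomputable def P2 : Finset (List ℕ × List ℕ) :=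
  ((Wset_finite G C).toFinset ×ˢ (Wset_finite G C).toFinset).filter
    (fun r => ∃ α β A B x y, LabRule G C r.1 r.2 α β A B x y)

theorem real_V2 {B : List Item} (h : ∀ it ∈ B, okI G C it) : ∀ z ∈ real C B, z ∈ V2 G C := by
  intro z hz
  unfold real at hz
  rw [List.mem_flatMap] at hz
  obtain ⟨it, h1, h2⟩ := hz
  have h3 := h it h1
  rw [mem_V2]
  rcases it with l | t
  · simp only [realI, List.mem_singleton] at h2
    exact Or.inr ⟨l, h3, h2.symm⟩
  · simp only [realI, Option.mem_toList] at h2
    exact Or.inl (C.hO t h3 z h2)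

theorem mem_P2 (r : List ℕ × List ℕ) :
    r ∈ P2 G C ↔ ∃ α β A B x y, LabRule G C r.1 r.2 α β A B x y := by
  unfold P2
  simp only [Finset.mem_filter]
  constructor
  · exact fun h => h.2
  · intro h
    refine ⟨?_, h⟩
    obtain ⟨α, β, A, B, x, y, hL⟩ := h
    have hs : max α.length β.length ≤ G.P.sup (fun r => max r.1.length r.2.length) :=
      Finset.le_sup (f := fun r : List ℕ × List ℕ => max r.1.length r.2.length) hL.hP
    rw [Finset.mem_product, Set.Finite.mem_toFinset, Set.Finite.mem_toFinset]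
    refine ⟨⟨?_, ?_⟩, ⟨?_, ?_⟩⟩
    · rw [hL.ha, List.length_map]
      have : A.length = α.length := by rw [← hL.hα, List.length_map]
      omega
    · intro z hz
      rw [hL.ha, List.mem_map] at hz
      obtain ⟨l, h1, h2⟩ := hz
      exact (mem_V2 G C z).2 (Or.inr ⟨l, hL.okA l h1, h2⟩)
    · rw [hL.hb]
      have := hL.hβ.length C
      omega
    · intro z hz
      rw [hL.hb] at hz
      exact real_V2 G C hL.okB z hz

noncomputable def relab : Grammar where
  V := V2 G C
  T := T2 G C
  P := P2 G C
  S := encL C (G.S, Sum.inl C.qs, none, none, Sum.inl C.qf)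
  T_sub := by
    intro z hz
    rw [mem_T2] at hz
    rw [mem_V2]
    rcases hz with h | ⟨l, h1, _, h3⟩
    · exact Or.inl h
    · exact Or.inr ⟨l, h1, h3⟩
  S_mem := by
    have hS := Finset.mem_sdiff.1 G.S_mem
    rw [Finset.mem_sdiff, mem_V2]
    refine ⟨Or.inr ⟨_, ⟨hS.1, (C.mem_Fs_inl).2 C.hqs, (C.mem_Fs_inl).2 C.hqf, C.none_mem_Ds,
      C.none_mem_Ds, fun h => absurd h hS.2⟩, rfl⟩, encL_notT G C hS.2⟩
  P_lhs := by
    intro r hr x hx
    rw [mem_P2] at hr
    obtain ⟨α, β, A, B, _, _, hL⟩ := hr
    rw [hL.ha, List.mem_map] at hx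
    obtain ⟨l, h1, h2⟩ := hx
    exact (mem_V2 G C x).2 (Or.inr ⟨l, hL.okA l h1, h2⟩)
  P_rhs := by
    intro r hr x hx
    rw [mem_P2] at hr
    obtain ⟨α, β, A, B, _, _, hL⟩ := hr
    rw [hL.hb] at hx
    exact real_V2 G C hL.okB x hx
  P_nt := by
    intro r hr
    rw [mem_P2] at hr
    obtain ⟨α, β, A, B, _, _, hL⟩ := hr
    obtain ⟨s, hs1, hs2⟩ := G.P_nt _ hL.hP
    rw [Finset.mem_sdiff] at hs2
    have hs1' : s ∈ α := hs1
    rw [← hL.hα, List.mem_map] at hs1'
    obtain ⟨l, h1, h2⟩ := hs1'
    refine ⟨encL C l, ?_, ?_⟩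
    · rw [hL.ha]
      exact List.mem_map_of_mem h1
    · rw [Finset.mem_sdiff]
      refine ⟨(mem_V2 G C _).2 (Or.inr ⟨l, hL.okA l h1, rfl⟩), encL_notT G C ?_⟩
      rw [h2]
      exact hs2.2

theorem A_ne {a b α β A B x y} (h : LabRule G C a b α β A B x y) : A ≠ [] := by
  obtain ⟨s, hs1, _⟩ := G.P_nt _ h.hP
  intro hA
  have hs1' : s ∈ α := hs1
  rw [← h.hα, hA] at hs1'
  simp at hs1'

structure Inv (ω : List ℕ) (W : List Item) : Prop where
  ok : ∀ it ∈ W, okI G C it
  ch : Chn (Sum.inl C.qs) W (Sum.inl C.qf)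
  p1 : pr1 W = 1
  p2 : pr2 W = 1
  re : ω = real C W

theorem inv_step {ω ω' : List ℕ} (h : (relab G C).Step ω ω') {W : List Item} (hi : Inv G C ω W) :
    ∃ W', Inv G C ω' W' := by
  obtain ⟨r, hr, x, y, h1, h2⟩ := h
  have hr' := (mem_P2 G C r).1 hr
  obtain ⟨α, β, A, B, f, g, hL⟩ := hr'
  have hA := A_ne G C hL
  rw [hi.re, hL.ha] at h1
  obtain ⟨W1, W2, e1, e2, e3⟩ := find_lhs G C y A hA hL.inner W x _ _ hi.ch hi.ok h1
  subst e1
  have hch := hi.ch
  rw [List.append_assoc] at hch
  obtain ⟨g1, c1, c2⟩ := hch.split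
  obtain ⟨g2, c3, c4⟩ := c2.split
  obtain ⟨u1, u2⟩ := Chn.uniq (by simp [hA]) c3 hL.chA
  subst u1
  subst u2
  have p1 := hi.p1
  have p2 := hi.p2
  rw [pr1_app, pr1_app, hL.p1] at p1
  rw [pr2_app, pr2_app, hL.p2] at p2
  refine ⟨W1 ++ B ++ W2, ⟨?_, ?_, ?_, ?_, ?_⟩⟩
  · intro it hit
    rw [List.mem_append, List.mem_append] at hit
    rcases hit with (hit | hit) | hit
    · exact hi.ok it (by simp [hit])
    · exact hL.okB it hit
    · exact hi.ok it (by simp [hit])
  · rw [List.append_assoc]
    exact c1.app (hL.chB.app c4)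
  · rw [pr1_app, pr1_app]; exact p1
  · rw [pr2_app, pr2_app]; exact p2
  · rw [h2, real_app, real_app, e2, e3, hL.hb]

theorem chn_stuck {W : List Item} : ∀ {f g : Face}, Chn f W g → f = Sum.inr false →
    (∀ it ∈ W, ∀ l, it = Sum.inl l → (l.2.2.2.2 = Sum.inr false ∨ l.2.1 = Sum.inr true)) →
    g = Sum.inr false := by
  induction W with
  | nil => intro f g h hf _; cases h; exact hf
  | cons it W ih =>
    intro f g h hf hW
    cases h with
    | cons e0 h =>
      rcases it with l | t
      · have h1 := hW _ (by simp) l rfl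
        have e1 : l.2.1 = Sum.inr false := by rw [← hf, ← e0]; rfl
        rcases h1 with h1 | h1
        · exact ih h h1 (fun it hit => hW it (by simp [hit]))
        · rw [e1] at h1
          simp at h1
      · rw [hf] at e0
        simp [Item.src] at e0

theorem chn_virt {W : List Item} : ∀ {q q' : Qs}, Chn (Sum.inl q) W (Sum.inl q') →
    (∀ it ∈ W, okI G C it) →
    (∀ it ∈ W, ∀ l, it = Sum.inl l → (l.2.2.2.2 = Sum.inr false ∨ l.2.1 = Sum.inr true)) →
    ∃ l : List Op, Path C.Tr q l q' ∧ gp1 l = pr1 W ∧ gp2 l = pr2 W ∧ outp l = real C W := by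
  induction W with
  | nil =>
    intro q q' h _ _
    cases h
    exact ⟨[], Path.nil q, rfl, rfl, rfl⟩
  | cons it W ih =>
    intro q q' h hok hW
    cases h with
    | cons e0 h =>
      rcases it with l | t
      · exfalso
        have h1 := hW _ (by simp) l rfl
        have e1 : l.2.1 = Sum.inl q := e0
        rcases h1 with h1 | h1
        · have := chn_stuck h h1 (fun it hit => hW it (by simp [hit]))
          simp at this
        · rw [e1] at h1
          simp at h1
      · have e1 : t.1 = q := Sum.inl_injective e0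
        have h' : Chn (Sum.inl t.2.2) W (Sum.inl q') := h
        obtain ⟨l, l1, l2, l3, l4⟩ := ih h' (fun it hit => hok it (by simp [hit]))
          (fun it hit => hW it (by simp [hit]))
        refine ⟨t.2.1 :: l, ?_, ?_, ?_, ?_⟩
        · rw [← e1]
          exact Path.cons (hok (Sum.inr t) (by simp)) l1
        · unfold gp1 at l2 ⊢
          unfold pr1 at l2 ⊢
          rw [List.map_cons, List.prod_cons, l2, List.map_cons, List.prod_cons]
          rfl
        · unfold gp2 at l3 ⊢
          unfold pr2 at l3 ⊢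
          rw [List.map_cons, List.prod_cons, l3, List.map_cons, List.prod_cons]
          rfl
        · rw [real_cons, ← l4]
          unfold outp realI
          cases ho : t.2.1.1 with
          | none => simp [ho]
          | some o => simp [ho]

theorem relab_sound {z : List ℕ} (h : z ∈ (relab G C).lang) : C.Acc z := by
  obtain ⟨h1, h2⟩ := h
  have key : ∀ ω, Relation.ReflTransGen (relab G C).Step [(relab G C).S] ω →
      ∃ W, Inv G C ω W := by
    intro ω hω
    induction hω with
    | refl =>
      have hS := Finset.mem_sdiff.1 G.S_mem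
      refine ⟨[Sum.inl (G.S, Sum.inl C.qs, none, none, Sum.inl C.qf)], ⟨?_, ?_, ?_, ?_, ?_⟩⟩
      · intro it hit
        rw [List.mem_singleton] at hit
        subst hit
        exact ⟨hS.1, (C.mem_Fs_inl).2 C.hqs, (C.mem_Fs_inl).2 C.hqf, C.none_mem_Ds,
          C.none_mem_Ds, fun h => absurd h hS.2⟩
      · exact Chn.cons rfl (Chn.nil _)
      · simp [pr1, Item.v1, val]
      · simp [pr2, Item.v2, val]
      · rfl
    | tail _ h3 ih =>
      obtain ⟨W, hW⟩ := ih
      exact inv_step G C h3 hW
  obtain ⟨W, hW⟩ := key z h2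
  obtain ⟨l, l1, l2, l3, l4⟩ := chn_virt G C hW.ch hW.ok (by
    intro it hit l hl
    subst hl
    have hok : okL G C l := hW.ok _ hit
    apply hok.2.2.2.2.2
    have hmem : encL C l ∈ z := by
      rw [hW.re]
      unfold real
      rw [List.mem_flatMap]
      exact ⟨_, hit, by simp [realI]⟩
    have h3 := h1 _ hmem
    by_contra hcon
    exact encL_notT G C hcon h3)
  exact ⟨l, l1, l2.trans hW.p1, l3.trans hW.p2, l4.trans hW.re.symm⟩

end

end Pool.Agent.Helper273.GF
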