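import Pool.Agent.Helper273.GF.Ctrl3
import Pool.Agent.Helper273.GF.Interp
import Pool.Agent.Helper273.GF.CFdir

/-!
The dichotomy for g-interpretations.
-/

set_option linter.unusedVariables false
set_option linter.unusedSectionVars false

namespace Pool.Agent.Helper273.GF

/-- A grammar whose language is not context-free derives terminal words with arbitrarily large
spread selections. -/
theorem exists_spread_word (G : Grammar)
    (hne : ¬ ∃ G' : Grammar, G'.IsCF ∧ SameLang G.lang G'.lang) (N : ℕ) (hN : 1 ≤ N) :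
    ∃ y ∈ G.lang, ∃ d, DM G y d ∧ ∃ ix, Spread y.length d N ix := by
  obtain ⟨Le, ax, hLe⟩ := exists_Le_grammar G
  have : LeC Le := ⟨ax⟩
  by_contra hcon
  apply hne
  refine cf_of_good G Le hLe (3 * (N + 1)) (by omega) ?_
  intro y hy hy0
  obtain ⟨d, c, hns, hdm⟩ := reach (Le := Le) G (fun r hr => (hLe _ _).2 (Der.rule hr)) y hy.2
  refine ⟨d, c, hns, ?_⟩
  rcases good_or_spread hns.kal hns.uni hns.out N hN with h | ⟨ix, hix⟩
  · have hpos : 0 < y.length := List.length_pos_iff.2 hy0
    have := hns.out
    exact h 0 y.length hpos le_rfl (by omega)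
  · exact absurd ⟨y, hy, d, hdm, ix, hix⟩ hcon

theorem relab_lang (G G0 : Grammar)
    (hne : ¬ ∃ G' : Grammar, G'.IsCF ∧ SameLang G.lang G'.lang) :
    SameLang G0.lang (relab G (ctl G0)).lang := by
  intro w hw
  constructor
  · intro h
    obtain ⟨l, x, h1, h2, hn⟩ := ctl_complete h
    have hl : l ≠ [] := by
      rintro rfl
      exact hw hn.out.symm
    obtain ⟨y, hy, d, hd, ix, hix⟩ := exists_spread_word G hne l.length
      (List.length_pos_iff.2 hl)
    exact relab_complete G (ctl G0) hy.1 hd hn hix
  · intro h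
    exact ctl_sound (relab_sound G (ctl G0) h)

/-- Either all languages of the family of `G` are context-free, or every language generated by
a grammar is in the family. -/
theorem dichotomy (G : Grammar) : FamSub (gFamily G) CFFamily ∨
    ∀ G0 : Grammar, ∃ L' ∈ gFamily G, SameLang G0.lang L' := by
  by_cases h : FamSub (gFamily G) CFFamily
  · exact Or.inl h
  · right
    unfold FamSub at h
    push Not at h
    obtain ⟨L, hL, hne⟩ := h
    obtain ⟨G1, μ, hμ, rfl⟩ := hL
    intro G0
    refine ⟨(relab G1 (ctl G0)).lang, ⟨relab G1 (ctl G0), _, hμ.comp (relab_interp G1 (ctl G0)),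
      rfl⟩, relab_lang G1 G0 ?_⟩
    rintro ⟨G', h1, h2⟩
    exact hne _ ⟨G', h1, rfl⟩ h2

end Pool.Agent.Helper273.GF
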