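import Pool.Agent.Helper273.GF.Alg

/-!
Gap metrics and gap words.
-/

set_option linter.unusedVariables false

namespace Pool.Agent.Helper273.GF

structure Kal (n : ℕ) (d : ℕ → ℕ → ℕ) : Prop where
  diag : ∀ i, d i i = 0
  symm : ∀ i j, d i j = d j i
  k1 : ∀ a b c e, a ≤ b → b ≤ c → c ≤ e → e ≤ n → d a b + d c e ≤ d a c + d b e
  k2 : ∀ a b c e, a ≤ b → b ≤ c → c ≤ e → e ≤ n → d a e + d b c ≤ d a c + d b e

namespace Kal
variable {n : ℕ} {d : ℕ → ℕ → ℕ}

theorem tri (h : Kal n d) (x y z : ℕ) (hx : x ≤ n) (hy : y ≤ n) (hz : z ≤ n) :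
    d x y ≤ d x z + d z y := by
  have sxy := h.symm x y
  have sxz := h.symm x z
  have szy := h.symm z y
  have dx := h.diag x
  have dy := h.diag y
  have dz := h.diag z
  rcases le_total x y with hxy | hxy
  · rcases le_total x z with hxz | hxz
    · rcases le_total z y with hzy | hzy
      · have := h.k2 x z z y hxz le_rfl hzy hy; omega
      · have := h.k1 x y z z hxy hzy le_rfl hz; omega
    · have := h.k1 z z x y le_rfl hxz hxy hy; omega
  · rcases le_total y z with hyz | hyz
    · rcases le_total z x with hzx | hzx
      · have := h.k2 y z z x hyz le_rfl hzx hx; omega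
      · have := h.k1 y x z z hxy hzx le_rfl hz; omega
    · have := h.k1 z z y x le_rfl hyz hxy hx; omega

end Kal

/-- The shortcut metric: the points `p` and `p+1` are joined by a path of length `l`. -/
def shortD (d : ℕ → ℕ → ℕ) (p l : ℕ) : ℕ → ℕ → ℕ := fun x y =>
  min (d x y) (min (d x p + l + d (p+1) y) (d x (p+1) + l + d p y))

theorem shortD_le (d : ℕ → ℕ → ℕ) (p l x y : ℕ) : shortD d p l x y ≤ d x y := min_le_left _ _
theorem shortD_le1 (d : ℕ → ℕ → ℕ) (p l x y : ℕ) :
    shortD d p l x y ≤ d x p + l + d (p+1) y := le_trans (min_le_right _ _) (min_le_left _ _)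
theorem shortD_le2 (d : ℕ → ℕ → ℕ) (p l x y : ℕ) :
    shortD d p l x y ≤ d x (p+1) + l + d p y := le_trans (min_le_right _ _) (min_le_right _ _)
theorem shortD_cases (d : ℕ → ℕ → ℕ) (p l x y : ℕ) :
    shortD d p l x y = d x y ∨ shortD d p l x y = d x p + l + d (p+1) y ∨
      shortD d p l x y = d x (p+1) + l + d p y := by
  unfold shortD
  rcases min_choice (d x y) (min (d x p + l + d (p+1) y) (d x (p+1) + l + d p y)) with h | h
  · exact Or.inl h
  · rcases min_choice (d x p + l + d (p+1) y) (d x (p+1) + l + d p y) with h2 | h2
    · exact Or.inr (Or.inl (h.trans h2))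
    · exact Or.inr (Or.inr (h.trans h2))

def K4 (d : ℕ → ℕ → ℕ) (a b c e : ℕ) : Prop :=
  d a b + d c e ≤ d a c + d b e ∧ d a e + d b c ≤ d a c + d b e

theorem K4.rot {d : ℕ → ℕ → ℕ} (hs : ∀ i j, d i j = d j i) {a b c e : ℕ} (h : K4 d a b c e) :
    K4 d b c e a := by
  have h1 := hs a b
  have h2 := hs a c
  have h3 := hs a e
  unfold K4 at *
  omega

theorem short_cyc (d : ℕ → ℕ → ℕ) (p l : ℕ) (hs : ∀ i j, d i j = d j i) (a b c e : ℕ)
    (h0 : K4 d a b c e) (h1 : K4 d (p+1) b c e) (h2 : K4 d p b c e) (h3 : K4 d a (p+1) c e)
    (h4 : K4 d a p c e)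
    (t1 : d a b ≤ d a p + d p b) (t2 : d a b ≤ d a (p+1) + d (p+1) b)
    (t3 : d c e ≤ d c p + d p e) (t4 : d c e ≤ d c (p+1) + d (p+1) e)
    (t5 : d a e ≤ d a p + d p e) (t6 : d a e ≤ d a (p+1) + d (p+1) e)
    (t7 : d b c ≤ d b p + d p c) (t8 : d b c ≤ d b (p+1) + d (p+1) c) :
    K4 (shortD d p l) a b c e := by
  have s1 := hs p b
  have s2 := hs (p+1) b
  have s3 := hs p c
  have s4 := hs (p+1) c
  have s5 := hs p a
  have s6 := hs (p+1) a
  have s7 := hs p e
  have s8 := hs (p+1) e
  have ab0 := shortD_le d p l a b
  have ab1 := shortD_le1 d p l a b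
  have ab2 := shortD_le2 d p l a b
  have ce0 := shortD_le d p l c e
  have ce1 := shortD_le1 d p l c e
  have ce2 := shortD_le2 d p l c e
  have ae0 := shortD_le d p l a e
  have ae1 := shortD_le1 d p l a e
  have ae2 := shortD_le2 d p l a e
  have bc0 := shortD_le d p l b c
  have bc1 := shortD_le1 d p l b c
  have bc2 := shortD_le2 d p l b c
  unfold K4 at *
  generalize shortD d p l a b = ab at *
  generalize shortD d p l c e = ce at *
  generalize shortD d p l a e = ae at *
  generalize shortD d p l b c = bc at *
  rcases shortD_cases d p l a c with g | g | g <;> rcases shortD_cases d p l b e with g' | g' | g' <;>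
    rw [g, g'] <;> constructor <;> omega

theorem Kal.K4 {n : ℕ} {d : ℕ → ℕ → ℕ} (h : Kal n d) {a b c e : ℕ} (h1 : a ≤ b) (h2 : b ≤ c)
    (h3 : c ≤ e) (h4 : e ≤ n) : K4 d a b c e := ⟨h.k1 a b c e h1 h2 h3 h4, h.k2 a b c e h1 h2 h3 h4⟩

theorem Kal.short {n : ℕ} {d : ℕ → ℕ → ℕ} (h : Kal n d) (p l : ℕ) (hp : p + 1 ≤ n) :
    Kal n (shortD d p l) := by
  have hs := h.symm
  have key : ∀ a b c e, a ≤ b → b ≤ c → c ≤ e → e ≤ n → GF.K4 (shortD d p l) a b c e := by
    intro a b c e hab hbc hce hen
    have ss : ∀ i j, shortD d p l i j = shortD d p l j i := by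
      intro i j
      have e1 := hs i j
      have e2 := hs i p
      have e3 := hs i (p+1)
      have e4 := hs p j
      have e5 := hs (p+1) j
      unfold shortD
      rw [e1, e2, e3, e4, e5]
      have : ∀ x y z : ℕ, min x (min y z) = min x (min z y) := by
        intro x y z; rw [min_comm y z]
      rw [this]
      congr 2 <;> omega
    have T := fun x y z hx hy hz => h.tri x y z hx hy hz
    have R : ∀ {a b c e : ℕ}, GF.K4 d a b c e → GF.K4 d b c e a := fun h => K4.rot hs h
    by_cases c1 : p + 1 ≤ a
    · -- before a : use (e, p, q, a, b, c)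
      refine K4.rot ss (short_cyc d p l hs e a b c ?_ ?_ ?_ ?_ ?_ ?_ ?_ ?_ ?_ ?_ ?_ ?_ ?_)
      · exact R (R (R (h.K4 hab hbc hce hen)))
      · exact h.K4 (by omega) hab hbc (by omega)
      · exact h.K4 (by omega) hab hbc (by omega)
      · exact R (R (R (h.K4 (show p + 1 ≤ b by omega) hbc hce hen)))
      · exact R (R (R (h.K4 (show p ≤ b by omega) hbc hce hen)))
      all_goals exact T _ _ _ (by omega) (by omega) (by omega)
    · by_cases c2 : p + 1 ≤ b
      · refine short_cyc d p l hs a b c e ?_ ?_ ?_ ?_ ?_ ?_ ?_ ?_ ?_ ?_ ?_ ?_ ?_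
        · exact h.K4 hab hbc hce hen
        · exact h.K4 (by omega) hbc hce hen
        · exact h.K4 (by omega) hbc hce hen
        · exact h.K4 (by omega) (by omega) hce hen
        · exact h.K4 (by omega) (by omega) hce hen
        all_goals exact T _ _ _ (by omega) (by omega) (by omega)
      · by_cases c3 : p + 1 ≤ c
        · -- between b and c : (b, p, q, c, e, a)
          refine K4.rot ss (K4.rot ss (K4.rot ss
            (short_cyc d p l hs b c e a ?_ ?_ ?_ ?_ ?_ ?_ ?_ ?_ ?_ ?_ ?_ ?_ ?_)))
          · exact R (h.K4 hab hbc hce hen)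
          · exact R (h.K4 (show a ≤ p + 1 by omega) (by omega) hce hen)
          · exact R (h.K4 (show a ≤ p by omega) (by omega) hce hen)
          · exact R (h.K4 hab (show b ≤ p + 1 by omega) (by omega) hen)
          · exact R (h.K4 hab (show b ≤ p by omega) (by omega) hen)
          all_goals exact T _ _ _ (by omega) (by omega) (by omega)
        · by_cases c4 : p + 1 ≤ e
          · -- between c and e : (c, p, q, e, a, b)
            refine K4.rot ss (K4.rot ss
              (short_cyc d p l hs c e a b ?_ ?_ ?_ ?_ ?_ ?_ ?_ ?_ ?_ ?_ ?_ ?_ ?_))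
            · exact R (R (h.K4 hab hbc hce hen))
            · exact R (R (h.K4 hab (show b ≤ p + 1 by omega) (by omega) hen))
            · exact R (R (h.K4 hab (show b ≤ p by omega) (by omega) hen))
            · exact R (R (h.K4 hab hbc (show c ≤ p + 1 by omega) (by omega)))
            · exact R (R (h.K4 hab hbc (show c ≤ p by omega) (by omega)))
            all_goals exact T _ _ _ (by omega) (by omega) (by omega)
          · -- after e : (e, p, q, a, b, c)
            refine K4.rot ss (short_cyc d p l hs e a b c ?_ ?_ ?_ ?_ ?_ ?_ ?_ ?_ ?_ ?_ ?_ ?_ ?_)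
            · exact R (R (R (h.K4 hab hbc hce hen)))
            · exact R (R (R (h.K4 hab hbc (show c ≤ p + 1 by omega) hp)))
            · exact R (R (R (h.K4 hab hbc (show c ≤ p by omega) (by omega))))
            · exact R (R (h.K4 hbc hce (show e ≤ p + 1 by omega) hp))
            · exact R (R (h.K4 hbc hce (show e ≤ p by omega) (by omega)))
            all_goals exact T _ _ _ (by omega) (by omega) (by omega)
  constructor
  · intro i
    have := h.diag i
    unfold shortD
    rw [this]
    simp
  · intro i j
    have e1 := hs i j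
    have e2 := hs i p
    have e3 := hs i (p+1)
    have e4 := hs p j
    have e5 := hs (p+1) j
    unfold shortD
    rw [e1, e2, e3, e4, e5]
    have : ∀ x y z : ℕ, min x (min y z) = min x (min z y) := by
      intro x y z; rw [min_comm y z]
    rw [this]
    congr 2 <;> omega
  · exact fun a b c e h1 h2 h3 h4 => (key a b c e h1 h2 h3 h4).1
  · exact fun a b c e h1 h2 h3 h4 => (key a b c e h1 h2 h3 h4).2

/-- Gap words of a gap metric. -/
structure Wd (Le : FW → FW → Prop) (Sy : ℕ → Prop) (n : ℕ) (d : ℕ → ℕ → ℕ) (c : ℕ → ℕ → FW)
    (edge : ℕ → FW) (root : FW) : Prop where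
  len : ∀ i j, i ≤ j → j ≤ n → (c i j).length = d i j
  deg : ∀ i j, i ≤ j → j ≤ n → ∀ x ∈ c i j, Sy x.1 ∧ x.2.natAbs < (c i j).length
  tri : ∀ i l j, i ≤ l → l ≤ j → j ≤ n → Le (c i j) (c i l ++ c l j)
  edg : ∀ i, i < n → Le (c i (i+1)) (edge i)
  rt : Le root (c 0 n)

def shortC (d : ℕ → ℕ → ℕ) (c : ℕ → ℕ → FW) (p : ℕ) (e : FW) : ℕ → ℕ → FW := fun x y =>
  if y ≤ p then
    if d x (p+1) + e.length + d y p < d x y then c x (p+1) ++ adjP e ++ adjP (c y p) else c x y
  else if x ≤ p then
    if d x p + e.length + d (p+1) y ≤ d x y then c x p ++ e ++ c (p+1) y else c x y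
  else
    if d (p+1) x + e.length + d p y < d x y then adjM (c (p+1) x) ++ adjM e ++ c p y else c x y

section
variable {Le : FW → FW → Prop} [LeC Le] {Sy : ℕ → Prop} {n : ℕ} {d : ℕ → ℕ → ℕ}
  {c : ℕ → ℕ → FW} {edge : ℕ → FW} {root : FW}

theorem Wd.tri' (w : Wd Le Sy n d c edge root) {i l j : ℕ} (h1 : i ≤ l) (h2 : l ≤ j)
    (h3 : j ≤ n) : toWD Le (c i j) ≤ toWD Le (c i l) * toWD Le (c l j) := w.tri i l j h1 h2 h3

theorem Wd.low_ll (w : Wd Le Sy n d c edge root) {p : ℕ} {e : FW} (hp : p + 1 ≤ n)
    (he : Le (c p (p+1)) e) {x y : ℕ} (hxy : x ≤ y) (hy : y ≤ p) :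
    toWD Le (c x (p+1)) * toWD Le (adjP e) * toWD Le (adjP (c y p)) ≤ toWD Le (c x y) :=
  om_ll (w.tri' (i := x) (l := y) (j := p+1) hxy (by omega) hp)
    (w.tri' (i := y) (l := p) (j := p+1) hy (by omega) hp) he (conP e) (conP _)

theorem Wd.low_rr (w : Wd Le Sy n d c edge root) {p : ℕ} {e : FW}
    (he : Le (c p (p+1)) e) {x y : ℕ} (hxy : x ≤ y) (hx : p + 1 ≤ x) (hy : y ≤ n) :
    toWD Le (adjM (c (p+1) x)) * toWD Le (adjM e) * toWD Le (c p y) ≤ toWD Le (c x y) :=
  om_rr (w.tri' (i := p) (l := p+1) (j := y) (by omega) (by omega) hy)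
    (w.tri' (i := p+1) (l := x) (j := y) hx hxy hy) he (conM e) (conM _)

theorem Wd.low_lr (w : Wd Le Sy n d c edge root) {p : ℕ} {e : FW}
    (he : Le (c p (p+1)) e) {x y : ℕ} (hx : x ≤ p) (hyp : p + 1 ≤ y) (hy : y ≤ n) :
    toWD Le (c x y) ≤ toWD Le (c x p) * toWD Le e * toWD Le (c (p+1) y) :=
  om_lr (w.tri' (i := x) (l := p) (j := y) hx (by omega) hy)
    (w.tri' (i := p) (l := p+1) (j := y) (by omega) hyp hy) he

theorem Wd.short_le_ll (w : Wd Le Sy n d c edge root) {p : ℕ} {e : FW} (hp : p + 1 ≤ n)
    (he : Le (c p (p+1)) e) {x y : ℕ} (hxy : x ≤ y) (hy : y ≤ p) :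
    toWD Le (shortC d c p e x y) ≤ toWD Le (c x y) := by
  unfold shortC
  rw [if_pos hy]
  split_ifs with h
  · exact w.low_ll hp he hxy hy
  · exact le_refl _

theorem Wd.short_le_rr (w : Wd Le Sy n d c edge root) {p : ℕ} {e : FW}
    (he : Le (c p (p+1)) e) {x y : ℕ} (hxy : x ≤ y) (hx : p + 1 ≤ x) (hy : y ≤ n) :
    toWD Le (shortC d c p e x y) ≤ toWD Le (c x y) := by
  unfold shortC
  rw [if_neg (by omega : ¬ y ≤ p), if_neg (by omega : ¬ x ≤ p)]
  split_ifs with h
  · exact w.low_rr he hxy hx hy
  · exact le_refl _

theorem Wd.short_ge_lr (w : Wd Le Sy n d c edge root) {p : ℕ} {e : FW}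
    (he : Le (c p (p+1)) e) {x y : ℕ} (hx : x ≤ p) (hyp : p + 1 ≤ y) (hy : y ≤ n) :
    toWD Le (c x y) ≤ toWD Le (shortC d c p e x y) ∧
    toWD Le (shortC d c p e x y) ≤ toWD Le (c x p) * toWD Le e * toWD Le (c (p+1) y) := by
  unfold shortC
  rw [if_neg (by omega : ¬ y ≤ p), if_pos hx]
  split_ifs with h
  · exact ⟨w.low_lr he hx hyp hy, le_refl _⟩
  · exact ⟨le_refl _, w.low_lr he hx hyp hy⟩

theorem Wd.short (h : Kal n d) (w : Wd Le Sy n d c edge root) (p : ℕ) (e : FW) (hp : p + 1 ≤ n)
    (hpos : ∀ i j, i < j → j ≤ n → 1 ≤ d i j)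
    (he : Le (c p (p+1)) e) (hel : e.length ≤ 1) (hdeg : ∀ x ∈ e, Sy x.1 ∧ x.2 = 0) :
    Wd Le Sy n (shortD d p e.length) (shortC d c p e) (fun i => if i = p then e else edge i)
      root := by
  have hs := h.symm
  have hdg := h.diag
  have T := fun x y z hx hy hz => h.tri x y z hx hy hz
  have hpq : 1 ≤ d p (p+1) := hpos p (p+1) (by omega) hp
  refine ⟨?_, ?_, ?_, ?_, ?_⟩
  · -- len
    intro x y hxy hy
    unfold shortC shortD
    have s1 := hs x (p+1)
    have s2 := hs p y
    have s3 := hs x p
    have s4 := hs y (p+1)
    by_cases c1 : y ≤ p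
    · rw [if_pos c1]
      have k := h.k1 x y p (p+1) hxy c1 (by omega) hp
      have l1 := w.len x (p+1) (by omega) hp
      have l2 := w.len y p c1 (by omega)
      have l3 := w.len x y hxy hy
      split_ifs with g
      · simp only [List.length_append, adjP_length]; omega
      · omega
    · rw [if_neg c1]
      by_cases c2 : x ≤ p
      · rw [if_pos c2]
        have k := h.k2 x p (p+1) y c2 (by omega) (by omega) hy
        have l1 := w.len x p c2 (by omega)
        have l2 := w.len (p+1) y (by omega) hy
        have l3 := w.len x y hxy hy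
        split_ifs with g
        · simp only [List.length_append]; omega
        · omega
      · rw [if_neg c2]
        have k := h.k1 p (p+1) x y (by omega) (by omega) hxy hy
        have l1 := w.len (p+1) x (by omega) (by omega)
        have l2 := w.len p y (by omega) hy
        have l3 := w.len x y hxy hy
        split_ifs with g
        · simp only [List.length_append, adjM_length]; omega
        · omega
  · -- deg
    intro x y hxy hy
    unfold shortC
    by_cases c1 : y ≤ p
    · rw [if_pos c1]
      split_ifs with g
      · intro z hz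
        have l1 := w.len x (p+1) (by omega) hp
        have l2 := w.len y p c1 (by omega)
        have q1 := hpos x (p+1) (by omega) hp
        rw [List.mem_append, List.mem_append] at hz
        simp only [List.length_append, adjP_length]
        rcases hz with (hz | hz) | hz
        · have := w.deg x (p+1) (by omega) hp z hz
          exact ⟨this.1, by omega⟩
        · obtain ⟨u, hu, e1, e2⟩ := mem_adjP hz
          have := hdeg u hu
          have hl : 1 ≤ e.length := List.length_pos_of_mem hu
          rw [e1]
          exact ⟨this.1, by omega⟩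
        · obtain ⟨u, hu, e1, e2⟩ := mem_adjP hz
          have := w.deg y p c1 (by omega) u hu
          rw [e1]
          exact ⟨this.1, by omega⟩
      · exact w.deg x y hxy hy
    · rw [if_neg c1]
      by_cases c2 : x ≤ p
      · rw [if_pos c2]
        split_ifs with g
        · intro z hz
          rw [List.mem_append, List.mem_append] at hz
          simp only [List.length_append]
          rcases hz with (hz | hz) | hz
          · have := w.deg x p c2 (by omega) z hz
            exact ⟨this.1, by omega⟩
          · have := hdeg z hz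
            have hl : 1 ≤ e.length := List.length_pos_of_mem hz
            exact ⟨this.1, by omega⟩
          · have := w.deg (p+1) y (by omega) hy z hz
            exact ⟨this.1, by omega⟩
        · exact w.deg x y hxy hy
      · rw [if_neg c2]
        split_ifs with g
        · intro z hz
          have l1 := w.len (p+1) x (by omega) (by omega)
          have l2 := w.len p y (by omega) hy
          have q1 := hpos p y (by omega) hy
          rw [List.mem_append, List.mem_append] at hz
          simp only [List.length_append, adjM_length]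
          rcases hz with (hz | hz) | hz
          · obtain ⟨u, hu, e1, e2⟩ := mem_adjM hz
            have := w.deg (p+1) x (by omega) (by omega) u hu
            rw [e1]
            exact ⟨this.1, by omega⟩
          · obtain ⟨u, hu, e1, e2⟩ := mem_adjM hz
            have := hdeg u hu
            have hl : 1 ≤ e.length := List.length_pos_of_mem hu
            rw [e1]
            exact ⟨this.1, by omega⟩
          · have := w.deg p y (by omega) hy z hz
            exact ⟨this.1, by omega⟩
        · exact w.deg x y hxy hy
  · -- tri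
    intro x z y hxz hzy hy
    show toWD Le (shortC d c p e x y) ≤ toWD Le (shortC d c p e x z) * toWD Le (shortC d c p e z y)
    have sxp := hs x p
    have sxq := hs x (p+1)
    have szp := hs z p
    have szq := hs z (p+1)
    have syp := hs y p
    have syq := hs y (p+1)
    by_cases c1 : y ≤ p
    · -- LLL
      have A := w.short_le_ll hp he (le_trans hxz hzy) c1
      have e1 : shortC d c p e x z = if d x (p+1) + e.length + d z p < d x z
        then c x (p+1) ++ adjP e ++ adjP (c z p) else c x z := by
        unfold shortC; rw [if_pos (by omega)]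
      have e2 : shortC d c p e z y = if d z (p+1) + e.length + d y p < d z y
        then c z (p+1) ++ adjP e ++ adjP (c y p) else c z y := by
        unfold shortC; rw [if_pos c1]
      have e3 : shortC d c p e x y = if d x (p+1) + e.length + d y p < d x y
        then c x (p+1) ++ adjP e ++ adjP (c y p) else c x y := by
        unfold shortC; rw [if_pos c1]
      rw [e1, e2]
      split_ifs with g1 g2 g2
      · exfalso
        have t1 := T x z (p+1) (by omega) (by omega) hp
        have t2 := T z y p (by omega) (by omega) (by omega)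
        omega
      · have k := h.k1 x z y p hxz hzy c1 (by omega)
        rw [e3, if_pos (by omega)]
        exact om_lll_lohi (om_anti (w.tri' hzy c1 (by omega)) (expP _) (conP _))
      · have k := h.k2 x z y (p+1) hxz hzy (by omega) hp
        rw [e3, if_pos (by omega)]
        exact om_lll_hilo (w.tri' hxz (by omega) hp)
      · exact le_trans A (w.tri' hxz hzy hy)
    · by_cases c2 : z ≤ p
      · -- LLR
        have A := w.short_ge_lr he (show x ≤ p by omega) (show p + 1 ≤ y by omega) hy
        have e1 : shortC d c p e x z = if d x (p+1) + e.length + d z p < d x z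
          then c x (p+1) ++ adjP e ++ adjP (c z p) else c x z := by
          unfold shortC; rw [if_pos (by omega)]
        have e2 : shortC d c p e z y = if d z p + e.length + d (p+1) y ≤ d z y
          then c z p ++ e ++ c (p+1) y else c z y := by
          unfold shortC; rw [if_neg c1, if_pos c2]
        have e3 : shortC d c p e x y = if d x p + e.length + d (p+1) y ≤ d x y
          then c x p ++ e ++ c (p+1) y else c x y := by
          unfold shortC; rw [if_neg c1, if_pos (by omega)]
        rw [e1, e2]
        split_ifs with g1 g2 g2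
        · -- lo, HI
          have t1 := T x z p (by omega) (by omega) (by omega)
          have t2 := T x y (p+1) (by omega) (by omega) (by omega)
          rw [e3, if_neg (by omega)]
          exact om_llr_lohi (w.tri' (show x ≤ p + 1 by omega) (by omega) hy) (expP _) (expP _)
        · exfalso
          have k := h.k1 x z (p+1) y hxz (by omega) (by omega) hy
          omega
        · exact le_trans A.2 (om_llr_hihi (w.tri' hxz c2 (by omega)))
        · have k := h.k2 x z p y hxz c2 (by omega) hy
          rw [e3, if_neg (by omega)]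
          exact w.tri' hxz hzy hy
      · by_cases c3 : x ≤ p
        · -- LRR
          have A := w.short_ge_lr he c3 (show p + 1 ≤ y by omega) hy
          have e1 : shortC d c p e x z = if d x p + e.length + d (p+1) z ≤ d x z
            then c x p ++ e ++ c (p+1) z else c x z := by
            unfold shortC; rw [if_neg c2, if_pos c3]
          have e2 : shortC d c p e z y = if d (p+1) z + e.length + d p y < d z y
            then adjM (c (p+1) z) ++ adjM e ++ c p y else c z y := by
            unfold shortC; rw [if_neg c1, if_neg c2]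
          have e3 : shortC d c p e x y = if d x p + e.length + d (p+1) y ≤ d x y
            then c x p ++ e ++ c (p+1) y else c x y := by
            unfold shortC; rw [if_neg c1, if_pos c3]
          rw [e1, e2]
          split_ifs with g1 g2 g2
          · -- HI, lo
            have t1 := T x y p (by omega) (by omega) (by omega)
            have t2 := T z y (p+1) (by omega) (by omega) (by omega)
            rw [e3, if_neg (by omega)]
            exact om_lrr_hilo (w.tri' c3 (by omega) hy) (expM _) (expM _)
          · exact le_trans A.2 (om_lrr_hihi (w.tri' (by omega) hzy hy))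
          · exfalso
            have k := h.k1 x p z y c3 (by omega) hzy hy
            omega
          · have k := h.k2 x (p+1) z y (by omega) (by omega) hzy hy
            rw [e3, if_neg (by omega)]
            exact w.tri' hxz hzy hy
        · -- RRR
          have A := w.short_le_rr he (le_trans hxz hzy) (show p + 1 ≤ x by omega) hy
          have e1 : shortC d c p e x z = if d (p+1) x + e.length + d p z < d x z
            then adjM (c (p+1) x) ++ adjM e ++ c p z else c x z := by
            unfold shortC; rw [if_neg c2, if_neg c3]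
          have e2 : shortC d c p e z y = if d (p+1) z + e.length + d p y < d z y
            then adjM (c (p+1) z) ++ adjM e ++ c p y else c z y := by
            unfold shortC; rw [if_neg c1, if_neg c2]
          have e3 : shortC d c p e x y = if d (p+1) x + e.length + d p y < d x y
            then adjM (c (p+1) x) ++ adjM e ++ c p y else c x y := by
            unfold shortC; rw [if_neg c1, if_neg c3]
          rw [e1, e2]
          split_ifs with g1 g2 g2
          · exfalso
            have t1 := T x z (p+1) (by omega) (by omega) hp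
            have t2 := T z y p (by omega) (by omega) (by omega)
            omega
          · have k := h.k2 p x z y (by omega) hxz hzy hy
            rw [e3, if_pos (by omega)]
            exact om_rrr_lohi (w.tri' (by omega) hzy hy)
          · have k := h.k1 (p+1) x z y (by omega) hxz hzy hy
            rw [e3, if_pos (by omega)]
            exact om_rrr_hilo (om_antiM (w.tri' (show p + 1 ≤ x by omega) hxz (by omega))
              (expM _) (conM _))
          · exact le_trans A (w.tri' hxz hzy hy)
  · -- edg
    intro i hi
    show toWD Le (shortC d c p e i (i+1)) ≤ toWD Le (if i = p then e else edge i)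
    rcases lt_trichotomy i p with c1 | c1 | c1
    · rw [if_neg (by omega)]
      exact le_trans (w.short_le_ll hp he (by omega) (by omega)) (w.edg i hi)
    · subst c1
      rw [if_pos rfl]
      have e3 : shortC d c i e i (i+1) = c i i ++ e ++ c (i+1) (i+1) := by
        unfold shortC
        rw [if_neg (by omega), if_pos le_rfl, if_pos (by rw [hdg, hdg]; omega)]
      have l1 : c i i = [] := by
        have := w.len i i le_rfl (by omega)
        rw [hdg] at this
        exact List.length_eq_zero_iff.1 this
      have l2 : c (i+1) (i+1) = [] := by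
        have := w.len (i+1) (i+1) le_rfl (by omega)
        rw [hdg] at this
        exact List.length_eq_zero_iff.1 this
      rw [e3, l1, l2, List.nil_append, List.append_nil]
    · rw [if_neg (by omega)]
      exact le_trans (w.short_le_rr he (by omega) (by omega) (by omega)) (w.edg i hi)
  · -- rt
    exact le_trans (show toWD Le root ≤ toWD Le (c 0 n) from w.rt)
      (w.short_ge_lr he (Nat.zero_le p) hp le_rfl).1

end

end Pool.Agent.Helper273.GF
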